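import Pool.Agent.X261.BB.Tab

/-!
# The contraction: semantics
-/

set_option autoImplicit false
set_option linter.unusedSectionVars false

namespace Pool.Agent.X261.BB

open Finset

noncomputable section con

/-- vertices -/
def kv (n : ℕ) : Finset (Fin 21) := {Fin.ofNat 21 n}

/-- edges -/
def ke (i : ℕ) : Finset (Fin 21) := {ea i, eb i}

/-- triangles -/
def kt (i : ℕ) : Finset (Fin 21) := {ta i, tb i, tc i}

theorem lt_of_all {l : List (ℤ × ℕ)} {n : ℕ} (h : l.all (fun p => Nat.blt p.2 n) = true) :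
    ∀ p ∈ l, p.2 < n := by
  intro p hp
  rw [List.all_eq_true] at h
  exact Nat.blt_eq.mp (h p hp)

theorem T1_lt (v : Fin 21) : ∀ p ∈ T1 v.val, p.2 < 80 := lt_of_all (chk4 v)

theorem T2_lt {i : ℕ} (hi : i < 80) : ∀ p ∈ T2 i, p.2 < 60 := lt_of_all (chk5 ⟨i, hi⟩)

theorem dL_ke {i : ℕ} (hi : i < 80) : dL (Finsupp.single (ke i) (1 : ℤ)) =
    Finsupp.single {eb i} 1 - Finsupp.single {ea i} 1 :=
  dL_two (chk6 ⟨i, hi⟩).1

theorem kv_eb {i : ℕ} : kv (edg.getD i 0 % 21) = {eb i} := rfl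

theorem kv_ea {i : ℕ} : kv (edg.getD i 0 / 21) = {ea i} := rfl

theorem dL_evE (l : List (ℤ × ℕ)) (h : ∀ p ∈ l, p.2 < 80) : dL (ev ke l) = ev kv (bdE l) := by
  induction l with
  | nil => simp [ev, bdE]
  | cons p l ih =>
    have h1 : bdE (p :: l) = (p.1, edg.getD p.2 0 % 21) :: (-p.1, edg.getD p.2 0 / 21) :: bdE l := by
      simp [bdE]
    have hp := h p (by simp)
    rw [h1, ev_cons, ev_cons, ev_cons, map_add, ih (fun q hq => h q (by simp [hq]))]
    have h2 : (Finsupp.single (ke p.2) p.1 : Finset (Fin 21) →₀ ℤ) =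
        p.1 • Finsupp.single (ke p.2) 1 := by
      rw [Finsupp.smul_single, smul_eq_mul, mul_one]
    rw [h2, map_smul, dL_ke hp, kv_eb, kv_ea, smul_sub, Finsupp.smul_single,
      Finsupp.smul_single, smul_eq_mul, mul_one, Finsupp.single_neg]
    abel

theorem dL_kt {i : ℕ} (hi : i < 60) : dL (Finsupp.single (kt i) (1 : ℤ)) =
    Finsupp.single (ke (tbi.getD i 0 / 6400)) 1 - Finsupp.single (ke (tbi.getD i 0 / 80 % 80)) 1 +
      Finsupp.single (ke (tbi.getD i 0 % 80)) 1 := by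
  obtain ⟨h1, h2, _, _, _, ⟨_, h3, h4⟩, ⟨_, h5, h6⟩, ⟨_, h7, h8⟩⟩ := chk7 ⟨i, hi⟩
  unfold kt ke
  rw [dL_three h1 h2, h3, h4, h5, h6, h7, h8]

theorem dL_evT (l : List (ℤ × ℕ)) (h : ∀ p ∈ l, p.2 < 60) : dL (ev kt l) = ev ke (bdT l) := by
  induction l with
  | nil => simp [ev, bdT]
  | cons p l ih =>
    have h1 : bdT (p :: l) = (p.1, tbi.getD p.2 0 / 6400) :: (-p.1, tbi.getD p.2 0 / 80 % 80) ::
        (p.1, tbi.getD p.2 0 % 80) :: bdT l := by
      simp [bdT]
    have hp := h p (by simp)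
    rw [h1, ev_cons, ev_cons, ev_cons, ev_cons, map_add, ih (fun q hq => h q (by simp [hq]))]
    have h2 : (Finsupp.single (kt p.2) p.1 : Finset (Fin 21) →₀ ℤ) =
        p.1 • Finsupp.single (kt p.2) 1 := by
      rw [Finsupp.smul_single, smul_eq_mul, mul_one]
    rw [h2, map_smul, dL_kt hp, smul_add, smul_sub, Finsupp.smul_single,
      Finsupp.smul_single, Finsupp.smul_single, smul_eq_mul, mul_one, Finsupp.single_neg]
    abel

/-- the values of the contraction -/
def Sv (σ : Finset (Fin 21)) : Finset (Fin 21) →₀ ℤ :=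
  (if σ = ∅ then Finsupp.single {0} 1 else 0) +
  (if σ.card = 1 then ∑ v ∈ σ, ev ke (T1 v.val) else 0) +
  (if σ.card = 2 then ∑ v ∈ σ, ∑ w ∈ σ.filter (fun w => v < w), ev kt (T2 (ie v w)) else 0)

theorem Sv_empty : Sv ∅ = Finsupp.single {0} 1 := by
  unfold Sv
  rw [if_pos rfl, if_neg (by simp), if_neg (by simp), add_zero, add_zero]

theorem Sv_one (a : Fin 21) : Sv {a} = ev ke (T1 a.val) := by
  unfold Sv
  rw [if_neg (singleton_ne_empty a), if_pos (card_singleton a), if_neg (by simp), sum_singleton,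
    zero_add, add_zero]

theorem Sv_two {a b : Fin 21} (h : a < b) : Sv {a, b} = ev kt (T2 (ie a b)) := by
  have h0 : ({a, b} : Finset (Fin 21)).card = 2 := card_pair h.ne
  unfold Sv
  rw [if_neg (insert_ne_empty a _), if_neg (by rw [h0]; omega), if_pos h0, sum_pair h.ne,
    zero_add, zero_add]
  rw [filter_insert, if_neg (lt_irrefl a), filter_singleton, if_pos h, filter_insert,
    if_neg (not_lt.2 h.le), filter_singleton, if_neg (lt_irrefl b), sum_singleton, sum_empty,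
    add_zero]

theorem Sv_three {σ : Finset (Fin 21)} (h : σ.card = 3) : Sv σ = 0 := by
  unfold Sv
  rw [if_neg (by rintro rfl; simp at h), if_neg (by omega), if_neg (by omega), add_zero, add_zero]

/-- the contraction -/
def sPS : (Finset (Fin 21) →₀ ℤ) →ₗ[ℤ] (Finset (Fin 21) →₀ ℤ) := Finsupp.linearCombination ℤ Sv

theorem sPS_single (σ : Finset (Fin 21)) : sPS (Finsupp.single σ 1) = Sv σ := by
  unfold sPS
  rw [Finsupp.linearCombination_single, one_smul]

theorem cq_card {σ : Finset (Fin 21)} (h : Cq PS σ) : σ.card ≤ 3 := by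
  have h1 : Set.InjOn rk (σ : Set (Fin 21)) := by
    intro u hu v hv huv
    by_contra hne
    exact chk12 u v (h u hu v hv hne) huv
  have h2 := card_le_card_of_injOn (t := (univ : Finset (Fin 3))) rk (fun _ _ => mem_univ _) h1
  simpa using h2

theorem cases_pair {σ : Finset (Fin 21)} (h : σ.card = 2) : ∃ a b, a < b ∧ σ = {a, b} := by
  obtain ⟨x, y, hxy, rfl⟩ := card_eq_two.1 h
  rcases lt_or_gt_of_ne hxy with h | h
  · exact ⟨x, y, h, rfl⟩
  · exact ⟨y, x, h, pair_comm x y⟩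

theorem cases_triple {σ : Finset (Fin 21)} (h : σ.card = 3) :
    ∃ a b c, a < b ∧ b < c ∧ σ = {a, b, c} := by
  obtain ⟨x, y, z, hxy, hxz, hyz, rfl⟩ := card_eq_three.1 h
  rcases lt_or_gt_of_ne hxy with h1 | h1 <;> rcases lt_or_gt_of_ne hxz with h2 | h2 <;>
    rcases lt_or_gt_of_ne hyz with h3 | h3
  · exact ⟨x, y, z, h1, h3, rfl⟩
  · exact ⟨x, z, y, h2, h3, by rw [pair_comm]⟩
  · exact absurd (h1.trans (h3.trans h2)) (lt_irrefl _)
  · exact ⟨z, x, y, h2, h1, by rw [pair_comm y z, insert_comm x z]⟩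
  · exact ⟨y, x, z, h1, h2, by rw [insert_comm]⟩
  · exact absurd (h1.trans (h2.trans h3)) (lt_irrefl _)
  · exact ⟨y, z, x, h3, h2, by rw [insert_comm x y, pair_comm x z]⟩
  · exact ⟨z, y, x, h3, h1, by rw [insert_comm x y, pair_comm x z, insert_comm y z]⟩

theorem cq_one (a : Fin 21) : Cq PS {a} := by
  intro u hu v hv huv
  rw [mem_singleton] at hu hv
  exact absurd (hu.trans hv.symm) huv

theorem cq_ke {i : ℕ} (hi : i < 80) : Cq PS (ke i) ∧ (ke i).card = 2 := by
  obtain ⟨h1, h2, _⟩ := chk6 ⟨i, hi⟩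
  refine ⟨?_, card_pair h1.ne⟩
  have h3 : PS.Adj (ea i) (eb i) := h2
  intro u hu v hv huv
  unfold ke at hu hv
  rw [mem_insert, mem_singleton] at hu hv
  rcases hu with rfl | rfl <;> rcases hv with rfl | rfl
  · exact absurd rfl huv
  · exact h3
  · exact h3.symm
  · exact absurd rfl huv

theorem cq_kt {i : ℕ} (hi : i < 60) : Cq PS (kt i) ∧ (kt i).card = 3 := by
  obtain ⟨h1, h2, h3, h4, h5, _⟩ := chk7 ⟨i, hi⟩
  have h3' : PS.Adj (ta i) (tb i) := h3
  have h4' : PS.Adj (tb i) (tc i) := h4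
  have h5' : PS.Adj (ta i) (tc i) := h5
  refine ⟨?_, card_eq_three.2 ⟨_, _, _, h1.ne, (h1.trans h2).ne, h2.ne, rfl⟩⟩
  intro u hu v hv huv
  unfold kt at hu hv
  rw [mem_insert, mem_insert, mem_singleton] at hu hv
  rcases hu with rfl | rfl | rfl <;> rcases hv with rfl | rfl | rfl
  · exact absurd rfl huv
  · exact h3'
  · exact h5'
  · exact h3'.symm
  · exact absurd rfl huv
  · exact h4'
  · exact h5'.symm
  · exact h4'.symm
  · exact absurd rfl huv

theorem ev_single (key : ℕ → Finset (Fin 21)) (k : ℕ) :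
    ev key [(-1, k)] = - Finsupp.single (key k) 1 := by
  rw [ev_cons, ev_nil, add_zero, Finsupp.single_neg]

theorem eq1 (v : Fin 21) : dL (ev ke (T1 v.val)) = Finsupp.single {v} 1 - Finsupp.single {0} 1 := by
  have h1 := ev_isZ kv 60 _ (chk1 v)
  rw [ev_append, ev_cons, ev_single] at h1
  rw [dL_evE _ (T1_lt v)]
  have h2 : kv v.val = {v} := by
    unfold kv
    rw [singleton_inj]
    exact Fin.ext (Nat.mod_eq_of_lt v.isLt)
  have h3 : kv 0 = {0} := rfl
  rw [h2] at h1
  simp only [h3] at h1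
  rw [← sub_eq_zero, ← h1]
  abel

theorem eq2 {i : ℕ} (hi : i < 80) : dL (ev kt (T2 i)) + (ev ke (T1 (eb i).val) -
    ev ke (T1 (ea i).val)) = Finsupp.single (ke i) 1 := by
  have h1 := ev_isZ ke 200 _ (chk2 ⟨i, hi⟩)
  rw [ev_append, ev_append, ev_append, ev_single, ev_ng] at h1
  obtain ⟨_, _, h2, h3⟩ := chk6 ⟨i, hi⟩
  simp only at h1 h2 h3
  rw [dL_evT _ (T2_lt hi), h2, h3, ← sub_eq_zero, ← h1]
  abel

theorem eq3 {i : ℕ} (hi : i < 60) : ev kt (T2 (tbi.getD i 0 / 6400)) -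
    ev kt (T2 (tbi.getD i 0 / 80 % 80)) + ev kt (T2 (tbi.getD i 0 % 80)) =
      Finsupp.single (kt i) 1 := by
  have h1 := ev_isZ kt 200 _ (chk3 ⟨i, hi⟩)
  rw [ev_append, ev_append, ev_append, ev_single, ev_ng] at h1
  simp only at h1
  rw [← sub_eq_zero, ← h1]
  abel

theorem contr_PS : Contr PS sPS := by
  refine ⟨?_, ?_, fun σ hσ => cq_card hσ⟩
  · intro σ hσ
    rw [sPS_single]
    have h3 := cq_card hσ
    rcases Nat.lt_or_ge σ.card 1 with h | h
    · have h1 : σ = ∅ := card_eq_zero.1 (by omega)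
      subst h1
      rw [Sv_empty]
      exact Finsupp.single_mem_supported ℤ _ ⟨cq_one 0, by simp⟩
    rcases Nat.lt_or_ge σ.card 2 with h' | h'
    · obtain ⟨a, rfl⟩ := card_eq_one.1 (show σ.card = 1 by omega)
      rw [Sv_one]
      refine ev_mem _ _ _ fun p hp => ?_
      obtain ⟨h4, h5⟩ := cq_ke (T1_lt a p hp)
      exact ⟨h4, by rw [h5, card_singleton]⟩
    rcases Nat.lt_or_ge σ.card 3 with h'' | h''
    · obtain ⟨a, b, hab, rfl⟩ := cases_pair (show σ.card = 2 by omega)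
      rw [Sv_two hab]
      have hadj : adjB a b = true := hσ a (by simp) b (by simp) hab.ne
      refine ev_mem _ _ _ fun p hp => ?_
      obtain ⟨h4, h5⟩ := cq_kt (T2_lt (chk8 a b hab hadj).1 p hp)
      exact ⟨h4, by rw [h5, card_pair hab.ne]⟩
    · rw [Sv_three (by omega)]
      exact Submodule.zero_mem _
  · intro σ hσ
    rw [sPS_single]
    have h3 := cq_card hσ
    rcases Nat.lt_or_ge σ.card 1 with h | h
    · have h1 : σ = ∅ := card_eq_zero.1 (by omega)
      subst h1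
      rw [Sv_empty, dL_one, dL_zero, map_zero, add_zero]
    rcases Nat.lt_or_ge σ.card 2 with h' | h'
    · obtain ⟨a, rfl⟩ := card_eq_one.1 (show σ.card = 1 by omega)
      rw [Sv_one, eq1, dL_one, sPS_single, Sv_empty, sub_add_cancel]
    rcases Nat.lt_or_ge σ.card 3 with h'' | h''
    · obtain ⟨a, b, hab, rfl⟩ := cases_pair (show σ.card = 2 by omega)
      have hadj : adjB a b = true := hσ a (by simp) b (by simp) hab.ne
      obtain ⟨h4, h5, h6⟩ := chk8 a b hab hadj
      have h7 := eq2 h4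
      rw [h5, h6] at h7
      rw [Sv_two hab, dL_two hab, map_sub, sPS_single, sPS_single, Sv_one, Sv_one, h7]
      unfold ke
      rw [h5, h6]
    · obtain ⟨a, b, c, hab, hbc, rfl⟩ := cases_triple (show σ.card = 3 by omega)
      have hac := hab.trans hbc
      have h1 : adjB a b = true := hσ a (by simp) b (by simp) hab.ne
      have h2 : adjB b c = true := hσ b (by simp) c (by simp) hbc.ne
      have h4 : adjB a c = true := hσ a (by simp) c (by simp) hac.ne
      obtain ⟨h5, h6, h7, h8⟩ := chk9 a b hab h1 c hbc h2 h4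
      obtain ⟨h9, h10, h11⟩ := chk10 ⟨it a b c, h5⟩
      simp only at h9 h10 h11
      rw [h7, h8] at h9
      rw [h6, h8] at h10
      rw [h6, h7] at h11
      have h12 := eq3 h5
      rw [← h9, ← h10, ← h11] at h12
      rw [Sv_three (by omega), map_zero, zero_add, dL_three hab hbc, map_add, map_sub, sPS_single,
        sPS_single, sPS_single, Sv_two hbc, Sv_two hac, Sv_two hab, h12]
      unfold kt
      rw [h6, h7, h8]

end con

end Pool.Agent.X261.BB
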