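import Mathlib

/-!
# A criterion for the finite generation of an edge group
-/

set_option autoImplicit false
set_option linter.unusedSectionVars false

namespace Pool.Agent.X261.BB

open CategoryTheory Function

section rep

variable {k P : Type} [CommRing k] [Group P]

theorem rep_lift (X : Rep.{0} k P) [Projective X] {A B : Type} [AddCommGroup A] [AddCommGroup B]
    [Module k A] [Module k B]
    (ρA : Representation k P A) (ρB : Representation k P B) (q : A →ₗ[k] B) (hq : Surjective q)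
    (hqe : ∀ g a, q (ρA g a) = ρB g (q a)) (f : X.V →ₗ[k] B)
    (hf : ∀ g x, f (X.ρ g x) = ρB g (f x)) :
    ∃ f' : X.V →ₗ[k] A, (∀ g x, f' (X.ρ g x) = ρA g (f' x)) ∧ ∀ x, q (f' x) = f x := by
  let F : X ⟶ Rep.of ρB := Rep.ofHom ⟨f, fun g => by
    apply LinearMap.ext
    intro x
    exact hf g x⟩
  let Q : Rep.of ρA ⟶ Rep.of ρB := Rep.ofHom ⟨q, fun g => by
    apply LinearMap.ext
    intro x
    exact hqe g x⟩
  have : Epi Q := (Rep.epi_iff_surjective Q).2 hq
  let L := Projective.factorThru F Q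
  have hL : L ≫ Q = F := Projective.factorThru_comp F Q
  refine ⟨L.hom.toLinearMap, fun g x => ?_, fun x => ?_⟩
  · exact Rep.hom_comm_apply L g x
  · have := congrArg (fun h : X ⟶ Rep.of ρB => h.hom x) hL
    exact this

theorem rep_exact_elt {A B C : Rep.{0} k P} {f : A ⟶ B} {g : B ⟶ C} {w : f ≫ g = 0}
    (h : (ShortComplex.mk f g w).Exact) (x : B.V)
    (hx : g.hom x = 0) : ∃ y : A.V, f.hom y = x := by
  have h1 := h.map (forget₂ (Rep.{0} k P) (ModuleCat k))
  rw [ShortComplex.moduleCat_exact_iff] at h1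
  exact h1 x hx

/-- elementwise form of the beginning of a resolution -/
theorem res_elt (R : ProjectiveResolution (Rep.trivial k P k)) :
    ∃ ε : (R.complex.X 0).V →ₗ[k] k, Surjective ε ∧
      (∀ g x, ε ((R.complex.X 0).ρ g x) = ε x) ∧
      (∀ x : (R.complex.X 1).V, ε ((R.complex.d 1 0).hom x) = 0) ∧
      (∀ x : (R.complex.X 0).V, ε x = 0 → ∃ y : (R.complex.X 1).V, (R.complex.d 1 0).hom y = x) ∧
      (∀ x : (R.complex.X 2).V, (R.complex.d 1 0).hom ((R.complex.d 2 1).hom x) = 0) ∧
      (∀ x : (R.complex.X 1).V, (R.complex.d 1 0).hom x = 0 →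
        ∃ y : (R.complex.X 2).V, (R.complex.d 2 1).hom y = x) := by
  let π0 : R.complex.X 0 ⟶ Rep.trivial k P k := R.π.f 0
  have hepi : Epi π0 := inferInstanceAs (Epi (R.π.f 0))
  refine ⟨π0.hom.toLinearMap, ?_, ?_, ?_, ?_, ?_, ?_⟩
  · exact (Rep.epi_iff_surjective π0).1 hepi
  · intro g x
    exact Rep.hom_comm_apply π0 g x
  · intro x
    have := congrArg (fun h : R.complex.X 1 ⟶ Rep.trivial k P k => h.hom x)
      (R.complex_d_comp_π_f_zero)
    exact this
  · intro x hx
    exact rep_exact_elt R.exact₀ x hx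
  · intro x
    have := congrArg (fun h : R.complex.X 2 ⟶ R.complex.X 0 => h.hom x)
      (R.complex.d_comp_d 2 1 0)
    exact this
  · intro x hx
    exact rep_exact_elt (R.exact_succ 0) x hx

end rep

section crit

variable {k P V : Type} [CommRing k] [Group P] [Group V]

/-- translation of functions on cosets -/
noncomputable def tr (k : Type) [CommRing k] (E : Subgroup V) (v : V) :
    (V ⧸ E →₀ k) →ₗ[k] (V ⧸ E →₀ k) :=
  Finsupp.lmapDomain k k (fun z => v • z)

theorem tr_single (E : Subgroup V) (v : V) (z : V ⧸ E) (n : k) :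
    tr k E v (Finsupp.single z n) = Finsupp.single (v • z) n := Finsupp.mapDomain_single

theorem tr_one (E : Subgroup V) (x : V ⧸ E →₀ k) : tr k E 1 x = x := by
  have : tr k E (1 : V) = LinearMap.id := by
    ext z
    simp [tr]
  rw [this]
  rfl

theorem tr_mul (E : Subgroup V) (a b : V) (x : V ⧸ E →₀ k) :
    tr k E (a * b) x = tr k E a (tr k E b x) := by
  have : tr k E (a * b) = tr k E a ∘ₗ tr k E b := by
    ext z
    simp [tr, mul_smul]
  rw [this]
  rfl

/-- the representation on functions on cosets -/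
noncomputable def cosRep (k : Type) [CommRing k] (r : P →* V) (E : Subgroup V) :
    Representation k P (V ⧸ E →₀ k) where
  toFun g := tr k E (r g)
  map_one' := by
    apply LinearMap.ext
    intro x
    rw [map_one, tr_one]
    rfl
  map_mul' g h := by
    apply LinearMap.ext
    intro x
    rw [map_mul, tr_mul]
    rfl

theorem cosRep_apply (r : P →* V) (E : Subgroup V) (g : P) (x : V ⧸ E →₀ k) :
    cosRep k r E g x = tr k E (r g) x := rfl

/-- the quotient map for a smaller subgroup -/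
noncomputable def qm (k : Type) [CommRing k] {E' E : Subgroup V} (h : E' ≤ E) :
    (V ⧸ E' →₀ k) →ₗ[k] (V ⧸ E →₀ k) :=
  Finsupp.lmapDomain k k (Subgroup.quotientMapOfLE h)

theorem qm_tr {E' E : Subgroup V} (h : E' ≤ E) (v : V) (x : V ⧸ E' →₀ k) :
    qm k h (tr k E' v x) = tr k E v (qm k h x) := by
  have : qm k h ∘ₗ tr k E' v = tr k E v ∘ₗ qm k h := by
    apply Finsupp.lhom_ext'
    intro z
    induction z using QuotientGroup.induction_on with
    | H w =>
      ext
      simp only [qm, tr, LinearMap.coe_comp, Function.comp_apply, Finsupp.lsingle_apply,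
        Finsupp.lmapDomain_apply, Finsupp.mapDomain_single]
      rfl
  exact LinearMap.congr_fun this x

theorem qm_trans {E'' E' E : Subgroup V} (h : E'' ≤ E') (h' : E' ≤ E) (x : V ⧸ E'' →₀ k) :
    qm k h' (qm k h x) = qm k (h.trans h') x := by
  have : qm k h' ∘ₗ qm k h = qm k (h.trans h') := by
    apply Finsupp.lhom_ext'
    intro z
    induction z using QuotientGroup.induction_on with
    | H w =>
      ext
      simp only [qm, LinearMap.coe_comp, Function.comp_apply, Finsupp.lsingle_apply,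
        Finsupp.lmapDomain_apply, Finsupp.mapDomain_single]
      rfl
  exact LinearMap.congr_fun this x

theorem qm_surj {E' E : Subgroup V} (h : E' ≤ E) : Surjective (qm k h) := by
  apply Finsupp.mapDomain_surjective
  intro z
  induction z using QuotientGroup.induction_on with
  | H w => exact ⟨QuotientGroup.mk w, rfl⟩

/-- An element of the kernel of `qm` is already killed for some finitely generated subgroup. -/
theorem exists_fg {E : Subgroup V} (y : V ⧸ (⊥ : Subgroup V) →₀ k) (hy : qm k bot_le y = (0 : V ⧸ E →₀ k)) :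
    ∃ T : Set V, T.Finite ∧ T ⊆ E ∧ ∀ (E' : Subgroup V) (_ : E' ≤ E), T ⊆ E' →
      qm k bot_le y = (0 : V ⧸ E' →₀ k) := by
  classical
  let S : Finset V := y.support.image Quotient.out
  let T : Set V := {u | u ∈ E ∧ ∃ v ∈ S, ∃ w ∈ S, u = v⁻¹ * w}
  refine ⟨T, ?_, fun u hu => hu.1, ?_⟩
  · refine Set.Finite.subset ((S.finite_toSet.prod S.finite_toSet).image
      (fun p : V × V => p.1⁻¹ * p.2)) ?_
    rintro u ⟨_, v, hv, w, hw, rfl⟩
    exact ⟨(v, w), ⟨hv, hw⟩, rfl⟩
  · intro E' hE' hT
    have h1 : qm k hE' (qm k bot_le y : V ⧸ E' →₀ k) = qm k hE' 0 := by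
      rw [qm_trans, hy, map_zero]
    let A : Set (V ⧸ E') := {z | ∃ v ∈ S, z = QuotientGroup.mk v}
    have hinj : Set.InjOn (Subgroup.quotientMapOfLE hE') A := by
      rintro _ ⟨v, hv, rfl⟩ _ ⟨w, hw, rfl⟩ hvw
      have h2 : (QuotientGroup.mk v : V ⧸ E) = QuotientGroup.mk w := hvw
      rw [QuotientGroup.eq] at h2 ⊢
      exact hT ⟨h2, v, hv, w, hw, rfl⟩
    refine Finsupp.mapDomain_injOn A hinj ?_ ?_ h1
    · intro z hz
      have hz' := Finsupp.mapDomain_support hz
      rw [Finset.mem_image] at hz'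
      obtain ⟨x, hx, rfl⟩ := hz'
      refine ⟨Quotient.out x, Finset.mem_image_of_mem _ hx, ?_⟩
      conv_lhs => rw [← QuotientGroup.out_eq' x]
      rfl
    · intro z hz
      simp at hz

/-- the extension of the trivial representation by a crossed homomorphism -/
noncomputable def extRep (r : P →* V) (E : Subgroup V) (D : P → (V ⧸ E →₀ k))
    (hD : ∀ a b, D (a * b) = D a + tr k E (r a) (D b)) :
    Representation k P ((V ⧸ E →₀ k) × k) where
  toFun g :=
    { toFun := fun x => (tr k E (r g) x.1 + x.2 • D g, x.2)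
      map_add' := by
        rintro ⟨x, a⟩ ⟨y, b⟩
        refine Prod.ext ?_ rfl
        simp only [Prod.mk_add_mk, map_add, add_smul]
        abel
      map_smul' := by
        rintro n ⟨x, a⟩
        refine Prod.ext ?_ rfl
        simp only [Prod.smul_mk, map_smul, RingHom.id_apply, smul_eq_mul, mul_smul, smul_add] }
  map_one' := by
    have h1 : D 1 = 0 := by
      have := hD 1 1
      rw [mul_one, map_one, tr_one] at this
      simpa using this
    apply LinearMap.ext
    rintro ⟨x, a⟩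
    refine Prod.ext ?_ rfl
    change tr k E (r 1) x + a • D 1 = x
    rw [map_one, tr_one, h1, smul_zero, add_zero]
  map_mul' g h := by
    apply LinearMap.ext
    rintro ⟨x, a⟩
    refine Prod.ext ?_ rfl
    change tr k E (r (g * h)) x + a • D (g * h) =
      tr k E (r g) (tr k E (r h) x + a • D h) + a • D g
    rw [map_mul, tr_mul, hD, map_add, map_smul, smul_add]
    abel

theorem extRep_apply (r : P →* V) (E : Subgroup V) (D : P → (V ⧸ E →₀ k))
    (hD : ∀ a b, D (a * b) = D a + tr k E (r a) (D b)) (g : P) (x : (V ⧸ E →₀ k) × k) :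
    extRep r E D hD g x = (tr k E (r g) x.1 + x.2 • D g, x.2) := rfl

/-- **The criterion.**  If `P` is of type `FP₂`, `c` is an element acting trivially, commuting with
(lifts of) `E`, on which some crossed homomorphism to `k[V / E]` takes the value `E`, then `E` is
finitely generated. -/
theorem edge_fg [Nontrivial k] (r : P →* V) (E : Subgroup V) (σ : V → P)
    (hσ : ∀ e ∈ E, r (σ e) = e) (c : P) (hrc : r c = 1) (hc : ∀ e ∈ E, σ e * c = c * σ e)
    (D : P → (V ⧸ E →₀ k)) (hD : ∀ a b, D (a * b) = D a + tr k E (r a) (D b))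
    (hDc : D c = Finsupp.single (QuotientGroup.mk 1) 1)
    (R : ProjectiveResolution (Rep.trivial k P k))
    (hfg : ∃ s : Finset (R.complex.X 2).V, ∀ S : Submodule k (R.complex.X 2).V,
      (∀ g, ∀ t ∈ s, (R.complex.X 2).ρ g t ∈ S) → ∀ x, x ∈ S) : E.FG := by
  classical
  obtain ⟨ε, hε, hεg, hεd, hex0, hdd, hex1⟩ := res_elt R
  have hdg : ∀ (g : P) (x : (R.complex.X 1).V),
      (R.complex.d 1 0).hom ((R.complex.X 1).ρ g x) =
        (R.complex.X 0).ρ g ((R.complex.d 1 0).hom x) := fun g x => Rep.hom_comm_apply _ g x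
  have hdg2 : ∀ (g : P) (x : (R.complex.X 2).V),
      (R.complex.d 2 1).hom ((R.complex.X 2).ρ g x) =
        (R.complex.X 1).ρ g ((R.complex.d 2 1).hom x) := fun g x => Rep.hom_comm_apply _ g x
  -- step 1
  obtain ⟨ψ, hψ1, hψ2⟩ := rep_lift (R.complex.X 0) (extRep r E D hD)
    (Representation.trivial k P k) (LinearMap.snd k _ k) (fun a => ⟨(0, a), rfl⟩)
    (fun g a => rfl) ε hεg
  -- step 2
  let d1 : (R.complex.X 1).V →ₗ[k] (R.complex.X 0).V := (R.complex.d 1 0).hom.toLinearMap
  let d2 : (R.complex.X 2).V →ₗ[k] (R.complex.X 1).V := (R.complex.d 2 1).hom.toLinearMap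
  let f : (R.complex.X 1).V →ₗ[k] (V ⧸ E →₀ k) := (LinearMap.fst k _ k ∘ₗ ψ) ∘ₗ d1
  have hf0 : ∀ x, (ψ (d1 x)).2 = 0 := by
    intro x
    have := hψ2 (d1 x)
    exact this.trans (hεd x)
  have hf1 : ∀ g x, f ((R.complex.X 1).ρ g x) = cosRep k r E g (f x) := by
    intro g x
    have h1 : d1 ((R.complex.X 1).ρ g x) = (R.complex.X 0).ρ g (d1 x) := hdg g x
    change (ψ (d1 ((R.complex.X 1).ρ g x))).1 = tr k E (r g) (ψ (d1 x)).1
    rw [h1, hψ1, extRep_apply, hf0, zero_smul, add_zero]
  -- step 3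
  obtain ⟨f₀, hf₀1, hf₀2⟩ := rep_lift (R.complex.X 1) (cosRep k r ⊥) (cosRep k r E)
    (qm k bot_le) (qm_surj _) (fun g a => qm_tr _ _ _) f hf1
  -- step 4
  obtain ⟨s, hs⟩ := hfg
  have hker : ∀ x, (qm k bot_le (f₀ (d2 x)) : V ⧸ E →₀ k) = 0 := by
    intro x
    rw [hf₀2]
    change (ψ (d1 (d2 x))).1 = 0
    have h1 : d1 (d2 x) = 0 := hdd x
    rw [h1, map_zero]
    rfl
  have hT : ∀ x : (R.complex.X 2).V, ∃ T : Set V, T.Finite ∧ T ⊆ E ∧
      ∀ (E' : Subgroup V) (_ : E' ≤ E), T ⊆ E' → (qm k bot_le (f₀ (d2 x)) : V ⧸ E' →₀ k) = 0 :=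
    fun x => exists_fg _ (hker x)
  choose T hT1 hT2 hT3 using hT
  let U : Set V := ⋃ t ∈ s, T t
  have hUfin : U.Finite := Set.Finite.biUnion s.finite_toSet (fun t _ => hT1 t)
  have hUE : U ⊆ E := Set.iUnion₂_subset (fun t _ => hT2 t)
  let E' : Subgroup V := Subgroup.closure U
  have hE' : E' ≤ E := (Subgroup.closure_le E).2 hUE
  let f' : (R.complex.X 1).V →ₗ[k] (V ⧸ E' →₀ k) := qm k bot_le ∘ₗ f₀
  have hf'1 : ∀ g x, f' ((R.complex.X 1).ρ g x) = tr k E' (r g) (f' x) := by
    intro g x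
    change qm k bot_le (f₀ ((R.complex.X 1).ρ g x)) = _
    rw [hf₀1, cosRep_apply, qm_tr]
    rfl
  have hf'2 : ∀ x, f' (d2 x) = 0 := by
    intro x
    refine hs (LinearMap.ker (f' ∘ₗ d2)) ?_ x
    intro g t ht
    rw [LinearMap.mem_ker, LinearMap.comp_apply]
    have h1 : d2 ((R.complex.X 2).ρ g t) = (R.complex.X 1).ρ g (d2 t) := hdg2 g t
    rw [h1, hf'1]
    have h2 : f' (d2 t) = 0 := hT3 t E' hE' (fun u hu =>
      Subgroup.subset_closure (Set.mem_biUnion ht hu))
    rw [h2, map_zero]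
  -- step 5
  obtain ⟨x₀, hx₀⟩ := hε 1
  have hβ : ∀ p : P, ∃ b : (R.complex.X 1).V, d1 b = (R.complex.X 0).ρ p x₀ - x₀ := by
    intro p
    apply hex0
    rw [map_sub, hεg, sub_self]
  choose β hβ using hβ
  have hδ : ∀ p q, f' (β (p * q)) = f' (β p) + tr k E' (r p) (f' (β q)) := by
    intro p q
    have h1 : d1 (β (p * q) - β p - (R.complex.X 1).ρ p (β q)) = 0 := by
      have h2 : d1 ((R.complex.X 1).ρ p (β q)) = (R.complex.X 0).ρ p (d1 (β q)) := hdg p _
      rw [map_sub, map_sub, h2, hβ, hβ, hβ, map_sub, map_mul]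
      change (R.complex.X 0).ρ p ((R.complex.X 0).ρ q x₀) - x₀ - ((R.complex.X 0).ρ p x₀ - x₀) -
        ((R.complex.X 0).ρ p ((R.complex.X 0).ρ q x₀) - (R.complex.X 0).ρ p x₀) = 0
      abel
    obtain ⟨y, hy⟩ := hex1 _ h1
    have h3 : f' (β (p * q) - β p - (R.complex.X 1).ρ p (β q)) = 0 := by
      rw [← hf'2 y]
      exact congrArg f' hy.symm
    rw [map_sub, map_sub, hf'1, sub_sub, sub_eq_zero] at h3
    exact h3
  have hproj : ∀ p, qm k hE' (f' (β p)) = tr k E (r p) (ψ x₀).1 + D p - (ψ x₀).1 := by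
    intro p
    have h1 : qm k hE' (f' (β p)) = f (β p) := by
      change qm k hE' (qm k bot_le (f₀ (β p))) = _
      rw [qm_trans, hf₀2]
    rw [h1]
    change (ψ (d1 (β p))).1 = _
    rw [hβ, map_sub, hψ1, extRep_apply]
    have h2 : (ψ x₀).2 = 1 := by
      have := hψ2 x₀
      exact this.trans hx₀
    rw [h2, one_smul]
    rfl
  -- step 6
  set y := f' (β c) with hy
  have hy1 : qm k hE' y = Finsupp.single (QuotientGroup.mk 1) 1 := by
    rw [hy, hproj, hrc, tr_one, hDc]
    abel
  have hy2 : ∀ e ∈ E, tr k E' e y = y := by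
    intro e he
    have h1 := hδ (σ e) c
    rw [hc e he, hδ, hrc, tr_one, hσ e he, add_comm] at h1
    exact (add_left_cancel h1).symm
  -- a point of the support over the trivial coset
  obtain ⟨v, hv1, hv2⟩ : ∃ v ∈ E, (QuotientGroup.mk v : V ⧸ E') ∈ y.support := by
    by_contra hcon
    push Not at hcon
    have h1 : (qm k hE' y) (QuotientGroup.mk 1) = 0 := by
      by_contra hne
      have h2 := Finsupp.mapDomain_support (Finsupp.mem_support_iff.2 hne)
      rw [Finset.mem_image] at h2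
      obtain ⟨z, hz, hz1⟩ := h2
      induction z using QuotientGroup.induction_on with
      | H w =>
        have h3 : (QuotientGroup.mk w : V ⧸ E) = QuotientGroup.mk 1 := hz1
        rw [QuotientGroup.eq, mul_one] at h3
        exact hcon w (by simpa using E.inv_mem h3) hz
    rw [hy1, Finsupp.single_eq_same] at h1
    exact one_ne_zero h1
  have hall : ∀ e ∈ E, (QuotientGroup.mk e : V ⧸ E') ∈ y.support := by
    intro e he
    have h1 := hy2 (e * v⁻¹) (E.mul_mem he (E.inv_mem hv1))
    rw [Finsupp.mem_support_iff] at hv2 ⊢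
    intro h0
    apply hv2
    have h2 : (tr k E' (e * v⁻¹) y) (QuotientGroup.mk e) = y (QuotientGroup.mk v) := by
      have hinj : Function.Injective (fun z : V ⧸ E' => (e * v⁻¹) • z) :=
        MulAction.injective _
      have h3 : (QuotientGroup.mk e : V ⧸ E') = (e * v⁻¹) • (QuotientGroup.mk v : V ⧸ E') := by
        change (QuotientGroup.mk e : V ⧸ E') = QuotientGroup.mk (e * v⁻¹ * v)
        rw [inv_mul_cancel_right]
      rw [h3]
      exact Finsupp.mapDomain_apply hinj _ _
    rw [← h2, h1, h0]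
  -- conclusion
  let W : Set V := U ∪ ((fun z : V ⧸ E' => Quotient.out z) '' (y.support : Set (V ⧸ E')) ∩ E)
  have hW : W.Finite := hUfin.union (((Finset.finite_toSet _).image _).inter_of_left _)
  rw [Subgroup.fg_iff]
  refine ⟨W, ?_, hW⟩
  apply le_antisymm
  · rw [Subgroup.closure_le]
    rintro w (hw | hw)
    · exact hUE hw
    · exact hw.2
  · intro e he
    have h1 := hall e he
    have h2 : (QuotientGroup.mk (Quotient.out (QuotientGroup.mk e : V ⧸ E')) : V ⧸ E') =
        QuotientGroup.mk e := QuotientGroup.out_eq' _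
    rw [QuotientGroup.eq] at h2
    have h3 : E' ≤ Subgroup.closure W := Subgroup.closure_mono Set.subset_union_left
    have h4 : Quotient.out (QuotientGroup.mk e : V ⧸ E') ∈ E := by
      have h5 := E.mul_mem he (E.inv_mem (hE' h2))
      rw [mul_inv_rev, inv_inv, mul_inv_cancel_left] at h5
      exact h5
    have h6 : Quotient.out (QuotientGroup.mk e : V ⧸ E') ∈ Subgroup.closure W :=
      Subgroup.subset_closure (Or.inr ⟨⟨_, h1, rfl⟩, h4⟩)
    have h7 := (Subgroup.closure W).mul_mem h6 (h3 h2)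
    rwa [mul_inv_cancel_left] at h7

end crit

end Pool.Agent.X261.BB
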