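import Pool.Agent.X261.BB.Cen
import Pool.Agent.X261.BB.Nfp

/-!
# The fibre product
-/

set_option autoImplicit false
set_option linter.unusedSectionVars false

namespace Pool.Agent.X261.BB

open CategoryTheory Pool.Agent.W386 Function

noncomputable section

variable {S Q : Type} [Group Q] (π : FreeGroup S →* Q)

/-- the group `Q` as a set on which `F × Q` acts from both sides -/
def XQ (_ : FreeGroup S →* Q) : Type := Q

instance : MulAction (FreeGroup S × Q) (XQ π) where
  smul g m := (g.2 * (id m : Q) * (π g.1)⁻¹ : Q)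
  one_smul m := by
    change (1 : Q) * (id m : Q) * (π 1)⁻¹ = m
    rw [map_one, one_mul, inv_one, mul_one]
    rfl
  mul_smul g h m := by
    change g.2 * h.2 * (id m : Q) * (π (g.1 * h.1))⁻¹ = g.2 * (h.2 * (id m : Q) * (π h.1)⁻¹) * (π g.1)⁻¹
    rw [map_mul, mul_inv_rev]
    group

theorem xq_smul (g : FreeGroup S × Q) (m : Q) :
    (g • (show XQ π from m) : XQ π) = (g.2 * m * (π g.1)⁻¹ : Q) := rfl

/-- the first group -/
abbrev GG : Type := FX (FreeGroup S × Q) (XQ π)

/-- the first projection -/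
def p1 : GG π →* Q := (MonoidHom.snd (FreeGroup S) Q).comp SemidirectProduct.rightHom

theorem p1_surj : Surjective (p1 π) := by
  intro q
  exact ⟨SemidirectProduct.inr (1, q), rfl⟩

theorem fps_GG [Finite S] {m : ℕ} (hQ : FPs (ZG Q) (m + 1) (Triv Q)) :
    FPs (ZG (GG π)) (m + 1) (Triv (GG π)) := by
  refine fps_FX (show XQ π from (1 : Q)) ?_ ((MonoidHom.id (FreeGroup S)).prod π)
    (fun a b h => congrArg Prod.fst h) ?_ (fps_FQ hQ) (fps_F m)
  · intro x
    refine ⟨(1, (id x : Q)), ?_⟩
    rw [xq_smul, map_one, inv_one, mul_one, mul_one]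
    rfl
  · rintro ⟨x, q⟩
    rw [xq_smul]
    constructor
    · intro h
      refine ⟨x, ?_⟩
      refine Prod.ext rfl ?_
      have h1 : q * 1 * (π x)⁻¹ = 1 := h
      rw [mul_one, mul_inv_eq_one] at h1
      exact h1.symm
    · rintro ⟨y, hy⟩
      have h1 : y = x := congrArg Prod.fst hy
      have h2 : π y = q := congrArg Prod.snd hy
      subst h1
      change q * 1 * (π y)⁻¹ = 1
      rw [← h2, mul_one, mul_inv_cancel]

theorem ker_fg [Finite S] (hπ : Surjective π) : Group.FG (p1 π).ker := by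
  rw [Group.fg_iff_subgroup_fg, Subgroup.fg_iff]
  let c : GG π := SemidirectProduct.inl (FreeGroup.of (show XQ π from (1 : Q)))
  let b : S → GG π := fun s => SemidirectProduct.inr (FreeGroup.of s, 1)
  refine ⟨insert c (Set.range b), ?_, (Set.finite_range b).insert c⟩
  apply le_antisymm
  · rw [Subgroup.closure_le]
    rintro x (rfl | ⟨s, rfl⟩)
    · exact rfl
    · exact rfl
  · have h1 : ∀ x : FreeGroup S, (SemidirectProduct.inr (x, 1) : GG π) ∈
        Subgroup.closure (insert c (Set.range b)) := by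
      intro x
      have h2 : ∀ x y : FreeGroup S, (SemidirectProduct.inr (x * y, 1) : GG π) =
          SemidirectProduct.inr (x, 1) * SemidirectProduct.inr (y, 1) := by
        intro x y
        rw [← map_mul, Prod.mk_mul_mk, mul_one]
      have h3 : ∀ x : FreeGroup S, (SemidirectProduct.inr (x⁻¹, 1) : GG π) =
          (SemidirectProduct.inr (x, 1))⁻¹ := by
        intro x
        rw [← map_inv, Prod.inv_mk, inv_one]
      induction x using FreeGroup.induction_on with
      | C1 =>
        have : (SemidirectProduct.inr ((1 : FreeGroup S), (1 : Q)) : GG π) = 1 := by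
          rw [Prod.mk_one_one, map_one]
        rw [this]
        exact Subgroup.one_mem _
      | of s => exact Subgroup.subset_closure (Or.inr ⟨s, rfl⟩)
      | inv_of s ih =>
        rw [h3]
        exact Subgroup.inv_mem _ ih
      | mul x y hx hy =>
        rw [h2]
        exact Subgroup.mul_mem _ hx hy
    have h4 : ∀ n : FreeGroup (XQ π), (SemidirectProduct.inl n : GG π) ∈
        Subgroup.closure (insert c (Set.range b)) := by
      intro n
      induction n using FreeGroup.induction_on with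
      | C1 =>
        rw [map_one]
        exact Subgroup.one_mem _
      | of r =>
        obtain ⟨x, hx⟩ := hπ ((id r : Q))⁻¹
        have h5 : (SemidirectProduct.inl (FreeGroup.of r) : GG π) =
            SemidirectProduct.inr (x, 1) * c * (SemidirectProduct.inr (x, 1))⁻¹ := by
          rw [← map_inv]
          change _ = _ * SemidirectProduct.inl _ * _
          rw [← SemidirectProduct.inl_aut, fa_of]
          congr 2
          change r = ((1 : Q) * 1 * (π x)⁻¹ : Q)
          rw [hx, inv_inv, one_mul, one_mul]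
          rfl
        rw [h5]
        exact Subgroup.mul_mem _ (Subgroup.mul_mem _ (h1 x)
          (Subgroup.subset_closure (Or.inl rfl))) (Subgroup.inv_mem _ (h1 x))
      | inv_of r ih =>
        rw [map_inv]
        exact Subgroup.inv_mem _ ih
      | mul x y hx hy =>
        rw [map_mul]
        exact Subgroup.mul_mem _ hx hy
    intro g hg
    have h6 : g.right.2 = 1 := hg
    have h7 : g = SemidirectProduct.inl g.left * SemidirectProduct.inr (g.right.1, 1) := by
      refine SemidirectProduct.ext ?_ ?_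
      · simp
      · refine Prod.ext ?_ ?_
        · simp
        · simp [h6]
    rw [h7]
    exact Subgroup.mul_mem _ (h4 _) (h1 _)

/-- the fibre square of `π` -/
def fsq : Subgroup (FreeGroup S × FreeGroup S) :=
  (π.comp (MonoidHom.fst _ _)).eqLocus (π.comp (MonoidHom.snd _ _))

theorem mem_fsq (x y : FreeGroup S) : (x, y) ∈ fsq π ↔ π x = π y := Iff.rfl

/-- the fibre product -/
abbrev PP1 : Type :=
  ↥(((p1 π).comp (MonoidHom.fst (GG π) (FreeGroup S))).eqLocus
    (π.comp (MonoidHom.snd (GG π) (FreeGroup S))))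

theorem PP1.eq (p : PP1 π) : p.1.1.right.2 = π p.1.2 := p.2

/-- the projection to `F × F` -/
def rr : PP1 π →* FreeGroup S × FreeGroup S where
  toFun p := (p.1.1.right.1, p.1.2)
  map_one' := rfl
  map_mul' _ _ := rfl

/-- a set-theoretic section -/
def sec (hπ : Surjective π) (q : Q) : FreeGroup S := (hπ q).choose

theorem sec_spec (hπ : Surjective π) (q : Q) : π (sec π hπ q) = q := (hπ q).choose_spec

/-- coset representatives of the fibre square -/
def cr (hπ : Surjective π) (q : Q) : (FreeGroup S × FreeGroup S) ⧸ fsq π :=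
  QuotientGroup.mk (1, sec π hπ q)

theorem cr_smul (hπ : Surjective π) (x y : FreeGroup S) (q : Q) :
    ((x, y) : FreeGroup S × FreeGroup S) • cr π hπ q = cr π hπ (π y * q * (π x)⁻¹) := by
  unfold cr
  change (QuotientGroup.mk ((x, y) * (1, sec π hπ q)) : (FreeGroup S × FreeGroup S) ⧸ fsq π) =
    QuotientGroup.mk (1, sec π hπ (π y * q * (π x)⁻¹))
  rw [QuotientGroup.eq]
  change π ((x * 1)⁻¹ * 1) = π ((y * sec π hπ q)⁻¹ * sec π hπ (π y * q * (π x)⁻¹))
  rw [map_mul, map_inv, map_mul, map_one, map_mul, map_inv, map_mul, sec_spec, sec_spec]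
  group

/-- the abelianisation of the free factor, with values in functions on cosets -/
def D0 (hπ : Surjective π) : FreeGroup (XQ π) →*
    Multiplicative ((FreeGroup S × FreeGroup S) ⧸ fsq π →₀ ℤ) :=
  FreeGroup.lift (fun q => Multiplicative.ofAdd (Finsupp.single (cr π hπ (id q : Q)) 1))

/-- the crossed homomorphism -/
def DD (hπ : Surjective π) (p : PP1 π) : (FreeGroup S × FreeGroup S) ⧸ fsq π →₀ ℤ :=
  (D0 π hπ p.1.1.left).toAdd

theorem D0_equi (hπ : Surjective π) (x y : FreeGroup S) (n : FreeGroup (XQ π)) :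
    (D0 π hπ (fa (FreeGroup S × Q) (XQ π) (x, π y) n)).toAdd =
      tr ℤ (fsq π) (x, y) (D0 π hπ n).toAdd := by
  have : (D0 π hπ).comp (fa (FreeGroup S × Q) (XQ π) (x, π y)).toMonoidHom =
      (AddMonoidHom.toMultiplicative (tr ℤ (fsq π) (x, y)).toAddMonoidHom).comp (D0 π hπ) := by
    ext q : 1
    change D0 π hπ (fa (FreeGroup S × Q) (XQ π) (x, π y) (FreeGroup.of q)) =
      Multiplicative.ofAdd (tr ℤ (fsq π) (x, y) (D0 π hπ (FreeGroup.of q)).toAdd)
    rw [fa_of]
    unfold D0
    rw [FreeGroup.lift_apply_of, FreeGroup.lift_apply_of]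
    congr 1
    change _ = tr ℤ (fsq π) (x, y) (Finsupp.single (cr π hπ (id q : Q)) 1)
    rw [tr_single, cr_smul]
    rfl
  exact congrArg Multiplicative.toAdd (DFunLike.congr_fun this n)

theorem DD_mul (hπ : Surjective π) (a b : PP1 π) :
    DD π hπ (a * b) = DD π hπ a + tr ℤ (fsq π) (rr π a) (DD π hπ b) := by
  unfold DD
  change (D0 π hπ (a.1.1.left * fa _ _ a.1.1.right b.1.1.left)).toAdd = _
  rw [map_mul, toAdd_mul]
  congr 1
  have h1 : a.1.1.right = (a.1.1.right.1, π a.1.2) := Prod.ext rfl (PP1.eq π a)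
  rw [h1]
  exact D0_equi π hπ _ _ _

theorem not_FP2 (hπ : Surjective π) (hE : ¬ (fsq π).FG) :
    ¬ (∃ R : ProjectiveResolution (Rep.trivial ℤ (PP1 π) ℤ),
        ∀ k ≤ 2, ∃ s : Finset (R.complex.X k).V, ∀ x : (R.complex.X k).V,
          x ∈ Submodule.span ℤ
            (Set.range (fun p : PP1 π × s =>
              (R.complex.X k).ρ p.1 (p.2 : (R.complex.X k).V)))) := by
  rintro ⟨R, hR⟩
  obtain ⟨s, hs⟩ := hR 2 le_rfl
  apply hE
  let c : PP1 π := ⟨(SemidirectProduct.inl (FreeGroup.of (show XQ π from (1 : Q))), 1), by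
    change (1 : Q) = π 1
    rw [map_one]⟩
  let σ : FreeGroup S × FreeGroup S → PP1 π := fun v =>
    ⟨(SemidirectProduct.inr (v.1, π v.2), v.2), rfl⟩
  refine edge_fg (k := ℤ) (rr π) (fsq π) σ (fun e _ => rfl) c rfl ?_ (DD π hπ) (DD_mul π hπ) ?_ R
    ⟨s, ?_⟩
  · rintro ⟨x, y⟩ he
    rw [mem_fsq] at he
    apply Subtype.ext
    refine Prod.ext ?_ ?_
    · change (SemidirectProduct.inr (x, π y) : GG π) * SemidirectProduct.inl _ =
        SemidirectProduct.inl _ * SemidirectProduct.inr (x, π y)
      rw [← mul_inv_eq_iff_eq_mul, ← map_inv, ← SemidirectProduct.inl_aut, fa_of]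
      congr 2
      change (π y * 1 * (π x)⁻¹ : Q) = 1
      rw [he, mul_one, mul_inv_cancel]
    · change y * 1 = 1 * y
      rw [mul_one, one_mul]
  · unfold DD
    change (D0 π hπ (FreeGroup.of (show XQ π from (1 : Q)))).toAdd = _
    unfold D0
    rw [FreeGroup.lift_apply_of]
    change Finsupp.single (cr π hπ 1) (1 : ℤ) = _
    congr 1
    unfold cr
    rw [QuotientGroup.eq]
    change π (1⁻¹ * 1) = π ((sec π hπ 1)⁻¹ * 1)
    rw [map_mul, map_mul, map_inv, map_inv, sec_spec, map_one]
  · intro T hT x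
    have h1 := hs x
    refine Submodule.span_induction ?_ ?_ ?_ ?_ h1
    · rintro _ ⟨⟨g, t⟩, rfl⟩
      exact hT g t.1 t.2
    · exact T.zero_mem
    · intro a b _ _ ha hb
      exact T.add_mem ha hb
    · intro n a _ ha
      exact T.toAddSubgroup.zsmul_mem ha n

/-- **The conditional counterexample.** -/
theorem counterexample [Finite S] (hπ : Surjective π) (hQ : FPs (ZG Q) 4 (Triv Q))
    (hE : ¬ (fsq π).FG) :
    ¬ (∀ (G₁ G₂ Q : Type) [Group G₁] [Group G₂] [Group Q] (π₁ : G₁ →* Q) (π₂ : G₂ →* Q),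
      Function.Surjective π₁ → Function.Surjective π₂ → Group.FG π₁.ker →
      (∃ R : ProjectiveResolution (Rep.trivial ℤ G₁ ℤ), ∀ k ≤ 2,
        ∃ s : Finset (R.complex.X k).V, ∀ x : (R.complex.X k).V,
          x ∈ Submodule.span ℤ
            (Set.range (fun p : G₁ × s => (R.complex.X k).ρ p.1 (p.2 : (R.complex.X k).V)))) →
      (∃ R : ProjectiveResolution (Rep.trivial ℤ G₂ ℤ), ∀ k ≤ 2,
        ∃ s : Finset (R.complex.X k).V, ∀ x : (R.complex.X k).V,
          x ∈ Submodule.span ℤ
            (Set.range (fun p : G₂ × s => (R.complex.X k).ρ p.1 (p.2 : (R.complex.X k).V)))) →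
      (∃ R : ProjectiveResolution (Rep.trivial ℤ Q ℤ), ∀ k ≤ 3,
        ∃ s : Finset (R.complex.X k).V, ∀ x : (R.complex.X k).V,
          x ∈ Submodule.span ℤ
            (Set.range (fun p : Q × s => (R.complex.X k).ρ p.1 (p.2 : (R.complex.X k).V)))) →
      (∃ R : ProjectiveResolution (Rep.trivial ℤ
          ↥((π₁.comp (MonoidHom.fst G₁ G₂)).eqLocus (π₂.comp (MonoidHom.snd G₁ G₂))) ℤ),
        ∀ k ≤ 2,
        ∃ s : Finset (R.complex.X k).V, ∀ x : (R.complex.X k).V,
          x ∈ Submodule.span ℤ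
            (Set.range (fun p : ↥((π₁.comp (MonoidHom.fst G₁ G₂)).eqLocus
                (π₂.comp (MonoidHom.snd G₁ G₂))) × s =>
              (R.complex.X k).ρ p.1 (p.2 : (R.complex.X k).V))))) := by
  intro h
  exact not_FP2 π hπ hE (h (GG π) (FreeGroup S) Q (p1 π) π (p1_surj π) hπ (ker_fg π hπ)
    (exists_res 2 (fps_GG π hQ.mono)) (exists_res 2 (fps_F 3)) (exists_res 3 hQ))

end

end Pool.Agent.X261.BB
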