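import Pool.Agent.W386.Main
import Pool.Agent.Helper158.Bridge

/-!
# From finiteness length to projective resolutions in `Rep`
-/

set_option autoImplicit false

namespace Pool.Agent.X261.BB

open CategoryTheory Pool.Agent.W386 Pool.Agent.Helper158

section tower

variable {R : Type} [Ring R]

theorem exists_cov (j : ℕ) (M : ModuleCat.{0} R) :
    ∃ (Q : ModuleCat.{0} R) (f : Q →ₗ[R] M), Function.Surjective f ∧ Module.Projective R Q ∧
      (FPs R (j + 1) M → Module.Finite R Q ∧ FPs R j (LinearMap.ker f)) := by
  by_cases h : FPs R (j + 1) M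
  · obtain ⟨k, f, hf, hk⟩ := h
    exact ⟨ModuleCat.of R (Fin k → R), f, hf, inferInstanceAs (Module.Projective R (Fin k → R)),
      fun _ => ⟨inferInstanceAs (Module.Finite R (Fin k → R)), hk⟩⟩
  · refine ⟨ModuleCat.of R (M →₀ R), Finsupp.linearCombination R (id : M → M), ?_,
      inferInstanceAs (Module.Projective R (M →₀ R)), fun h' => absurd h' h⟩
    intro x
    exact ⟨Finsupp.single x 1, by simp⟩

/-- A projective cover of a module, finitely generated with kernel of type `FPs j` if
possible. -/
noncomputable def cov (j : ℕ) (M : ModuleCat.{0} R) : ModuleCat.{0} R := (exists_cov j M).choose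

/-- the covering map -/
noncomputable def covMap (j : ℕ) (M : ModuleCat.{0} R) : cov j M →ₗ[R] M :=
  (exists_cov j M).choose_spec.choose

theorem covMap_surj (j : ℕ) (M : ModuleCat.{0} R) : Function.Surjective (covMap j M) :=
  (exists_cov j M).choose_spec.choose_spec.1

theorem covMap_ker (j : ℕ) (M : ModuleCat.{0} R) (h : FPs R (j + 1) M) :
    FPs R j (LinearMap.ker (covMap j M)) :=
  ((exists_cov j M).choose_spec.choose_spec.2.2 h).2

theorem cov_proj (j : ℕ) (M : ModuleCat.{0} R) : Module.Projective R (cov j M) :=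
  (exists_cov j M).choose_spec.choose_spec.2.1

theorem cov_fin (j : ℕ) (M : ModuleCat.{0} R) (h : FPs R (j + 1) M) :
    Module.Finite R (cov j M) :=
  ((exists_cov j M).choose_spec.choose_spec.2.2 h).1

/-- the syzygies -/
noncomputable def Syz (n : ℕ) (M : ModuleCat.{0} R) : ℕ → ModuleCat.{0} R
  | 0 => M
  | i + 1 => ModuleCat.of R (LinearMap.ker (covMap (n - i) (Syz n M i)))

/-- the modules of the resolution -/
noncomputable def PP (n : ℕ) (M : ModuleCat.{0} R) (i : ℕ) : ModuleCat.{0} R :=
  cov (n - i) (Syz n M i)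

/-- the covering maps, in the form needed -/
noncomputable def cm (n : ℕ) (M : ModuleCat.{0} R) (i : ℕ) : PP n M i →ₗ[R] Syz n M i :=
  covMap (n - i) (Syz n M i)

/-- the covering maps, with values in the kernel -/
noncomputable def cm' (n : ℕ) (M : ModuleCat.{0} R) (i : ℕ) :
    PP n M (i + 1) →ₗ[R] LinearMap.ker (cm n M i) :=
  cm n M (i + 1)

theorem cm_surj (n : ℕ) (M : ModuleCat.{0} R) (i : ℕ) : Function.Surjective (cm n M i) :=
  covMap_surj _ _

theorem cm'_surj (n : ℕ) (M : ModuleCat.{0} R) (i : ℕ) : Function.Surjective (cm' n M i) :=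
  covMap_surj _ _

/-- the differentials -/
noncomputable def dd (n : ℕ) (M : ModuleCat.{0} R) (i : ℕ) : PP n M (i + 1) →ₗ[R] PP n M i :=
  (LinearMap.ker (cm n M i)).subtype ∘ₗ cm' n M i

theorem dd_range (n : ℕ) (M : ModuleCat.{0} R) (i : ℕ) (x : PP n M i) :
    x ∈ LinearMap.range (dd n M i) ↔ cm n M i x = 0 := by
  constructor
  · rintro ⟨y, rfl⟩
    exact (cm' n M i y).2
  · intro hx
    obtain ⟨y, hy⟩ := cm'_surj n M i ⟨x, hx⟩
    refine ⟨y, ?_⟩
    unfold dd
    rw [LinearMap.comp_apply, hy]
    rfl

theorem dd_ker (n : ℕ) (M : ModuleCat.{0} R) (i : ℕ) (x : PP n M (i + 1)) :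
    dd n M i x = 0 ↔ cm n M (i + 1) x = 0 := by
  have h0 : dd n M i x = ((cm' n M i x : LinearMap.ker (cm n M i)) : PP n M i) := rfl
  rw [h0, Submodule.coe_eq_zero]
  exact Iff.rfl

theorem syz_fps (n : ℕ) (M : ModuleCat.{0} R) (h : FPs R (n + 1) M) :
    ∀ i ≤ n, FPs R (n - i + 1) (Syz n M i) := by
  intro i
  induction i with
  | zero => intro _; exact h
  | succ i ih =>
    intro hi
    have h1 := covMap_ker (n - i) (Syz n M i) (ih (by omega))
    have h2 : n - i = n - (i + 1) + 1 := by omega
    have h3 : ∀ a, a = n - i → FPs R a (LinearMap.ker (covMap (n - i) (Syz n M i))) := by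
      rintro a rfl
      exact h1
    exact h3 _ h2.symm

end tower

section

variable {G : Type} [Group G]

/-- A module of type `FPs (n + 1)` yields a resolution. -/
theorem exists_res (n : ℕ) (h : FPs (ZG G) (n + 1) (Triv G)) :
    ∃ R : ProjectiveResolution (Rep.trivial ℤ G ℤ), ∀ k ≤ n,
      ∃ s : Finset (R.complex.X k).V, ∀ x : (R.complex.X k).V,
        x ∈ Submodule.span ℤ
          (Set.range (fun p : G × s => (R.complex.X k).ρ p.1 (p.2 : (R.complex.X k).V))) := by
  set M : ModuleCat.{0} (ZG G) := ModuleCat.of (ZG G) (Triv G) with hM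
  have hR : Reso (G := G) (fun i => (PP n M i : Type)) (fun i => dd n M i)
      ((cm n M 0).toAddMonoidHom) := by
    refine ⟨cm_surj n M 0, ?_, ?_, ?_⟩
    · intro g x
      have h1 : cm n M 0 (MonoidAlgebra.of ℤ G g • x) =
          MonoidAlgebra.of ℤ G g • cm n M 0 x := map_smul _ _ _
      refine h1.trans ?_
      exact act_triv g _
    · intro x
      exact (dd_range n M 0 x).symm
    · intro i x
      rw [dd_ker, dd_range]
  have : ∀ i, Module.Projective (MonoidAlgebra ℤ G) (PP n M i) := fun i => cov_proj _ _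
  refine ⟨hR.pr, ?_⟩
  intro k hk
  have hfin : Module.Finite (ZG G) (PP n M k) :=
    cov_fin _ _ (syz_fps n M h k hk)
  obtain ⟨s, hs⟩ := hfin.fg_top
  refine ⟨s, fun x => ?_⟩
  have hx : ∀ x : PP n M k, x ∈ Submodule.span (ZG G) (s : Set (PP n M k)) := by
    intro x
    rw [hs]
    trivial
  -- the span over the group ring is the span of the translates
  have key : ∀ x : PP n M k, x ∈ Submodule.span ℤ
      (Set.range (fun p : G × s => MonoidAlgebra.of ℤ G p.1 • (p.2 : PP n M k))) := by
    intro x
    refine Submodule.span_induction ?_ ?_ ?_ ?_ (hx x)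
    · intro y hy
      exact Submodule.subset_span ⟨(1, ⟨y, hy⟩), by
        change MonoidAlgebra.of ℤ G 1 • y = y
        rw [map_one, one_smul]⟩
    · exact Submodule.zero_mem _
    · intro y z _ _ hy hz
      exact Submodule.add_mem _ hy hz
    · intro r y _ hy
      induction r using MonoidAlgebra.induction_on with
      | of g =>
        refine Submodule.span_induction ?_ ?_ ?_ ?_ hy
        · rintro _ ⟨⟨g', t⟩, rfl⟩
          refine Submodule.subset_span ⟨(g * g', t), ?_⟩
          simp only
          rw [map_mul, mul_smul]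
        · rw [smul_zero]
          exact Submodule.zero_mem _
        · intro y z _ _ hy hz
          rw [smul_add]
          exact Submodule.add_mem _ hy hz
        · intro n y _ hy
          rw [smul_comm]
          exact Submodule.smul_mem _ n hy
      | add a b ha hb =>
        rw [add_smul]
        exact Submodule.add_mem _ ha hb
      | smul n a ha =>
        rw [smul_assoc]
        exact Submodule.smul_mem _ n ha
  exact key x

end

end Pool.Agent.X261.BB
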