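import Pool.Agent.X261.BB.Fox

/-!
# The semidirect product of a free group on a set with an action
-/

set_option autoImplicit false
set_option linter.unusedSectionVars false

namespace Pool.Agent.X261.BB

open Pool.Agent.W386 Function

section defs

variable (U X : Type) [Group U] [MulAction U X]

/-- the action on the free group -/
noncomputable def fa : U →* MulAut (FreeGroup X) where
  toFun u := FreeGroup.freeGroupCongr (MulAction.toPerm u)
  map_one' := by
    apply MulEquiv.toMonoidHom_injective
    ext x
    simp
  map_mul' u v := by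
    apply MulEquiv.toMonoidHom_injective
    ext x
    simp [mul_smul]

theorem fa_of (u : U) (x : X) : fa U X u (FreeGroup.of x) = FreeGroup.of (u • x) := by
  simp [fa]

/-- the semidirect product -/
abbrev FX : Type := FreeGroup X ⋊[fa U X] U

/-- the vertices of the tree -/
def YN (X : Type) : Type := FreeGroup X

/-- the edges of the tree -/
def WN (X : Type) : Type := FreeGroup X × X

noncomputable instance : MulAction (FX U X) (YN X) where
  smul g m := ((g.left * fa U X g.right (id m : FreeGroup X) : FreeGroup X))
  one_smul m := by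
    change (1 : FreeGroup X) * fa U X 1 m = m
    rw [map_one, one_mul]
    rfl
  mul_smul g h m := by
    change (g.left * fa U X g.right h.left) * fa U X (g.right * h.right) m =
      g.left * fa U X g.right (h.left * fa U X h.right m)
    rw [map_mul, map_mul, mul_assoc]
    rfl

noncomputable instance : MulAction (FX U X) (WN X) where
  smul g m := ((g.left * fa U X g.right (id m : FreeGroup X × X).1,
    g.right • (id m : FreeGroup X × X).2) : FreeGroup X × X)
  one_smul m := by
    refine Prod.ext ?_ ?_
    · change (1 : FreeGroup X) * fa U X 1 m.1 = m.1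
      rw [map_one, one_mul]
      rfl
    · change (1 : U) • m.2 = m.2
      rw [one_smul]
  mul_smul g h m := by
    refine Prod.ext ?_ ?_
    · change (g.left * fa U X g.right h.left) * fa U X (g.right * h.right) m.1 =
        g.left * fa U X g.right (h.left * fa U X h.right m.1)
      rw [map_mul, map_mul, mul_assoc]
      rfl
    · change (g.right * h.right) • m.2 = g.right • h.right • m.2
      rw [mul_smul]

variable {U X}

theorem yn_smul (g : FX U X) (m : FreeGroup X) :
    (g • (show YN X from m) : YN X) = (g.left * fa U X g.right m : FreeGroup X) := rfl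

theorem wn_smul (g : FX U X) (m : FreeGroup X) (x : X) :
    (g • (show WN X from (m, x)) : WN X) = ((g.left * fa U X g.right m, g.right • x) :
      FreeGroup X × X) := rfl

/-- the source -/
def sN {X : Type} (w : WN X) : YN X := (id w : FreeGroup X × X).1

/-- the target -/
def tN {X : Type} (w : WN X) : YN X := ((id w : FreeGroup X × X).1 * FreeGroup.of (id w : FreeGroup X × X).2 :
  FreeGroup X)

theorem isCayN : IsCay (FX U X) X (YN X) (WN X) sN tN (Equiv.refl (FreeGroup X))
    (Equiv.refl (FreeGroup X × X)) := by
  refine ⟨fun g w => rfl, ?_, fun w => rfl, fun w => rfl⟩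
  rintro g ⟨m, x⟩
  change g.left * fa U X g.right m * FreeGroup.of (g.right • x) =
    g.left * fa U X g.right (m * FreeGroup.of x)
  rw [map_mul, fa_of, mul_assoc]

/-- finiteness properties of the semidirect product -/
theorem fps_FX {N₀ : Type} [Group N₀] (x₀ : X) (htr : ∀ x : X, ∃ u : U, u • x₀ = x)
    (j : N₀ →* U) (hj : Injective j) (hst : ∀ u : U, u • x₀ = x₀ ↔ u ∈ j.range) {m : ℕ}
    (hU : FPs (ZG U) (m + 1) (Triv U)) (hN : FPs (ZG N₀) m (Triv N₀)) :
    FPs (ZG (FX U X)) (m + 1) (Triv (FX U X)) := by
  refine isCayN.fps ?_ ?_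
  · refine fps_pm (SemidirectProduct.inr : U →* FX U X) SemidirectProduct.inr_injective
      (show YN X from (1 : FreeGroup X)) ?_ ?_ hU
    · intro g
      rw [yn_smul, map_one, mul_one]
      constructor
      · intro h
        refine ⟨g.right, ?_⟩
        refine SemidirectProduct.ext ?_ rfl
        exact h.symm
      · rintro ⟨u, rfl⟩
        rfl
    · intro y
      refine ⟨SemidirectProduct.inl (show FreeGroup X from y), ?_⟩
      rw [yn_smul, map_one, mul_one]
      rfl
  · refine fps_pm ((SemidirectProduct.inr : U →* FX U X).comp j)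
      (SemidirectProduct.inr_injective.comp hj)
      (show WN X from ((1 : FreeGroup X), x₀)) ?_ ?_ hN
    · intro g
      rw [wn_smul, map_one, mul_one]
      constructor
      · intro h
        have h1 : g.left = 1 := congrArg Prod.fst h
        have h2 : g.right • x₀ = x₀ := congrArg Prod.snd h
        obtain ⟨n, hn⟩ := (hst _).1 h2
        refine ⟨n, ?_⟩
        refine SemidirectProduct.ext ?_ ?_
        · exact h1.symm
        · exact hn
      · rintro ⟨n, rfl⟩
        refine Prod.ext rfl ?_
        exact (hst (j n)).2 ⟨n, rfl⟩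
    · rintro ⟨y, x⟩
      obtain ⟨u, hu⟩ := htr x
      refine ⟨SemidirectProduct.mk y u, ?_⟩
      rw [wn_smul, map_one, mul_one]
      exact Prod.ext rfl hu

end defs

section free

variable (S Q : Type) [Group Q]

/-- `F` as a set with an action of `F × Q` -/
def YF : Type := FreeGroup S

instance : MulAction (FreeGroup S × Q) (YF S) where
  smul g m := ((g.1 * (id m : FreeGroup S)) : FreeGroup S)
  one_smul m := one_mul (id m : FreeGroup S)
  mul_smul g h m := mul_assoc g.1 h.1 (id m : FreeGroup S)

variable {S Q}

theorem yf_smul (g : FreeGroup S × Q) (m : FreeGroup S) :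
    (g • (show YF S from m) : YF S) = (g.1 * m : FreeGroup S) := rfl

theorem fps_FQ [Finite S] {m : ℕ} (hQ : FPs (ZG Q) (m + 1) (Triv Q)) :
    FPs (ZG (FreeGroup S × Q)) (m + 1) (Triv (FreeGroup S × Q)) := by
  let _ := prodAct (FreeGroup S × Q) (YF S) S
  have hcay : IsCay (FreeGroup S × Q) S (YF S) (YF S × S) (fun w => w.1)
      (fun w => ((id w.1 : FreeGroup S) * FreeGroup.of w.2 : FreeGroup S))
      (Equiv.refl (FreeGroup S)) (Equiv.refl (FreeGroup S × S)) := by
    refine ⟨fun g w => rfl, ?_, fun w => rfl, fun w => rfl⟩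
    rintro ⟨g, q⟩ ⟨m, x⟩
    exact mul_assoc g (id m : FreeGroup S) (FreeGroup.of x)
  have h1 : ∀ {m : ℕ}, FPs (ZG Q) m (Triv Q) →
      FPs (ZG (FreeGroup S × Q)) m (PM (FreeGroup S × Q) (YF S)) := by
    intro m hm
    refine fps_pm (MonoidHom.inr (FreeGroup S) Q) (fun a b h => congrArg Prod.snd h)
      (show YF S from (1 : FreeGroup S)) ?_ ?_ hm
    · intro g
      rw [yf_smul, mul_one]
      constructor
      · intro h
        exact ⟨g.2, Prod.ext h.symm rfl⟩
      · rintro ⟨u, rfl⟩
        rfl
    · intro y
      refine ⟨((id y : FreeGroup S), 1), ?_⟩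
      rw [yf_smul, mul_one]
      rfl
  exact hcay.fps (h1 hQ) (fps_prod (h1 hQ.mono))

theorem fps_F [Finite S] (m : ℕ) : FPs (ZG (FreeGroup S)) m (Triv (FreeGroup S)) := by
  have key : ∀ m, FPs (ZG (FreeGroup S)) (m + 1) (Triv (FreeGroup S)) := by
    intro m
    let _ := prodAct (FreeGroup S) (FreeGroup S) S
    have hcay : IsCay (FreeGroup S) S (FreeGroup S) (FreeGroup S × S) (fun w => w.1)
        (fun w => w.1 * FreeGroup.of w.2)
        (Equiv.refl (FreeGroup S)) (Equiv.refl (FreeGroup S × S)) := by
      refine ⟨fun g w => rfl, ?_, fun w => rfl, fun w => rfl⟩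
      rintro g ⟨m, x⟩
      exact mul_assoc g m (FreeGroup.of x)
    exact hcay.fps (fps_reg _) (fps_prod (fps_reg _))
  cases m with
  | zero => trivial
  | succ m => exact key m

end free

end Pool.Agent.X261.BB
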