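import Pool.Agent.X261.BB.Words

/-!
# Right-angled Artin groups, normal forms and end letters
-/

set_option autoImplicit false
set_option linter.unusedSectionVars false

namespace Pool.Agent.X261.BB

open scoped commutatorElement

section defs

variable {V : Type} (Γ : SimpleGraph V)

/-- The relators of the right-angled Artin group. -/
def rels : Set (FreeGroup V) :=
  {r | ∃ u v, Γ.Adj u v ∧ r = ⁅FreeGroup.of u, FreeGroup.of v⁆}

/-- The right-angled Artin group of a graph. -/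
abbrev RA : Type := PresentedGroup (rels Γ)

/-- the generator attached to a vertex -/
def gen (v : V) : RA Γ := PresentedGroup.of v

variable {Γ}

theorem gen_comm {u v : V} (h : Γ.Adj u v) : gen Γ u * gen Γ v = gen Γ v * gen Γ u := by
  rw [← commutatorElement_eq_one_iff_mul_comm]
  have := PresentedGroup.one_of_mem (rels := rels Γ)
    (x := ⁅FreeGroup.of u, FreeGroup.of v⁆) ⟨u, v, h, rfl⟩
  rw [map_commutatorElement] at this
  exact this

/-- universal property -/
def rlift {K : Type} [Group K] (f : V → K)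
    (h : ∀ u v, Γ.Adj u v → f u * f v = f v * f u) : RA Γ →* K :=
  PresentedGroup.toGroup (f := f) (by
    rintro r ⟨u, v, huv, rfl⟩
    rw [map_commutatorElement, FreeGroup.lift_apply_of, FreeGroup.lift_apply_of,
      commutatorElement_eq_one_iff_mul_comm]
    exact h u v huv)

@[simp] theorem rlift_gen {K : Type} [Group K] (f : V → K)
    (h : ∀ u v, Γ.Adj u v → f u * f v = f v * f u) (v : V) : rlift f h (gen Γ v) = f v :=
  PresentedGroup.toGroup.of _

theorem ra_ext {K : Type} [Group K] {f g : RA Γ →* K} (h : ∀ v, f (gen Γ v) = g (gen Γ v)) :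
    f = g := PresentedGroup.ext h

theorem ra_ind {p : RA Γ → Prop} (h1 : p 1) (hg : ∀ v z, p z → p (gen Γ v * z))
    (hi : ∀ v z, p z → p ((gen Γ v)⁻¹ * z)) (z : RA Γ) : p z := by
  obtain ⟨w, rfl⟩ := PresentedGroup.mk_surjective (rels Γ) z
  have key : ∀ w : FreeGroup V, ∀ z, p z → p (PresentedGroup.mk (rels Γ) w * z) := by
    intro w
    induction w using FreeGroup.induction_on with
    | C1 => intro z hz; rwa [map_one, one_mul]
    | of v => exact hg v
    | inv_of v _ => exact hi v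
    | mul x y hx hy =>
      intro z hz
      rw [map_mul, mul_assoc]
      exact hx _ (hy _ hz)
  have := key w 1 h1
  rwa [mul_one] at this

/-- the height -/
def chi (Γ : SimpleGraph V) : RA Γ →* Multiplicative ℤ :=
  rlift (fun _ => Multiplicative.ofAdd 1) (fun _ _ _ => rfl)

/-- the height as an integer -/
def ht (z : RA Γ) : ℤ := (chi Γ z).toAdd

@[simp] theorem ht_mul (a b : RA Γ) : ht (a * b) = ht a + ht b := by
  unfold ht
  rw [map_mul, toAdd_mul]

@[simp] theorem ht_one : ht (1 : RA Γ) = 0 := by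
  unfold ht
  rw [map_one, toAdd_one]

@[simp] theorem ht_inv (a : RA Γ) : ht a⁻¹ = - ht a := by
  unfold ht
  rw [map_inv, toAdd_inv]

@[simp] theorem ht_gen (v : V) : ht (gen Γ v) = 1 := by
  unfold ht chi
  rw [rlift_gen, toAdd_ofAdd]

theorem ht_pow (a : RA Γ) (n : ℕ) : ht (a ^ n) = n * ht a := by
  induction n with
  | zero => simp
  | succ n ih =>
    rw [pow_succ, ht_mul, ih]
    push_cast
    ring

end defs

section nf

variable {V : Type} [DecidableEq V] (Γ : SimpleGraph V) [DecidableRel Γ.Adj]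

/-- equality up to commutations, on reduced words -/
def rset : Setoid {w : List (V × Bool) // Red Γ w} where
  r a b := Eqv Γ a.1 b.1
  iseqv := ⟨fun _ => Eqv.refl _, fun h => h.symm, fun h h' => h.trans h'⟩

/-- normal forms -/
def MM : Type := Quotient (rset Γ)

/-- the class of a reduced word -/
def mk (w : List (V × Bool)) (h : Red Γ w) : MM Γ := Quotient.mk (rset Γ) ⟨w, h⟩

theorem mk_eq {w w' : List (V × Bool)} {h : Red Γ w} {h' : Red Γ w'} (e : Eqv Γ w w') :
    mk Γ w h = mk Γ w' h' := Quotient.sound (s := rset Γ) e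

theorem mm_rep (m : MM Γ) : ∃ w hw, m = mk Γ w hw := by
  induction m using Quotient.inductionOn with
  | h w => exact ⟨w.1, w.2, rfl⟩

/-- the action of a letter -/
def actM (s : V × Bool) : MM Γ → MM Γ :=
  Quotient.map (fun w => ⟨actL Γ s w.1, Red.act Γ s w.2⟩) (fun _ _ h => actL_eqv Γ s h)

theorem actM_mk (s : V × Bool) (w : List (V × Bool)) (h : Red Γ w) :
    actM Γ s (mk Γ w h) = mk Γ (actL Γ s w) (Red.act Γ s h) := rfl

theorem actM_inv (s : V × Bool) (m : MM Γ) : actM Γ (li s) (actM Γ s m) = m := by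
  obtain ⟨w, hw, rfl⟩ := mm_rep Γ m
  exact mk_eq Γ (actL_inv Γ s hw)

/-- the permutation given by a letter -/
def actP (s : V × Bool) : Equiv.Perm (MM Γ) where
  toFun := actM Γ s
  invFun := actM Γ (li s)
  left_inv := actM_inv Γ s
  right_inv m := by
    have := actM_inv Γ (li s) m
    rwa [li_li] at this

/-- the permutation representation -/
def psi : RA Γ →* Equiv.Perm (MM Γ) :=
  rlift (fun v => actP Γ (v, true)) (by
    intro u v huv
    ext m
    obtain ⟨w, hw, rfl⟩ := mm_rep Γ m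
    exact mk_eq Γ (actL_comm Γ (s := (u, true)) (t := (v, true)) huv w))

theorem psi_gen (v : V) (m : MM Γ) : psi Γ (gen Γ v) m = actM Γ (v, true) m := by
  unfold psi
  rw [rlift_gen]
  rfl

theorem psi_inv (v : V) (m : MM Γ) : psi Γ (gen Γ v)⁻¹ m = actM Γ (v, false) m := by
  rw [map_inv]
  unfold psi
  rw [rlift_gen]
  rfl

/-- the normal form of an element -/
def nf (z : RA Γ) : MM Γ := psi Γ z (mk Γ [] trivial)

theorem nf_gen (v : V) (z : RA Γ) : nf Γ (gen Γ v * z) = actM Γ (v, true) (nf Γ z) := by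
  unfold nf
  rw [map_mul, Equiv.Perm.mul_apply, psi_gen]

theorem nf_inv (v : V) (z : RA Γ) : nf Γ ((gen Γ v)⁻¹ * z) = actM Γ (v, false) (nf Γ z) := by
  unfold nf
  rw [map_mul, Equiv.Perm.mul_apply, psi_inv]

/-- end letters of a normal form -/
def EnM (m : MM Γ) (s : V × Bool) : Prop :=
  Quotient.liftOn m (fun w => En Γ w.1 s) (fun _ _ h =>
    propext ⟨fun hs => hs.eqv Γ h, fun hs => hs.eqv Γ h.symm⟩)

theorem enM_mk (w : List (V × Bool)) (h : Red Γ w) (s : V × Bool) :
    EnM Γ (mk Γ w h) s ↔ En Γ w s := Iff.rfl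

theorem EnM.adj {m : MM Γ} {s t : V × Bool} (hs : EnM Γ m s) (ht : EnM Γ m t) (hst : s ≠ t) :
    Γ.Adj s.1 t.1 := by
  obtain ⟨w, hw, rfl⟩ := mm_rep Γ m
  exact En.adj Γ hs ht hst

/-- the sign of a letter -/
def lsgn (s : V × Bool) : ℤ := if s.2 then 1 else -1

theorem lsgn_li (s : V × Bool) : lsgn (li s) = - lsgn s := by
  unfold lsgn li
  cases s.2 <;> simp

/-- the height of a word -/
def wht (w : List (V × Bool)) : ℤ := (w.map lsgn).sum

theorem wht_cons (s : V × Bool) (w : List (V × Bool)) : wht (s :: w) = lsgn s + wht w := by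
  simp [wht]

theorem wht_eqv {w w' : List (V × Bool)} (h : Eqv Γ w w') : wht w = wht w' := by
  induction h with
  | refl w => rfl
  | swap a b w _ => simp only [wht_cons]; ring
  | cons a _ ih => simp only [wht_cons, ih]
  | trans _ _ ih1 ih2 => exact ih1.trans ih2

theorem wht_actL (s : V × Bool) (w : List (V × Bool)) : wht (actL Γ s w) = lsgn s + wht w := by
  cases hd : del Γ (li s) w with
  | none => rw [actL_none Γ hd, wht_cons]
  | some u =>
    rw [actL_some Γ hd, wht_eqv Γ (eqv_of_del Γ hd), wht_cons, lsgn_li]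
    ring

/-- the height of a normal form -/
def mht (m : MM Γ) : ℤ := Quotient.liftOn m (fun w => wht w.1) (fun _ _ h => wht_eqv Γ h)

theorem mht_actM (s : V × Bool) (m : MM Γ) : mht Γ (actM Γ s m) = lsgn s + mht Γ m := by
  obtain ⟨w, hw, rfl⟩ := mm_rep Γ m
  exact wht_actL Γ s w

theorem mht_nf (z : RA Γ) : mht Γ (nf Γ z) = ht z := by
  refine ra_ind (p := fun z => mht Γ (nf Γ z) = ht z) ?_ ?_ ?_ z
  · unfold nf
    rw [map_one, ht_one]
    rfl
  · intro v z hz
    rw [nf_gen, mht_actM, hz, ht_mul, ht_gen]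
    rfl
  · intro v z hz
    rw [nf_inv, mht_actM, hz, ht_mul, ht_inv, ht_gen]
    rfl

theorem exists_enM {m : MM Γ} (h : mht Γ m ≠ 0) : ∃ s, EnM Γ m s := by
  obtain ⟨w, hw, rfl⟩ := mm_rep Γ m
  apply exists_en Γ
  rintro rfl
  exact h rfl

open Classical in
/-- an end vertex -/
noncomputable def pv (v₀ : V) (z : RA Γ) : V :=
  if h : ∃ s, EnM Γ (nf Γ z) s then h.choose.1 else v₀

theorem pv_spec (v₀ : V) {z : RA Γ} (h : ht z ≠ 0) : ∃ s, EnM Γ (nf Γ z) s ∧ pv Γ v₀ z = s.1 := by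
  have h1 : ∃ s, EnM Γ (nf Γ z) s := exists_enM Γ (by rwa [mht_nf])
  refine ⟨h1.choose, h1.choose_spec, ?_⟩
  unfold pv
  rw [dif_pos h1]

/-- adjacent or equal -/
def AE (u v : V) : Prop := u = v ∨ Γ.Adj u v

theorem squareM {u v : V} (h : Γ.Adj u v) (m : MM Γ) :
    ∃ X : V × Bool → Prop, (∀ a b, X a → X b → AE Γ a.1 b.1) ∧
      (∀ a, EnM Γ m a → X a) ∧ (∀ a, EnM Γ (actM Γ (u, true) m) a → X a) ∧
      (∀ a, EnM Γ (actM Γ (v, true) m) a → X a) ∧
      (∀ a, EnM Γ (actM Γ (u, true) (actM Γ (v, true) m)) a → X a) := by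
  obtain ⟨w, hw, rfl⟩ := mm_rep Γ m
  obtain ⟨x, h1, h2, h3, h4⟩ := square Γ (s := (u, true)) (t := (v, true)) h w
  refine ⟨En Γ x, ?_, h1, h2, h3, h4⟩
  intro a b ha hb
  by_cases hab : a = b
  · exact Or.inl (by rw [hab])
  · exact Or.inr (ha.adj Γ hb hab)

/-- the end vertices of the four corners of a square are pairwise adjacent or equal -/
theorem pv_square (v₀ : V) {u v : V} (h : Γ.Adj u v) {z : RA Γ} (hz : 0 < ht z) :
    ∃ X : V → Prop, (∀ a b, X a → X b → AE Γ a b) ∧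
      X (pv Γ v₀ z) ∧ X (pv Γ v₀ (gen Γ u * z)) ∧ X (pv Γ v₀ (gen Γ v * z)) ∧
      X (pv Γ v₀ (gen Γ u * (gen Γ v * z))) := by
  obtain ⟨X, h0, h1, h2, h3, h4⟩ := squareM Γ h (nf Γ z)
  refine ⟨fun a => ∃ s, X s ∧ a = s.1, ?_, ?_, ?_, ?_, ?_⟩
  · rintro a b ⟨s, hs, rfl⟩ ⟨t, ht, rfl⟩
    exact h0 s t hs ht
  · obtain ⟨s, hs, e⟩ := pv_spec Γ v₀ (z := z) (by omega)
    exact ⟨s, h1 s hs, e⟩
  · obtain ⟨s, hs, e⟩ := pv_spec Γ v₀ (z := gen Γ u * z) (by rw [ht_mul, ht_gen]; omega)
    rw [nf_gen] at hs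
    exact ⟨s, h2 s hs, e⟩
  · obtain ⟨s, hs, e⟩ := pv_spec Γ v₀ (z := gen Γ v * z) (by rw [ht_mul, ht_gen]; omega)
    rw [nf_gen] at hs
    exact ⟨s, h3 s hs, e⟩
  · obtain ⟨s, hs, e⟩ := pv_spec Γ v₀ (z := gen Γ u * (gen Γ v * z))
      (by rw [ht_mul, ht_mul, ht_gen, ht_gen]; omega)
    rw [nf_gen, nf_gen] at hs
    exact ⟨s, h4 s hs, e⟩

/-- positive words -/
theorem actL_pos {v : V} {w : List (V × Bool)} (h : ∀ s ∈ w, s.2 = true) :
    actL Γ (v, true) w = (v, true) :: w := by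
  apply actL_none
  cases hd : del Γ (li (v, true)) w with
  | none => rfl
  | some u =>
    have h1 := h _ (mem_of_del Γ hd)
    simp [li] at h1

/-- the normal form of `v ^ k * z` for a positive word -/
theorem nf_pow (v : V) (k : ℕ) (z : RA Γ) (w : List (V × Bool)) (hw : Red Γ w)
    (hz : nf Γ z = mk Γ w hw) (h : ∀ s ∈ w, s.2 = true) :
    ∃ hw', nf Γ (gen Γ v ^ k * z) = mk Γ (List.replicate k (v, true) ++ w) hw' := by
  induction k with
  | zero => exact ⟨hw, by simpa using hz⟩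
  | succ k ih =>
    obtain ⟨hw', h1⟩ := ih
    have h2 : ∀ s ∈ List.replicate k (v, true) ++ w, s.2 = true := by
      intro s hs
      rcases List.mem_append.1 hs with h3 | h3
      · rw [List.eq_of_mem_replicate h3]
      · exact h s h3
    have h3 := actL_pos Γ (v := v) h2
    have h4 : Red Γ (List.replicate (k + 1) (v, true) ++ w) := by
      rw [List.replicate_succ, List.cons_append, ← h3]
      exact Red.act Γ _ hw'
    refine ⟨h4, ?_⟩
    rw [pow_succ', mul_assoc, nf_gen, h1, actM_mk]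
    congr 1

theorem pv_pow (v₀ : V) (u v : V) (k l : ℕ) (h : 0 < k + l) :
    (pv Γ v₀ (gen Γ v ^ k * gen Γ u ^ l) = v ∧ 0 < k) ∨
      (pv Γ v₀ (gen Γ v ^ k * gen Γ u ^ l) = u ∧ 0 < l) := by
  have h0 : nf Γ (1 : RA Γ) = mk Γ [] trivial := by
    unfold nf
    rw [map_one]
    rfl
  obtain ⟨hw1, h1⟩ := nf_pow Γ u l 1 [] trivial h0 (by simp)
  rw [mul_one] at h1
  obtain ⟨hw2, h2⟩ := nf_pow Γ v k _ _ hw1 h1 (by
    intro s hs
    rw [List.append_nil] at hs
    rw [List.eq_of_mem_replicate hs])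
  obtain ⟨s, hs, e⟩ := pv_spec Γ v₀ (z := gen Γ v ^ k * gen Γ u ^ l) (by
    rw [ht_mul, ht_pow, ht_pow, ht_gen, ht_gen]
    omega)
  rw [h2, enM_mk] at hs
  have h3 := hs.mem
  rw [e]
  rcases List.mem_append.1 h3 with h4 | h4
  · have h5 := List.eq_of_mem_replicate h4
    refine Or.inl ⟨by rw [h5], ?_⟩
    by_contra h6
    have h7 : k = 0 := by omega
    subst h7
    simp at h4
  · rw [List.append_nil] at h4
    have h5 := List.eq_of_mem_replicate h4
    refine Or.inr ⟨by rw [h5], ?_⟩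
    by_contra h6
    have h7 : l = 0 := by omega
    subst h7
    simp at h4

end nf

end Pool.Agent.X261.BB
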