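import Pool.Agent.X261.BB.Fox
import Pool.Agent.X261.BB.Raag

/-!
# The cubical chain complex of a right-angled Artin group
-/

set_option autoImplicit false
set_option linter.unusedSectionVars false

namespace Pool.Agent.X261.BB

open Finset

section sgn

variable {V : Type} [LinearOrder V]

/-- the sign of a vertex in a simplex -/
def sgn (v : V) (σ : Finset V) : ℤ := (-1) ^ (σ.filter (· < v)).card

theorem sgn_sq (v : V) (σ : Finset V) : sgn v σ * sgn v σ = 1 := by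
  unfold sgn
  rw [← pow_add, ← two_mul, pow_mul]
  simp

theorem sgn_erase_lt {u v : V} {σ : Finset V} (hu : u ∈ σ) (h : u < v) :
    sgn v (σ.erase u) = - sgn v σ := by
  unfold sgn
  rw [filter_erase]
  have h1 : u ∈ σ.filter (· < v) := mem_filter.2 ⟨hu, h⟩
  have h2 := card_erase_add_one h1
  rw [← h2, pow_succ]
  ring

theorem sgn_erase_not {u v : V} {σ : Finset V} (h : ¬ u < v) :
    sgn v (σ.erase u) = sgn v σ := by
  unfold sgn
  rw [filter_erase, erase_eq_of_notMem]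
  intro h1
  exact h (mem_filter.1 h1).2

theorem sgn_anti {u v : V} {σ : Finset V} (hu : u ∈ σ) (hv : v ∈ σ) (huv : u ≠ v) :
    sgn u σ * sgn v (σ.erase u) = -(sgn v σ * sgn u (σ.erase v)) := by
  rcases lt_or_gt_of_ne huv with h | h
  · rw [sgn_erase_lt hu h, sgn_erase_not (not_lt.2 h.le)]
    ring
  · rw [sgn_erase_lt hv h, sgn_erase_not (not_lt.2 h.le)]
    ring

theorem sgn_insert {u v : V} {σ : Finset V} (h : u < v) : sgn u (insert v σ) = sgn u σ := by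
  unfold sgn
  rw [filter_insert, if_neg (not_lt.2 h.le)]

theorem sgn_insert_self {v : V} {σ : Finset V} (h : ∀ u ∈ σ, u < v) :
    sgn v (insert v σ) = (-1) ^ σ.card := by
  unfold sgn
  rw [filter_insert, if_neg (lt_irrefl v), filter_true_of_mem h]

theorem sum_anti {M : Type} [AddCommGroup M] (σ : Finset V) (f : V → V → M)
    (h : ∀ u ∈ σ, ∀ v ∈ σ, u ≠ v → f u v + f v u = 0) :
    ∑ u ∈ σ, ∑ v ∈ σ.erase u, f u v = 0 := by
  rw [Finset.sum_sigma']
  refine Finset.sum_involution (fun p _ => ⟨p.2, p.1⟩) ?_ ?_ ?_ ?_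
  · rintro ⟨u, v⟩ hp
    simp only [mem_sigma, mem_erase] at hp
    exact h u hp.1 v hp.2.2 (Ne.symm hp.2.1)
  · rintro ⟨u, v⟩ hp _ heq
    simp only [mem_sigma, mem_erase] at hp
    exact hp.2.1 (congrArg Sigma.fst heq)
  · rintro ⟨u, v⟩ hp
    simp only [mem_sigma, mem_erase] at hp ⊢
    exact ⟨hp.2.2, Ne.symm hp.2.1, hp.1⟩
  · rintro ⟨u, v⟩ _
    rfl

end sgn

noncomputable section cub

variable {V : Type} [LinearOrder V] (Γ : SimpleGraph V) [DecidableRel Γ.Adj]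

/-- cubical chains -/
abbrev Ch : Type := (RA Γ × Finset V) →₀ ℤ

variable {Γ}

/-- a cell -/
def ce (g : RA Γ) (σ : Finset V) : Ch Γ := Finsupp.single (g, σ) 1

/-- linear maps out of the chains -/
def cl {M : Type} [AddCommGroup M] (f : RA Γ → Finset V → M) : Ch Γ →ₗ[ℤ] M :=
  Finsupp.linearCombination ℤ (fun c : RA Γ × Finset V => f c.1 c.2)

@[simp] theorem cl_ce {M : Type} [AddCommGroup M] (f : RA Γ → Finset V → M) (g : RA Γ)
    (σ : Finset V) : cl f (ce g σ) = f g σ := by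
  unfold cl ce
  rw [Finsupp.linearCombination_single, one_smul]

/-- chains supported on a set of cells -/
abbrev Sp (Γ : SimpleGraph V) (P : RA Γ → Finset V → Prop) : Submodule ℤ (Ch Γ) :=
  Finsupp.supported ℤ ℤ {c : RA Γ × Finset V | P c.1 c.2}

theorem ce_mem {P : RA Γ → Finset V → Prop} {g : RA Γ} {σ : Finset V} (h : P g σ) :
    ce g σ ∈ Sp Γ P := Finsupp.single_mem_supported ℤ _ h

theorem sp_ind {P : RA Γ → Finset V → Prop} (S : Submodule ℤ (Ch Γ))
    (h : ∀ g σ, P g σ → ce g σ ∈ S) {z : Ch Γ} (hz : z ∈ Sp Γ P) : z ∈ S := by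
  have h1 : Sp Γ P = Submodule.span ℤ ((fun c : RA Γ × Finset V => ce c.1 c.2) ''
      {c | P c.1 c.2}) := by
    unfold Sp
    rw [Finsupp.supported_eq_span_single]
    rfl
  rw [h1] at hz
  refine Submodule.span_induction ?_ S.zero_mem (fun x y _ _ hx hy => S.add_mem hx hy)
    (fun n x _ hx => S.smul_mem n hx) hz
  rintro _ ⟨c, hc, rfl⟩
  exact h c.1 c.2 hc

theorem sp_ext {M : Type} [AddCommGroup M] {P : RA Γ → Finset V → Prop} {f f' : Ch Γ →ₗ[ℤ] M}
    (h : ∀ g σ, P g σ → f (ce g σ) = f' (ce g σ)) {z : Ch Γ} (hz : z ∈ Sp Γ P) : f z = f' z :=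
  sp_ind (LinearMap.eqLocus f f') h hz

theorem sp_map {P P' : RA Γ → Finset V → Prop} {f : Ch Γ →ₗ[ℤ] Ch Γ}
    (h : ∀ g σ, P g σ → f (ce g σ) ∈ Sp Γ P') {z : Ch Γ} (hz : z ∈ Sp Γ P) : f z ∈ Sp Γ P' :=
  sp_ind ((Sp Γ P').comap f) h hz

theorem sp_mono {P P' : RA Γ → Finset V → Prop} (h : ∀ g σ, P g σ → P' g σ) {z : Ch Γ}
    (hz : z ∈ Sp Γ P) : z ∈ Sp Γ P' := Finsupp.supported_mono (fun c hc => h c.1 c.2 hc) hz

theorem sp_top (z : Ch Γ) : z ∈ Sp Γ (fun _ _ => True) := by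
  rw [Finsupp.mem_supported]
  intro c _
  trivial

/-- the boundary -/
def dd' : Ch Γ →ₗ[ℤ] Ch Γ :=
  cl (fun g σ => ∑ v ∈ σ, sgn v σ • (ce (g * gen Γ v) (σ.erase v) - ce g (σ.erase v)))

theorem dd'_ce (g : RA Γ) (σ : Finset V) : dd' (ce g σ) =
    ∑ v ∈ σ, sgn v σ • (ce (g * gen Γ v) (σ.erase v) - ce g (σ.erase v)) := cl_ce _ _ _

/-- clique condition -/
def Cq (Γ : SimpleGraph V) (σ : Finset V) : Prop := ∀ u ∈ σ, ∀ v ∈ σ, u ≠ v → Γ.Adj u v

theorem Cq.sub {σ τ : Finset V} (h : Cq Γ σ) (hτ : τ ⊆ σ) : Cq Γ τ :=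
  fun u hu v hv => h u (hτ hu) v (hτ hv)

theorem dd'_sq_ce {g : RA Γ} {σ : Finset V} (hσ : Cq Γ σ) : dd' (dd' (ce g σ)) = 0 := by
  rw [dd'_ce, map_sum]
  have h1 : ∀ v ∈ σ, dd' (sgn v σ • (ce (g * gen Γ v) (σ.erase v) - ce g (σ.erase v))) =
      ∑ u ∈ σ.erase v, (sgn v σ * sgn u (σ.erase v)) •
        (ce (g * gen Γ v * gen Γ u) ((σ.erase v).erase u) -
          ce (g * gen Γ v) ((σ.erase v).erase u) -
          ce (g * gen Γ u) ((σ.erase v).erase u) + ce g ((σ.erase v).erase u)) := by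
    intro v _
    rw [map_smul, map_sub, dd'_ce, dd'_ce, ← Finset.sum_sub_distrib, Finset.smul_sum]
    refine Finset.sum_congr rfl fun u _ => ?_
    rw [← smul_sub, smul_smul]
    congr 1
    abel
  rw [Finset.sum_congr rfl h1]
  refine sum_anti σ _ ?_
  intro u hu v hv huv
  have h2 : ce (g * gen Γ u * gen Γ v) ((σ.erase u).erase v) -
          ce (g * gen Γ u) ((σ.erase u).erase v) -
          ce (g * gen Γ v) ((σ.erase u).erase v) + ce g ((σ.erase u).erase v) =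
      ce (g * gen Γ v * gen Γ u) ((σ.erase v).erase u) -
          ce (g * gen Γ v) ((σ.erase v).erase u) -
          ce (g * gen Γ u) ((σ.erase v).erase u) + ce g ((σ.erase v).erase u) := by
    rw [erase_right_comm, mul_assoc g (gen Γ u), gen_comm (hσ u hu v hv huv), ← mul_assoc]
    abel
  rw [sgn_anti hu hv huv, h2, neg_smul, neg_add_cancel]

theorem sp_zero {M : Type} [AddCommGroup M] {P : RA Γ → Finset V → Prop} (f : Ch Γ →ₗ[ℤ] M)
    (h : ∀ g σ, P g σ → f (ce g σ) = 0) {z : Ch Γ} (hz : z ∈ Sp Γ P) : f z = 0 :=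
  sp_ind (LinearMap.ker f) (fun g σ hP => LinearMap.mem_ker.2 (h g σ hP)) hz

theorem dd'_sq {z : Ch Γ} (hz : z ∈ Sp Γ (fun _ σ => Cq Γ σ)) : dd' (dd' z) = 0 := by
  have h := sp_zero (dd'.comp dd') (P := fun _ σ => Cq Γ σ) (fun g σ hσ => by
    rw [LinearMap.comp_apply]
    exact dd'_sq_ce hσ) hz
  rwa [LinearMap.comp_apply] at h

end cub

end Pool.Agent.X261.BB
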