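import Pool.Agent.X261.BB.Par

/-!
# Exactness of the cubical chain complex
-/

set_option autoImplicit false
set_option linter.unusedSectionVars false

namespace Pool.Agent.X261.BB

open Finset

noncomputable section ex

variable {V : Type} [LinearOrder V] {Γ : SimpleGraph V} [DecidableRel Γ.Adj]

/-- vertices as chains -/
def e0 : (RA Γ →₀ ℤ) →ₗ[ℤ] Ch Γ := Finsupp.lmapDomain ℤ ℤ (fun g => (g, ∅))

theorem e0_single (g : RA Γ) : e0 (Finsupp.single g (1 : ℤ)) = ce g ∅ := Finsupp.mapDomain_single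

/-- the vertex part of a chain -/
def P0 : Ch Γ →ₗ[ℤ] (RA Γ →₀ ℤ) := cl (fun g σ => if σ = ∅ then Finsupp.single g 1 else 0)

/-- right translation -/
def Rv (v : V) : Ch Γ →ₗ[ℤ] Ch Γ := cl (fun g σ => ce (g * gen Γ v) σ)

/-- adding a vertex -/
def Ev (v : V) : Ch Γ →ₗ[ℤ] Ch Γ := cl (fun g σ => ce g (insert v σ))

/-- removing a vertex -/
def Av (v : V) : Ch Γ →ₗ[ℤ] Ch Γ := cl (fun g σ => if v ∈ σ then ce g (σ.erase v) else 0)

/-- the sign operator -/
def Jm : Ch Γ →ₗ[ℤ] Ch Γ := cl (fun g σ => ((-1 : ℤ) ^ σ.card) • ce g σ)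

/-- right translation of vertices -/
def mulr (v : V) : (RA Γ →₀ ℤ) →ₗ[ℤ] (RA Γ →₀ ℤ) := Finsupp.lmapDomain ℤ ℤ (fun g => g * gen Γ v)

/-- the map to cosets -/
def qK (K : Set V) : (RA Γ →₀ ℤ) →ₗ[ℤ] ((RA Γ ⧸ AK Γ K) →₀ ℤ) :=
  Finsupp.lmapDomain ℤ ℤ (QuotientGroup.mk : RA Γ → RA Γ ⧸ AK Γ K)

theorem qK_single (K : Set V) (g : RA Γ) :
    qK K (Finsupp.single g (1 : ℤ)) = Finsupp.single (QuotientGroup.mk g) 1 :=
  Finsupp.mapDomain_single

theorem mulr_single (v : V) (g : RA Γ) :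
    mulr v (Finsupp.single g (1 : ℤ)) = Finsupp.single (g * gen Γ v) 1 :=
  Finsupp.mapDomain_single

/-- simplices in `K` -/
def PK (Γ : SimpleGraph V) (K : Finset V) (_ : RA Γ) (σ : Finset V) : Prop := σ ⊆ K ∧ Cq Γ σ

/-- nonempty simplices in `K` -/
def PN (Γ : SimpleGraph V) (K : Finset V) (_ : RA Γ) (σ : Finset V) : Prop :=
  σ ⊆ K ∧ Cq Γ σ ∧ σ.Nonempty

theorem dE (v : V) (g : RA Γ) (σ : Finset V) (h : ∀ u ∈ σ, u < v) :
    dd' (ce g (insert v σ)) = Ev v (dd' (ce g σ)) + Jm (Rv v (ce g σ) - ce g σ) := by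
  have hv : v ∉ σ := fun hv => lt_irrefl v (h v hv)
  rw [dd'_ce, dd'_ce, sum_insert hv, erase_insert hv, sgn_insert_self h]
  unfold Ev Jm Rv
  rw [cl_ce, map_sub, cl_ce, cl_ce, map_sum, ← smul_sub, add_comm]
  congr 1
  refine sum_congr rfl fun u hu => ?_
  rw [map_smul, map_sub, cl_ce, cl_ce, sgn_insert (h u hu), erase_insert_of_ne (h u hu).ne']

theorem dE' (v : V) {P : RA Γ → Finset V → Prop} (h : ∀ g σ, P g σ → ∀ u ∈ σ, u < v) {y : Ch Γ}
    (hy : y ∈ Sp Γ P) : dd' (Ev v y) = Ev v (dd' y) + Jm (Rv v y - y) := by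
  have h1 := sp_ext (f := dd' ∘ₗ Ev v) (f' := Ev v ∘ₗ dd' + Jm ∘ₗ (Rv v - LinearMap.id)) (P := P)
    (by
      intro g σ hP
      rw [LinearMap.comp_apply, LinearMap.add_apply, LinearMap.comp_apply, LinearMap.comp_apply,
        LinearMap.sub_apply, LinearMap.id_apply, ← dE v g σ (h g σ hP)]
      unfold Ev
      rw [cl_ce]) hy
  rw [LinearMap.comp_apply, LinearMap.add_apply, LinearMap.comp_apply, LinearMap.comp_apply,
    LinearMap.sub_apply, LinearMap.id_apply] at h1
  exact h1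

/-- the degree zero part of the theorem -/
theorem claim0 (K : Finset V) (y : RA Γ →₀ ℤ) (h : qK (K : Set V) y = 0) :
    ∃ w ∈ Sp Γ (fun _ σ => σ ⊆ K ∧ σ.card = 1), dd' w = e0 y := by
  set B : Submodule ℤ (Ch Γ) := (Sp Γ (fun _ σ => σ ⊆ K ∧ σ.card = 1)).map dd' with hB
  have h1 : ∀ k ∈ AK Γ (K : Set V), ∀ g : RA Γ, ce (g * k) ∅ - ce g ∅ ∈ B := by
    intro k hk
    refine Subgroup.closure_induction ?_ ?_ ?_ ?_ hk
    · rintro _ ⟨v, hv, rfl⟩ g
      refine ⟨ce g {v}, ce_mem ⟨by simpa using hv, by simp⟩, ?_⟩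
      have h5 : sgn v {v} = 1 := by
        unfold sgn
        rw [filter_singleton, if_neg (lt_irrefl v), card_empty, pow_zero]
      rw [dd'_ce, sum_singleton, h5, one_smul, ← insert_empty_eq v,
        erase_insert (notMem_empty v)]
    · intro g
      rw [mul_one, sub_self]
      exact B.zero_mem
    · intro a b _ _ ha hb g
      have h2 := B.add_mem (hb (g * a)) (ha g)
      rwa [sub_add_sub_cancel, mul_assoc] at h2
    · intro a _ ha g
      have h2 := B.neg_mem (ha (g * a⁻¹))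
      rwa [neg_sub, inv_mul_cancel_right] at h2
  have h2 : ∀ y : RA Γ →₀ ℤ, e0 y - e0 (Finsupp.mapDomain Quotient.out (qK (K : Set V) y)) ∈ B := by
    intro y
    induction y using Finsupp.induction_linear with
    | zero =>
      rw [map_zero, map_zero, Finsupp.mapDomain_zero, map_zero, sub_zero]
      exact B.zero_mem
    | add a b ha hb =>
      have h3 := B.add_mem ha hb
      rw [map_add, map_add, Finsupp.mapDomain_add, map_add]
      have h4 : e0 a + e0 b - (e0 (Finsupp.mapDomain Quotient.out (qK (K : Set V) a)) +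
          e0 (Finsupp.mapDomain Quotient.out (qK (K : Set V) b))) =
          e0 a - e0 (Finsupp.mapDomain Quotient.out (qK (K : Set V) a)) +
          (e0 b - e0 (Finsupp.mapDomain Quotient.out (qK (K : Set V) b))) := by abel
      rw [h4]
      exact h3
    | single g n =>
      have h3 : (Finsupp.single g n : RA Γ →₀ ℤ) = n • Finsupp.single g 1 := by
        rw [Finsupp.smul_single, smul_eq_mul, mul_one]
      rw [h3, map_smul, map_smul, Finsupp.mapDomain_smul, map_smul, ← smul_sub]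
      apply B.smul_mem
      rw [qK_single, Finsupp.mapDomain_single, e0_single, e0_single]
      obtain ⟨k, hk⟩ := QuotientGroup.mk_out_eq_mul (AK Γ (K : Set V)) g
      rw [hk]
      have h4 := B.neg_mem (h1 k k.2 g)
      rwa [neg_sub] at h4
  have h3 := h2 y
  rw [h, Finsupp.mapDomain_zero, map_zero, sub_zero] at h3
  obtain ⟨w, hw, hw'⟩ := h3
  exact ⟨w, hw, hw'⟩

theorem Av_zero (v : V) {P : RA Γ → Finset V → Prop} (h : ∀ g σ, P g σ → v ∉ σ) {y : Ch Γ}
    (hy : y ∈ Sp Γ P) : Av v y = 0 :=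
  sp_zero (Av v) (fun g σ hP => by
    unfold Av
    rw [cl_ce, if_neg (h g σ hP)]) hy

theorem Av_Ev (v : V) {P : RA Γ → Finset V → Prop} (h : ∀ g σ, P g σ → v ∉ σ) {y : Ch Γ}
    (hy : y ∈ Sp Γ P) : Av v (Ev v y) = y := by
  have h1 := sp_ext (f := Av v ∘ₗ Ev v) (f' := LinearMap.id) (P := P) (by
    intro g σ hP
    rw [LinearMap.comp_apply, LinearMap.id_apply]
    unfold Av Ev
    rw [cl_ce, cl_ce, if_pos (mem_insert_self v σ), erase_insert (h g σ hP)]) hy
  rwa [LinearMap.comp_apply, LinearMap.id_apply] at h1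

theorem dd'_mem {P P' : RA Γ → Finset V → Prop}
    (h : ∀ g σ, P g σ → ∀ u ∈ σ, P' (g * gen Γ u) (σ.erase u) ∧ P' g (σ.erase u)) {y : Ch Γ}
    (hy : y ∈ Sp Γ P) : dd' y ∈ Sp Γ P' := by
  refine sp_map (f := dd') ?_ hy
  intro g σ hP
  rw [dd'_ce]
  refine Submodule.sum_mem _ fun u hu => Submodule.smul_mem _ _ (Submodule.sub_mem _ ?_ ?_)
  · exact ce_mem (h g σ hP u hu).1
  · exact ce_mem (h g σ hP u hu).2

theorem Jm_mem {P : RA Γ → Finset V → Prop} {y : Ch Γ} (hy : y ∈ Sp Γ P) : Jm y ∈ Sp Γ P := by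
  refine sp_map (f := Jm) ?_ hy
  intro g σ hP
  unfold Jm
  rw [cl_ce]
  exact Submodule.smul_mem _ _ (ce_mem hP)

theorem Rv_mem (v : V) {P P' : RA Γ → Finset V → Prop} (h : ∀ g σ, P g σ → P' (g * gen Γ v) σ)
    {y : Ch Γ} (hy : y ∈ Sp Γ P) : Rv v y ∈ Sp Γ P' := by
  refine sp_map (f := Rv v) ?_ hy
  intro g σ hP
  unfold Rv
  rw [cl_ce]
  exact ce_mem (h g σ hP)

theorem Ev_mem (v : V) {P P' : RA Γ → Finset V → Prop} (h : ∀ g σ, P g σ → P' g (insert v σ))
    {y : Ch Γ} (hy : y ∈ Sp Γ P) : Ev v y ∈ Sp Γ P' := by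
  refine sp_map (f := Ev v) ?_ hy
  intro g σ hP
  unfold Ev
  rw [cl_ce]
  exact ce_mem (h g σ hP)

theorem P0_J_R (v : V) (y : Ch Γ) : P0 (Jm (Rv v y - y)) = mulr v (P0 y) - P0 y := by
  have h1 := sp_ext (f := P0 ∘ₗ Jm ∘ₗ (Rv v - LinearMap.id)) (f' := mulr v ∘ₗ P0 - P0)
    (P := fun _ _ => True) (by
    intro g σ _
    rw [LinearMap.comp_apply, LinearMap.comp_apply, LinearMap.sub_apply, LinearMap.sub_apply,
      LinearMap.id_apply, LinearMap.comp_apply]
    unfold P0 Jm Rv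
    rw [cl_ce, cl_ce, map_sub, cl_ce, cl_ce, map_sub, map_smul, map_smul, cl_ce, cl_ce]
    by_cases hσ : σ = ∅
    · subst hσ
      simp only [if_true, card_empty, pow_zero, one_smul]
      rw [mulr_single]
    · simp only [if_neg hσ, smul_zero, map_zero]) (sp_top y)
  rwa [LinearMap.comp_apply, LinearMap.comp_apply, LinearMap.sub_apply, LinearMap.sub_apply,
      LinearMap.id_apply, LinearMap.comp_apply] at h1

theorem q_P0_d (K : Finset V) {x : Ch Γ} (hx : x ∈ Sp Γ (PN Γ K)) :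
    qK (K : Set V) (P0 (dd' x)) = 0 := by
  have h1 := sp_zero (qK (K : Set V) ∘ₗ P0 ∘ₗ dd') (P := PN Γ K) (by
    rintro g σ ⟨hσ, _, _⟩
    rw [LinearMap.comp_apply, LinearMap.comp_apply, dd'_ce, map_sum, map_sum]
    refine sum_eq_zero fun u hu => ?_
    rw [map_smul, map_smul, map_sub, map_sub]
    unfold P0
    rw [cl_ce, cl_ce]
    by_cases h : σ.erase u = ∅
    · rw [if_pos h, if_pos h, qK_single, qK_single,
        QuotientGroup.mk_mul_of_mem g (gen_mem_AK Γ (by exact_mod_cast hσ hu)), sub_self, smul_zero]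
    · rw [if_neg h, if_neg h, sub_self, smul_zero]) hx
  rwa [LinearMap.comp_apply, LinearMap.comp_apply] at h1

/-- **Exactness of the cubical complex.** -/
theorem exact_main (K : Finset V) : ∀ z ∈ Sp Γ (PN Γ K), dd' z = 0 →
    ∃ w ∈ Sp Γ (PN Γ K), dd' w = z := by
  induction K using Finset.strongInduction with
  | H K ih =>
    intro z hz hdz
    rcases K.eq_empty_or_nonempty with hK | hK
    · subst hK
      refine ⟨0, Submodule.zero_mem _, ?_⟩
      rw [map_zero]
      have := sp_zero (LinearMap.id) (P := PN Γ ∅) (by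
        rintro g σ ⟨h1, _, h2⟩
        rw [subset_empty] at h1
        subst h1
        simp at h2) hz
      rw [LinearMap.id_apply] at this
      exact this.symm
    set v := K.max' hK with hv
    have hvK : v ∈ K := K.max'_mem hK
    set K' := K.erase v with hK'
    set K'' := K'.filter (fun u => Γ.Adj v u) with hK''
    have hK'K : K' ⊂ K := erase_ssubset hvK
    have hK''K' : K'' ⊆ K' := filter_subset _ _
    have hK''K : K'' ⊂ K := lt_of_le_of_lt hK''K' hK'K
    have hltK' : ∀ u ∈ K', u < v := by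
      intro u hu
      rw [hK', mem_erase] at hu
      exact lt_of_le_of_ne (K.le_max' u hu.2) hu.1
    have hvK' : v ∉ K' := by simp [hK']
    -- the decomposition
    set y := Av v z with hy
    have hyS : y ∈ Sp Γ (PK Γ K'') := by
      refine sp_map (f := Av v) ?_ hz
      rintro g σ ⟨h1, h2, h3⟩
      unfold Av
      rw [cl_ce]
      split_ifs with h
      · refine ce_mem ⟨?_, h2.sub (erase_subset _ _)⟩
        intro u hu
        rw [mem_erase] at hu
        exact mem_filter.2 ⟨mem_erase.2 ⟨hu.1, h1 hu.2⟩, h2 v h u hu.2 (Ne.symm hu.1)⟩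
      · exact Submodule.zero_mem _
    set x := z - Ev v y with hx
    have hxS : x ∈ Sp Γ (PN Γ K') := by
      have h1 := sp_map (f := LinearMap.id - Ev v ∘ₗ Av v) (P := PN Γ K) (P' := PN Γ K') (by
        rintro g σ ⟨h1, h2, h3⟩
        rw [LinearMap.sub_apply, LinearMap.comp_apply, LinearMap.id_apply]
        unfold Av Ev
        rw [cl_ce]
        split_ifs with h
        · rw [cl_ce, insert_erase h, sub_self]
          exact Submodule.zero_mem _
        · rw [map_zero, sub_zero]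
          refine ce_mem ⟨?_, h2, h3⟩
          intro u hu
          exact mem_erase.2 ⟨fun h4 => h (h4 ▸ hu), h1 hu⟩) hz
      rwa [LinearMap.sub_apply, LinearMap.comp_apply, LinearMap.id_apply] at h1
    have hzx : z = x + Ev v y := by rw [hx, sub_add_cancel]
    have hltP : ∀ (g : RA Γ) (σ : Finset V), PK Γ K'' g σ → ∀ u ∈ σ, u < v :=
      fun g σ h u hu => hltK' u (hK''K' (h.1 hu))
    have hnP : ∀ (g : RA Γ) (σ : Finset V), PK Γ K'' g σ → v ∉ σ :=
      fun g σ h hu => hvK' (hK''K' (h.1 hu))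
    have hdEy : dd' (Ev v y) = Ev v (dd' y) + Jm (Rv v y - y) := dE' v hltP hyS
    have hdyS : dd' y ∈ Sp Γ (PK Γ K'') := by
      refine dd'_mem ?_ hyS
      rintro g σ ⟨h1, h2⟩ u hu
      exact ⟨⟨(erase_subset _ _).trans h1, h2.sub (erase_subset _ _)⟩,
        ⟨(erase_subset _ _).trans h1, h2.sub (erase_subset _ _)⟩⟩
    have hJS : Jm (Rv v y - y) ∈ Sp Γ (PK Γ K'') :=
      Jm_mem (Submodule.sub_mem _ (Rv_mem v (fun g σ h => h) hyS) hyS)
    have hdxS : dd' x ∈ Sp Γ (fun _ σ => v ∉ σ) := by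
      refine dd'_mem ?_ hxS
      rintro g σ ⟨h1, _, _⟩ u hu
      have h2 : v ∉ σ.erase u := fun h3 => hvK' (h1 (erase_subset _ _ h3))
      exact ⟨h2, h2⟩
    have hdz' : dd' x + (Ev v (dd' y) + Jm (Rv v y - y)) = 0 := by
      rw [← hdEy, ← map_add, ← hzx, hdz]
    have hdy : dd' y = 0 := by
      have h1 := congrArg (Av v) hdz'
      rw [map_add, map_add, map_zero, Av_zero v (fun _ _ h => h) hdxS, Av_Ev v hnP hdyS,
        Av_zero v hnP hJS, zero_add, add_zero] at h1
      exact h1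
    have hdx : dd' x = - Jm (Rv v y - y) := by
      rw [hdy, map_zero, zero_add] at hdz'
      exact eq_neg_of_add_eq_zero_left hdz'
    -- the vertex part of `y`
    have hq : qK (K' : Set V) (mulr v (P0 y)) = qK (K' : Set V) (P0 y) := by
      have h1 := q_P0_d K' hxS
      rw [hdx, map_neg, P0_J_R, map_neg, neg_eq_zero, map_sub, sub_eq_zero] at h1
      exact h1
    have hkill := kill Γ (v := v) (K := (K' : Set V)) (by exact_mod_cast hvK') (P0 y) hq
    have hset : ({u | Γ.Adj v u} ∩ (K' : Set V) : Set V) = (K'' : Set V) := by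
      ext u
      simp only [hK'', Set.mem_inter_iff, coe_filter, Set.mem_ofPred_eq, mem_coe]
      exact and_comm
    rw [hset] at hkill
    obtain ⟨w0, hw0, hdw0⟩ := claim0 K'' (P0 y) hkill
    have hw0' : w0 ∈ Sp Γ (PN Γ K'') := by
      refine sp_mono ?_ hw0
      rintro g σ ⟨h1, h2⟩
      refine ⟨h1, ?_, card_pos.1 (by omega)⟩
      obtain ⟨a, rfl⟩ := card_eq_one.1 h2
      intro u hu u' hu' hne
      rw [mem_singleton] at hu hu'
      exact absurd (hu.trans hu'.symm) hne
    -- the rest of `y`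
    have hy1S : y - e0 (P0 y) ∈ Sp Γ (PN Γ K'') := by
      have h1 := sp_map (f := LinearMap.id - e0 ∘ₗ P0) (P := PK Γ K'') (P' := PN Γ K'') (by
        rintro g σ ⟨h1, h2⟩
        rw [LinearMap.sub_apply, LinearMap.comp_apply, LinearMap.id_apply]
        unfold P0
        rw [cl_ce]
        split_ifs with h
        · subst h
          rw [e0_single, sub_self]
          exact Submodule.zero_mem _
        · rw [map_zero, sub_zero]
          exact ce_mem ⟨h1, h2, nonempty_iff_ne_empty.2 h⟩) hyS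
      rwa [LinearMap.sub_apply, LinearMap.comp_apply, LinearMap.id_apply] at h1
    have hde0 : dd' (e0 (P0 y)) = 0 := by
      have h1 := sp_zero (dd' ∘ₗ e0 ∘ₗ P0) (P := fun _ _ => True) (by
        intro g σ _
        rw [LinearMap.comp_apply, LinearMap.comp_apply]
        unfold P0
        rw [cl_ce]
        split_ifs with h
        · rw [e0_single, dd'_ce, sum_empty]
        · rw [map_zero, map_zero]) (sp_top y)
      rwa [LinearMap.comp_apply, LinearMap.comp_apply] at h1
    obtain ⟨w1, hw1, hdw1⟩ := ih K'' hK''K _ hy1S (by rw [map_sub, hdy, hde0, sub_zero])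
    set w := w0 + w1 with hw
    have hwS : w ∈ Sp Γ (PN Γ K'') := Submodule.add_mem _ hw0' hw1
    have hdw : dd' w = y := by rw [hw, map_add, hdw0, hdw1, add_sub_cancel]
    have hEwS : Ev v w ∈ Sp Γ (PN Γ K) := by
      refine Ev_mem v ?_ hwS
      rintro g σ ⟨h1, h2, h3⟩
      refine ⟨?_, ?_, insert_nonempty _ _⟩
      · intro u hu
        rw [mem_insert] at hu
        rcases hu with rfl | hu
        · exact hvK
        · exact hK'K.1 (hK''K' (h1 hu))
      · intro a ha b hb hab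
        rw [mem_insert] at ha hb
        rcases ha with rfl | ha
        · rcases hb with rfl | hb
          · exact absurd rfl hab
          · exact (mem_filter.1 (h1 hb)).2
        · rcases hb with rfl | hb
          · exact (mem_filter.1 (h1 ha)).2.symm
          · exact h2 a ha b hb hab
    have hdEw : dd' (Ev v w) = Ev v y + Jm (Rv v w - w) := by
      rw [dE' v (P := PN Γ K'') (fun g σ h => hltP g σ ⟨h.1, h.2.1⟩) hwS, hdw]
    have hz'S : z - dd' (Ev v w) ∈ Sp Γ (PN Γ K') := by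
      have h1 : z - dd' (Ev v w) = x - Jm (Rv v w - w) := by
        rw [hdEw, hzx]
        abel
      rw [h1]
      refine Submodule.sub_mem _ hxS (Jm_mem ?_)
      refine sp_mono (P := PN Γ K'') (fun g σ h => ⟨h.1.trans hK''K', h.2⟩) ?_
      exact Submodule.sub_mem _ (Rv_mem v (fun g σ h => h) hwS) hwS
    obtain ⟨w', hw', hdw'⟩ := ih K' hK'K _ hz'S (by
      rw [map_sub, hdz, dd'_sq (sp_mono (fun g σ h => h.2.1) hEwS), sub_zero])
    refine ⟨w' + Ev v w, Submodule.add_mem _ ?_ hEwS, ?_⟩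
    · exact sp_mono (fun g σ h => ⟨h.1.trans hK'K.1, h.2⟩) hw'
    · rw [map_add, hdw', sub_add_cancel]

end ex

end Pool.Agent.X261.BB
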