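import Pool.Agent.X261.BB.PM

/-!
# Crossed homomorphisms and the tree of a free group
-/

set_option autoImplicit false
set_option linter.unusedSectionVars false

namespace Pool.Agent.X261.BB

open Pool.Agent.W386 Function

/-- The semidirect product of a module and a group. -/
@[ext] structure Sd (G M : Type) where
  /-- translation part -/
  m : M
  /-- group part -/
  g : G

noncomputable section

variable {G M : Type} [Group G] [AddCommGroup M] [Module (ZG G) M]

instance : Mul (Sd G M) := ⟨fun x y => ⟨x.m + act x.g y.m, x.g * y.g⟩⟩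
instance : One (Sd G M) := ⟨⟨0, 1⟩⟩
instance : Inv (Sd G M) := ⟨fun x => ⟨-act x.g⁻¹ x.m, x.g⁻¹⟩⟩

theorem Sd.mul_m (x y : Sd G M) : (x * y).m = x.m + act x.g y.m := rfl
theorem Sd.mul_g (x y : Sd G M) : (x * y).g = x.g * y.g := rfl
theorem Sd.one_m : (1 : Sd G M).m = 0 := rfl
theorem Sd.one_g : (1 : Sd G M).g = 1 := rfl

instance : Group (Sd G M) :=
  Group.ofLeftAxioms
    (by
      intro x y z
      apply Sd.ext
      · simp only [Sd.mul_m, Sd.mul_g]
        rw [act_mul, act_add, add_assoc]
      · simp only [Sd.mul_g, mul_assoc])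
    (by
      intro x
      apply Sd.ext
      · simp only [Sd.mul_m, Sd.one_m, Sd.one_g]
        rw [act_one, zero_add]
      · simp only [Sd.mul_g, Sd.one_g, one_mul])
    (by
      intro x
      apply Sd.ext
      · change -act x.g⁻¹ x.m + act x.g⁻¹ x.m = 0
        exact neg_add_cancel _
      · change x.g⁻¹ * x.g = 1
        exact inv_mul_cancel _)

/-- the projection to the group -/
def Sd.pr : Sd G M →* G where
  toFun := Sd.g
  map_one' := rfl
  map_mul' _ _ := rfl

/-- a homomorphism to `Sd` lifting the identity is a crossed homomorphism -/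
theorem der_of_hom (φ : G →* Sd G M) (h : ∀ g, (φ g).g = g) :
    (φ 1).m = 0 ∧ ∀ a b, (φ (a * b)).m = (φ a).m + act a (φ b).m := by
  refine ⟨by rw [map_one, Sd.one_m], fun a b => ?_⟩
  rw [map_mul, Sd.mul_m, h]

theorem exists_der_free {X : Type} {M : Type} [AddCommGroup M] [Module (ZG (FreeGroup X)) M]
    (δ : X → M) : ∃ D : FreeGroup X → M, D 1 = 0 ∧ (∀ a b, D (a * b) = D a + act a (D b)) ∧
      ∀ x, D (FreeGroup.of x) = δ x := by
  let φ : FreeGroup X →* Sd (FreeGroup X) M := FreeGroup.lift (fun x => ⟨δ x, FreeGroup.of x⟩)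
  have h : ∀ g, (φ g).g = g := by
    intro g
    have : Sd.pr.comp φ = MonoidHom.id _ := by
      ext x
      simp only [MonoidHom.comp_apply, MonoidHom.id_apply, φ, FreeGroup.lift_apply_of]
      rfl
    exact DFunLike.congr_fun this g
  obtain ⟨h1, h2⟩ := der_of_hom φ h
  refine ⟨fun g => (φ g).m, h1, h2, fun x => ?_⟩
  simp only [φ, FreeGroup.lift_apply_of]

/-- A `G`-graph isomorphic to the Cayley tree of a free group. -/
structure IsCay (G X Y W : Type) [Group G] [MulAction G Y] [MulAction G W] (s t : W → Y)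
    (eY : Y ≃ FreeGroup X) (eW : W ≃ FreeGroup X × X) : Prop where
  s_equi : ∀ (g : G) w, s (g • w) = g • s w
  t_equi : ∀ (g : G) w, t (g • w) = g • t w
  hs : ∀ w, eY (s w) = (eW w).1
  ht : ∀ w, eY (t w) = (eW w).1 * FreeGroup.of (eW w).2

variable {X Y W : Type} [MulAction G Y] [MulAction G W] {s t : W → Y}
    {eY : Y ≃ FreeGroup X} {eW : W ≃ FreeGroup X × X}

/-- the boundary map -/
def IsCay.bd (h : IsCay G X Y W s t eY eW) : PM G W →ₗ[ZG G] PM G Y :=
  pmLin (fun w => sg G (t w) 1 - sg G (s w) 1) (by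
    intro g w
    rw [act_sub, act_sg, act_sg, h.s_equi, h.t_equi])

theorem IsCay.bd_sg (h : IsCay G X Y W s t eY eW) (w : W) :
    h.bd (sg G w 1) = sg G (t w) 1 - sg G (s w) 1 := pmLin_one _ _ _

theorem IsCay.inj (h : IsCay G X Y W s t eY eW) : Injective h.bd := by
  let _ := prodAct (FreeGroup X) (FreeGroup X) X
  obtain ⟨D, hD1, hD2, hD3⟩ := exists_der_free (X := X)
    (M := PM (FreeGroup X) (FreeGroup X × X)) (fun x => sg (FreeGroup X) ((1, x)) 1)
  let T : PM (FreeGroup X) (FreeGroup X × X) →+ PM G W := pmLift (fun p => sg G (eW.symm p) 1)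
  let L : PM G Y →+ PM G W := pmLift (fun y => T (D (eY y)))
  have hL : ∀ a, L (h.bd a) = a := by
    intro a
    have : (L.comp h.bd.toAddMonoidHom : PM G W →+ PM G W) = AddMonoidHom.id _ := by
      apply pm_ext
      intro w n
      have h1 : L (h.bd (sg G w n)) = sg G w n := by
        rw [sg_zsmul, map_zsmul, map_zsmul, h.bd_sg, map_sub]
        congr 1
        rw [pmLift_sg, pmLift_sg, one_zsmul, one_zsmul, h.hs, h.ht, hD2, hD3, map_add,
          add_sub_cancel_left, act_sg]
        have h2 : ((eW w).1 • ((1 : FreeGroup X), (eW w).2) : FreeGroup X × X) = eW w := by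
          change ((eW w).1 * 1, (eW w).2) = eW w
          rw [mul_one]
        rw [h2, pmLift_sg, one_zsmul, Equiv.symm_apply_apply]
      exact h1
    exact DFunLike.congr_fun this a
  intro a b hab
  rw [← hL a, ← hL b, hab]

theorem IsCay.range (h : IsCay G X Y W s t eY eW) :
    LinearMap.range h.bd = LinearMap.ker (pmAug G Y) := by
  apply le_antisymm
  · rintro _ ⟨a, rfl⟩
    rw [LinearMap.mem_ker]
    refine lin_ext (f := (pmAug G Y).comp h.bd) (g := 0) ?_ a
    intro w
    rw [LinearMap.comp_apply, h.bd_sg, map_sub, pmAug_sg, pmAug_sg, sub_self]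
    rfl
  · have key : ∀ m k : FreeGroup X, sg G (eY.symm (k * m)) 1 - sg G (eY.symm k) 1 ∈
        LinearMap.range h.bd := by
      intro m
      induction m using FreeGroup.induction_on with
      | C1 => intro k; rw [mul_one, sub_self]; exact Submodule.zero_mem _
      | of x =>
        intro k
        refine ⟨sg G (eW.symm (k, x)) 1, ?_⟩
        rw [h.bd_sg]
        congr 3
        · rw [Equiv.eq_symm_apply, h.ht, Equiv.apply_symm_apply]
        · rw [Equiv.eq_symm_apply, h.hs, Equiv.apply_symm_apply]
      | inv_of x ih =>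
        intro k
        have h1 := ih (k * (FreeGroup.of x)⁻¹)
        rw [inv_mul_cancel_right] at h1
        have h2 := Submodule.neg_mem _ h1
        rw [neg_sub] at h2
        exact h2
      | mul x y hx hy =>
        intro k
        have h1 := Submodule.add_mem _ (hy (k * x)) (hx k)
        rw [sub_add_sub_cancel, mul_assoc] at h1
        exact h1
    intro a ha
    let A : PM G Y →+ ℤ := (pmAug G Y).toAddMonoidHom
    let T : PM G Y →+ PM G Y := AddMonoidHom.id _ - (sg G (eY.symm 1)).comp A
    have h1 : ∀ a : PM G Y, T a ∈ LinearMap.range h.bd := by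
      intro a
      refine pm_ind ((LinearMap.range h.bd).toAddSubgroup.comap T) ?_ a
      intro y n
      rw [AddSubgroup.mem_comap]
      have h2 := key (eY y) 1
      rw [one_mul, Equiv.symm_apply_apply] at h2
      have h3 : T (sg G y n) = n • (sg G y 1 - sg G (eY.symm 1) 1) := by
        rw [smul_sub, ← sg_zsmul, ← sg_zsmul]
        change sg G y n - sg G (eY.symm 1) (A (sg G y n)) = _
        have h5 : A (sg G y n) = n := pmAug_sg y n
        rw [h5]
      rw [h3]
      exact (LinearMap.range h.bd).toAddSubgroup.zsmul_mem h2 n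
    have h2 := h1 a
    have h3 : A a = 0 := ha
    have h4 : T a = a - sg G (eY.symm 1) (A a) := rfl
    rw [h4, h3, map_zero, sub_zero] at h2
    exact h2

theorem IsCay.fps (h : IsCay G X Y W s t eY eW) {j : ℕ} (hY : FPs (ZG G) (j + 1) (PM G Y))
    (hW : FPs (ZG G) j (PM G W)) : FPs (ZG G) (j + 1) (Triv G) := by
  have : Nonempty Y := ⟨eY.symm 1⟩
  refine FPs.quot (pmAug G Y) pmAug_surj ?_ hY
  rw [← h.range]
  exact FPs.equiv (LinearEquiv.ofInjective h.bd h.inj) hW

end

end Pool.Agent.X261.BB
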