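import Pool.Agent.X261.BB.Hol

/-!
# Generators of the kernel of the height
-/

set_option autoImplicit false
set_option linter.unusedSectionVars false

namespace Pool.Agent.X261.BB

section gens

variable {V : Type} [DecidableEq V] (Γ : SimpleGraph V) [DecidableRel Γ.Adj]

theorem pow_mem_range {u v : V} (h : Γ.Reachable u v) (a : ℤ) :
    (gen Γ u) ^ (-a) * (gen Γ v) ^ a ∈ ((piH Γ).range.map (chi Γ).ker.subtype) := by
  have hadj : ∀ u v, Γ.Adj u v →
      (gen Γ u) ^ (-a) * (gen Γ v) ^ a ∈ ((piH Γ).range.map (chi Γ).ker.subtype) := by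
    intro u v huv
    have hc : Commute (gen Γ v) (gen Γ u) := gen_comm huv.symm
    have h1 : (gen Γ u) ^ (-a) * (gen Γ v) ^ a = (gen Γ v * (gen Γ u)⁻¹) ^ a := by
      rw [(hc.inv_right).mul_zpow, inv_zpow, zpow_neg]
      exact (((hc.zpow_left a).zpow_right a).inv_right).eq.symm
    rw [h1]
    apply Subgroup.zpow_mem
    exact ⟨piH Γ (FreeGroup.of (v, u)), ⟨_, rfl⟩, by
      unfold piH
      rw [FreeGroup.lift_apply_of]
      rfl⟩
  obtain ⟨p⟩ := h
  induction p with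
  | nil =>
    rw [zpow_neg, inv_mul_cancel]
    exact Subgroup.one_mem _
  | @cons a' b' c' hab p ih =>
    have h1 := Subgroup.mul_mem _ (hadj _ _ hab) ih
    have h2 : (gen Γ a') ^ (-a) * (gen Γ b') ^ a * ((gen Γ b') ^ (-a) * (gen Γ c') ^ a) =
        (gen Γ a') ^ (-a) * (gen Γ c') ^ a := by
      rw [zpow_neg (gen Γ b'), mul_assoc, mul_inv_cancel_left]
    rwa [h2] at h1

theorem piH_surj (hc : Γ.Connected) : Function.Surjective (piH Γ) := by
  obtain ⟨t⟩ := hc.nonempty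
  set K := ((piH Γ).range.map (chi Γ).ker.subtype) with hK
  have h1 : ∀ (v : V) (k : ℤ), (gen Γ t) ^ (-(k + 1)) * gen Γ v * (gen Γ t) ^ k ∈ K := by
    intro v k
    have h2 := pow_mem_range Γ (hc.preconnected t v) (k + 1)
    have h3 := pow_mem_range Γ (hc.preconnected t v) k
    have h4 := Subgroup.mul_mem _ h2 (Subgroup.inv_mem _ h3)
    have h5 : (gen Γ t) ^ (-(k + 1)) * (gen Γ v) ^ (k + 1) *
        ((gen Γ t) ^ (-k) * (gen Γ v) ^ k)⁻¹ =
        (gen Γ t) ^ (-(k + 1)) * gen Γ v * (gen Γ t) ^ k := by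
      rw [mul_inv_rev, zpow_neg (gen Γ t) k, inv_inv, zpow_add_one (gen Γ v)]
      have : (gen Γ v) ^ k * gen Γ v = gen Γ v * (gen Γ v) ^ k := by
        rw [← zpow_add_one, ← zpow_one_add, add_comm]
      rw [this]
      group
    rwa [h5] at h4
  have key : ∀ z : RA Γ, (gen Γ t) ^ (-(ht z)) * z ∈ K := by
    intro z
    refine ra_ind (p := fun z => (gen Γ t) ^ (-(ht z)) * z ∈ K) ?_ ?_ ?_ z
    · rw [ht_one, neg_zero, zpow_zero, one_mul]
      exact Subgroup.one_mem _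
    · intro v z hz
      have h2 := Subgroup.mul_mem _ (h1 v (ht z)) hz
      have h3 : (gen Γ t) ^ (-(ht z + 1)) * gen Γ v * (gen Γ t) ^ (ht z) *
          ((gen Γ t) ^ (-(ht z)) * z) = (gen Γ t) ^ (-(ht (gen Γ v * z))) * (gen Γ v * z) := by
        rw [ht_mul, ht_gen, add_comm 1 (ht z)]
        group
      rwa [h3] at h2
    · intro v z hz
      have h2 := Subgroup.mul_mem _ (Subgroup.inv_mem _ (h1 v (ht z - 1))) hz
      have h3 : ((gen Γ t) ^ (-(ht z - 1 + 1)) * gen Γ v * (gen Γ t) ^ (ht z - 1))⁻¹ *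
          ((gen Γ t) ^ (-(ht z)) * z) =
          (gen Γ t) ^ (-(ht ((gen Γ v)⁻¹ * z))) * ((gen Γ v)⁻¹ * z) := by
        rw [ht_mul, ht_inv, ht_gen]
        have : -(-1 + ht z) = -(ht z - 1) := by ring
        rw [this]
        group
      rwa [h3] at h2
  rintro ⟨z, hz⟩
  have h2 := key z
  rw [mem_ker_iff.1 hz, neg_zero, zpow_zero, one_mul] at h2
  obtain ⟨y, ⟨x, rfl⟩, hx⟩ := h2
  exact ⟨x, Subtype.ext hx⟩

end gens

end Pool.Agent.X261.BB
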