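import Pool.Agent.X261.BB.Raag

/-!
# Holonomy and the non-finite presentability of the kernel of the height
-/

set_option autoImplicit false
set_option linter.unusedSectionVars false

namespace Pool.Agent.X261.BB

open scoped commutatorElement

section hol

variable {V : Type} [DecidableEq V] (Γ : SimpleGraph V) [DecidableRel Γ.Adj]

/-- a cocycle on the flag complex with values in permutations -/
structure Coc (F : Type) (b : V → V → Equiv.Perm F) : Prop where
  one : ∀ u, b u u = 1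
  mul : ∀ u v w, AE Γ u v → AE Γ v w → AE Γ u w → b u v * b v w = b u w

theorem AE.refl (u : V) : AE Γ u u := Or.inl rfl

theorem AE.symm {u v : V} (h : AE Γ u v) : AE Γ v u := by
  rcases h with h | h
  · exact Or.inl h.symm
  · exact Or.inr h.symm

variable {Γ} {F : Type} {b : V → V → Equiv.Perm F}

theorem Coc.inv (hb : Coc Γ F b) {u v : V} (h : AE Γ u v) : (b u v)⁻¹ = b v u := by
  have h1 := hb.mul v u v h.symm h (AE.refl Γ v)
  rw [hb.one] at h1
  exact (eq_inv_of_mul_eq_one_left h1).symm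

variable (Γ b) in
/-- the holonomy action -/
noncomputable def Th (v₀ : V) : FreeGroup V →* Equiv.Perm (RA Γ × F) :=
  FreeGroup.lift (fun v =>
    { toFun := fun x => (gen Γ v * x.1, b (pv Γ v₀ (gen Γ v * x.1)) (pv Γ v₀ x.1) x.2)
      invFun := fun x => ((gen Γ v)⁻¹ * x.1,
        (b (pv Γ v₀ x.1) (pv Γ v₀ ((gen Γ v)⁻¹ * x.1)))⁻¹ x.2)
      left_inv := by
        rintro ⟨z, c⟩
        simp only [inv_mul_cancel_left]
        simp
      right_inv := by
        rintro ⟨z, c⟩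
        simp only [mul_inv_cancel_left]
        simp })

theorem Th_of (v₀ v : V) (z : RA Γ) (c : F) : Th Γ b v₀ (FreeGroup.of v) (z, c) =
    (gen Γ v * z, b (pv Γ v₀ (gen Γ v * z)) (pv Γ v₀ z) c) := by
  unfold Th
  rw [FreeGroup.lift_apply_of]
  rfl

theorem Th_inv (v₀ v : V) (z : RA Γ) (c : F) : Th Γ b v₀ (FreeGroup.of v)⁻¹ (z, c) =
    ((gen Γ v)⁻¹ * z, (b (pv Γ v₀ z) (pv Γ v₀ ((gen Γ v)⁻¹ * z)))⁻¹ c) := by
  rw [map_inv]
  unfold Th
  rw [FreeGroup.lift_apply_of]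
  rfl

variable (Γ) in
/-- the projection of the free group -/
def prj : FreeGroup V →* RA Γ := PresentedGroup.mk (rels Γ)

theorem prj_of (v : V) : prj Γ (FreeGroup.of v) = gen Γ v := rfl

theorem Th_fst (v₀ : V) (r : FreeGroup V) : ∀ x : RA Γ × F,
    (Th Γ b v₀ r x).1 = prj Γ r * x.1 := by
  induction r using FreeGroup.induction_on with
  | C1 => intro x; rw [map_one, map_one, one_mul]; rfl
  | of v => rintro ⟨z, c⟩; rw [Th_of]; rfl
  | inv_of v _ => rintro ⟨z, c⟩; rw [Th_inv, map_inv]; rfl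
  | mul a c ha hc =>
    intro x
    rw [map_mul, Equiv.Perm.mul_apply, ha, hc, map_mul, mul_assoc]

theorem Th_comm (hb : Coc Γ F b) (v₀ : V) {u v : V} (h : Γ.Adj u v) {z : RA Γ} (hz : 0 < ht z)
    (c : F) : Th Γ b v₀ (FreeGroup.of u * FreeGroup.of v) (z, c) =
      Th Γ b v₀ (FreeGroup.of v * FreeGroup.of u) (z, c) := by
  rw [map_mul, map_mul, Equiv.Perm.mul_apply, Equiv.Perm.mul_apply, Th_of, Th_of, Th_of, Th_of]
  obtain ⟨X, h0, h1, h2, h3, h4⟩ := pv_square Γ v₀ h hz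
  have h5 : gen Γ u * (gen Γ v * z) = gen Γ v * (gen Γ u * z) := by
    rw [← mul_assoc, gen_comm h, mul_assoc]
  refine Prod.ext h5 ?_
  change b _ _ (b _ _ c) = b _ _ (b _ _ c)
  rw [← Equiv.Perm.mul_apply, ← Equiv.Perm.mul_apply, hb.mul _ _ _ (h0 _ _ h4 h3) (h0 _ _ h3 h1)
    (h0 _ _ h4 h1), ← h5, hb.mul _ _ _ (h0 _ _ h4 h2) (h0 _ _ h2 h1) (h0 _ _ h4 h1)]

variable (Γ b) in
/-- the subgroup of words with trivial holonomy far away -/
def KK (v₀ : V) : Subgroup (FreeGroup V) where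
  carrier := {r | ∃ N : ℤ, ∀ z : RA Γ, N ≤ ht z → ∀ c : F, Th Γ b v₀ r (z, c) = (z, c)}
  one_mem' := ⟨0, fun z _ c => by rw [map_one]; rfl⟩
  mul_mem' := by
    rintro r s ⟨N, hN⟩ ⟨M, hM⟩
    refine ⟨max N M, fun z hz c => ?_⟩
    rw [map_mul, Equiv.Perm.mul_apply, hM z (le_of_max_le_right hz),
      hN z (le_of_max_le_left hz)]
  inv_mem' := by
    rintro r ⟨N, hN⟩
    refine ⟨N, fun z hz c => ?_⟩
    rw [map_inv, Equiv.Perm.inv_eq_iff_eq, hN z hz]

theorem KK_normal (v₀ : V) : (KK Γ b v₀).Normal := by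
  refine ⟨?_⟩
  rintro r ⟨N, hN⟩ w
  refine ⟨N + ht (prj Γ w), fun z hz c => ?_⟩
  obtain ⟨⟨z', c'⟩, hx⟩ : ∃ x, x = Th Γ b v₀ w⁻¹ (z, c) := ⟨_, rfl⟩
  have h1 : z' = (prj Γ w)⁻¹ * z := by
    have := Th_fst (b := b) v₀ w⁻¹ (z, c)
    rw [← hx, map_inv] at this
    exact this
  rw [map_mul, map_mul, Equiv.Perm.mul_apply, Equiv.Perm.mul_apply, ← hx,
    hN z' (by rw [h1, ht_mul, ht_inv]; omega), hx, ← Equiv.Perm.mul_apply, ← map_mul,
    mul_inv_cancel, map_one]
  rfl

theorem ker_le (hb : Coc Γ F b) (v₀ : V) : (prj Γ).ker ≤ KK Γ b v₀ := by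
  have h1 : (prj Γ).ker = Subgroup.normalClosure (rels Γ) := QuotientGroup.ker_mk' _
  rw [h1]
  have : (KK Γ b v₀).Normal := KK_normal v₀
  apply Subgroup.normalClosure_le_normal
  rintro _ ⟨u, v, huv, rfl⟩
  refine ⟨3, fun z hz c => ?_⟩
  rw [commutatorElement_def]
  obtain ⟨⟨z', c'⟩, hx⟩ : ∃ x, x = Th Γ b v₀ (FreeGroup.of v * FreeGroup.of u)⁻¹ (z, c) :=
    ⟨_, rfl⟩
  have h2 : z' = (gen Γ v * gen Γ u)⁻¹ * z := by
    have := Th_fst (b := b) v₀ (FreeGroup.of v * FreeGroup.of u)⁻¹ (z, c)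
    rw [← hx, map_inv, map_mul, prj_of, prj_of] at this
    exact this
  have h3 : FreeGroup.of u * FreeGroup.of v * (FreeGroup.of u)⁻¹ * (FreeGroup.of v)⁻¹ =
      FreeGroup.of u * FreeGroup.of v * (FreeGroup.of v * FreeGroup.of u)⁻¹ := by group
  rw [h3, map_mul, Equiv.Perm.mul_apply, ← hx, Th_comm hb v₀ huv
    (by rw [h2, ht_mul, ht_inv, ht_mul, ht_gen, ht_gen]; omega), hx, ← Equiv.Perm.mul_apply,
    ← map_mul, mul_inv_cancel, map_one]
  rfl

variable (Γ) in
/-- the kernel of the height -/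
abbrev HH : Type := ↥(chi Γ).ker

theorem mem_ker_iff {z : RA Γ} : z ∈ (chi Γ).ker ↔ ht z = 0 := by
  rw [MonoidHom.mem_ker]
  unfold ht
  rw [toAdd_eq_zero]

variable (Γ) in
/-- the generators of the kernel of the height -/
def piH : FreeGroup (V × V) →* HH Γ :=
  FreeGroup.lift (fun p => ⟨gen Γ p.1 * (gen Γ p.2)⁻¹, by
    rw [mem_ker_iff, ht_mul, ht_inv, ht_gen, ht_gen]; omega⟩)

variable (V) in
/-- the substitution -/
def jj : FreeGroup (V × V) →* FreeGroup V :=
  FreeGroup.lift (fun p => FreeGroup.of p.1 * (FreeGroup.of p.2)⁻¹)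

theorem prj_jj (x : FreeGroup (V × V)) : prj Γ (jj V x) = (piH Γ x : RA Γ) := by
  have : (prj Γ).comp (jj V) = (chi Γ).ker.subtype.comp (piH Γ) := by
    ext p
    simp only [MonoidHom.comp_apply, jj, piH, FreeGroup.lift_apply_of, map_mul, map_inv, prj_of]
    rfl
  exact DFunLike.congr_fun this x

theorem ht_jj (x : FreeGroup (V × V)) : ht (prj Γ (jj V x)) = 0 := by
  rw [prj_jj]
  exact mem_ker_iff.1 (piH Γ x).2

/-- one side of a loop -/
theorem side (hb : Coc Γ F b) (v₀ : V) {u v : V} (h : Γ.Adj u v) (n : ℕ) (hn : 2 ≤ n) (c : F) :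
    Th Γ b v₀ (jj V (FreeGroup.of (v, u)) ^ n) (gen Γ u ^ n, c) = (gen Γ v ^ n, b v u c) := by
  have hX : ∀ k l : ℕ, 0 < k + l →
      pv Γ v₀ (gen Γ v ^ k * gen Γ u ^ l) = v ∨ pv Γ v₀ (gen Γ v ^ k * gen Γ u ^ l) = u := by
    intro k l hkl
    rcases pv_pow Γ v₀ u v k l hkl with h1 | h1
    · exact Or.inl h1.1
    · exact Or.inr h1.1
  have hAE : ∀ x y : V, (x = v ∨ x = u) → (y = v ∨ y = u) → AE Γ x y := by
    rintro x y (rfl | rfl) (rfl | rfl)
    · exact AE.refl Γ _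
    · exact Or.inr h.symm
    · exact Or.inr h
    · exact AE.refl Γ _
  have hcomm : Commute (gen Γ u) (gen Γ v) := gen_comm h
  have key : ∀ k ≤ n, Th Γ b v₀ (jj V (FreeGroup.of (v, u)) ^ k) (gen Γ u ^ n, c) =
      (gen Γ v ^ k * gen Γ u ^ (n - k), b (pv Γ v₀ (gen Γ v ^ k * gen Γ u ^ (n - k))) u c) := by
    intro k
    induction k with
    | zero =>
      intro _
      have h1 : pv Γ v₀ (gen Γ v ^ 0 * gen Γ u ^ (n - 0)) = u := by
        rcases pv_pow Γ v₀ u v 0 (n - 0) (by omega) with h1 | h1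
        · omega
        · exact h1.1
      rw [h1, hb.one, pow_zero, map_one, pow_zero, one_mul, Nat.sub_zero]
      rfl
    | succ k ih =>
      intro hk
      have h0 : jj V (FreeGroup.of (v, u)) = FreeGroup.of v * (FreeGroup.of u)⁻¹ := by
        unfold jj
        rw [FreeGroup.lift_apply_of]
      have e1 : (gen Γ u)⁻¹ * (gen Γ v ^ k * gen Γ u ^ (n - k)) =
          gen Γ v ^ k * gen Γ u ^ (n - (k + 1)) := by
        have h2 : n - k = (n - (k + 1)) + 1 := by omega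
        rw [← mul_assoc, ((hcomm.inv_left).pow_right k).eq, mul_assoc, h2, pow_succ',
          inv_mul_cancel_left]
      have e2 : gen Γ v * (gen Γ v ^ k * gen Γ u ^ (n - (k + 1))) =
          gen Γ v ^ (k + 1) * gen Γ u ^ (n - (k + 1)) := by
        rw [← mul_assoc, ← pow_succ']
      rw [pow_succ', map_mul, Equiv.Perm.mul_apply, ih (by omega), h0, map_mul,
        Equiv.Perm.mul_apply, Th_inv, Th_of, e1, e2]
      refine Prod.ext rfl ?_
      change b _ _ ((b _ _)⁻¹ (b _ _ c)) = _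
      have a1 := hX k (n - k) (by omega)
      have a2 := hX k (n - (k + 1)) (by omega)
      have a3 := hX (k + 1) (n - (k + 1)) (by omega)
      rw [hb.inv (hAE _ _ a1 a2), ← Equiv.Perm.mul_apply, ← Equiv.Perm.mul_apply,
        hb.mul _ _ _ (hAE _ _ a3 a2) (hAE _ _ a2 a1) (hAE _ _ a3 a1),
        hb.mul _ _ _ (hAE _ _ a3 a1) (hAE _ _ a1 (Or.inr rfl)) (hAE _ _ a3 (Or.inr rfl))]
  have h2 := key n le_rfl
  rw [map_pow] at *
  rw [h2, Nat.sub_self, pow_zero, mul_one]
  have h3 : pv Γ v₀ (gen Γ v ^ n) = v := by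
    rcases pv_pow Γ v₀ u v n 0 (by omega) with h1 | h1
    · rw [pow_zero, mul_one] at h1
      exact h1.1
    · omega
  rw [h3]

/-- the word of a path -/
def pw (n : ℕ) : V → List V → FreeGroup (V × V)
  | _, [] => 1
  | u, v :: l => pw n v l * FreeGroup.of (v, u) ^ n

/-- the holonomy of a path -/
def ph (b : V → V → Equiv.Perm F) : V → List V → Equiv.Perm F
  | _, [] => 1
  | u, v :: l => ph b v l * b v u

/-- the end of a path -/
def pe : V → List V → V
  | u, [] => u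
  | _, v :: l => pe v l

/-- consecutive vertices are adjacent -/
def IsP (Γ : SimpleGraph V) : V → List V → Prop
  | _, [] => True
  | u, v :: l => Γ.Adj u v ∧ IsP Γ v l

theorem path (hb : Coc Γ F b) (v₀ : V) (n : ℕ) (hn : 2 ≤ n) : ∀ (l : List V) (u : V) (_ : IsP Γ u l)
    (c : F), Th Γ b v₀ (jj V (pw n u l)) (gen Γ u ^ n, c) = (gen Γ (pe u l) ^ n, ph b u l c) := by
  intro l
  induction l with
  | nil =>
    intro u _ c
    simp only [pw, pe, ph, map_one]
    rfl
  | cons v l ih =>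
    intro u hu c
    simp only [pw, pe, ph, map_mul, map_pow]
    rw [Equiv.Perm.mul_apply, ← map_pow, side hb v₀ hu.1 n hn, ih v hu.2]
    rfl

/-- **The fibre square of the kernel of the height is not finitely generated**, if there is a loop
with nontrivial holonomy. -/
theorem not_fg (hb : Coc Γ F b) (u : V) (l : List V) (hl : IsP Γ u l) (hloop : pe u l = u)
    (c : F) (hc : ph b u l c ≠ c) :
    ¬ (((piH Γ).comp (MonoidHom.fst (FreeGroup (V × V)) (FreeGroup (V × V)))).eqLocus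
      ((piH Γ).comp (MonoidHom.snd (FreeGroup (V × V)) (FreeGroup (V × V))))).FG := by
  intro hfg
  rw [Subgroup.fg_iff] at hfg
  obtain ⟨T, hT, hTf⟩ := hfg
  have h1 : ∀ x y, piH Γ x = piH Γ y → ∃ N : ℤ, ∀ z : RA Γ, N ≤ ht z → ∀ c : F,
      Th Γ b u (jj V x) (z, c) = Th Γ b u (jj V y) (z, c) := by
    intro x y hxy
    have h2 : jj V (x * y⁻¹) ∈ KK Γ b u := by
      apply ker_le hb u
      rw [MonoidHom.mem_ker, prj_jj, map_mul, map_inv, hxy, mul_inv_cancel]
      rfl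
    obtain ⟨N, hN⟩ := h2
    refine ⟨N, fun z hz c => ?_⟩
    obtain ⟨⟨z', c'⟩, hx⟩ : ∃ q, q = Th Γ b u (jj V y) (z, c) := ⟨_, rfl⟩
    have h3 : z' = prj Γ (jj V y) * z := by
      have := Th_fst (b := b) u (jj V y) (z, c)
      rw [← hx] at this
      exact this
    have h4 := hN z' (by rw [h3, ht_mul, ht_jj]; omega) c'
    rw [hx, ← Equiv.Perm.mul_apply, ← map_mul, ← map_mul, inv_mul_cancel_right] at h4
    exact h4
  have h2 : ∀ t : FreeGroup (V × V) × FreeGroup (V × V), ∃ N : ℤ, t ∈ T → ∀ z : RA Γ, N ≤ ht z →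
      ∀ c : F, Th Γ b u (jj V t.1) (z, c) = Th Γ b u (jj V t.2) (z, c) := by
    intro t
    by_cases ht : t ∈ T
    · have h3 : t ∈ (((piH Γ).comp (MonoidHom.fst (FreeGroup (V × V)) (FreeGroup (V × V)))).eqLocus
          ((piH Γ).comp (MonoidHom.snd (FreeGroup (V × V)) (FreeGroup (V × V))))) := by
        rw [← hT]
        exact Subgroup.subset_closure ht
      obtain ⟨N, hN⟩ := h1 t.1 t.2 h3
      exact ⟨N, fun _ => hN⟩
    · exact ⟨0, fun h => absurd h ht⟩
  choose N hN using h2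
  obtain ⟨M, hM⟩ : ∃ M : ℕ, ∀ t ∈ T, N t ≤ M := by
    obtain ⟨B, hB⟩ := (hTf.image N).bddAbove
    refine ⟨B.toNat, fun t ht => ?_⟩
    have := hB ⟨t, ht, rfl⟩
    omega
  let W : Subgroup (FreeGroup (V × V) × FreeGroup (V × V)) :=
    { carrier := {t | ∀ z : RA Γ, (M : ℤ) ≤ ht z → ∀ c : F,
        Th Γ b u (jj V t.1) (z, c) = Th Γ b u (jj V t.2) (z, c)}
      one_mem' := fun z _ c => rfl
      mul_mem' := by
        rintro ⟨x, y⟩ ⟨x', y'⟩ h h' z hz c
        change Th Γ b u (jj V (x * x')) (z, c) = Th Γ b u (jj V (y * y')) (z, c)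
        rw [map_mul, map_mul, map_mul, map_mul, Equiv.Perm.mul_apply, Equiv.Perm.mul_apply]
        have h3 := h' z hz c
        simp only at h3
        rw [h3]
        obtain ⟨⟨z', c'⟩, hx⟩ : ∃ q, q = Th Γ b u (jj V y') (z, c) := ⟨_, rfl⟩
        have h4 : z' = prj Γ (jj V y') * z := by
          have := Th_fst (b := b) u (jj V y') (z, c)
          rw [← hx] at this
          exact this
        rw [← hx]
        exact h z' (by rw [h4, ht_mul, ht_jj]; omega) c'
      inv_mem' := by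
        rintro ⟨x, y⟩ h z hz c
        change Th Γ b u (jj V x⁻¹) (z, c) = Th Γ b u (jj V y⁻¹) (z, c)
        rw [map_inv, map_inv, map_inv, map_inv, Equiv.Perm.inv_eq_iff_eq]
        obtain ⟨⟨z', c'⟩, hx⟩ : ∃ q, q = (Th Γ b u (jj V y))⁻¹ (z, c) := ⟨_, rfl⟩
        have h4 : z' = (prj Γ (jj V y))⁻¹ * z := by
          have := Th_fst (b := b) u (jj V y)⁻¹ (z, c)
          rw [map_inv, map_inv, ← hx] at this
          exact this
        have h5 := h z' (by rw [h4, ht_mul, ht_inv, ht_jj]; omega) c'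
        simp only at h5
        rw [hx] at h5
        rw [h5]
        exact (Equiv.apply_symm_apply (Th Γ b u (jj V y)) (z, c)).symm }
  have hTW : Subgroup.closure T ≤ W := by
    rw [Subgroup.closure_le]
    intro t ht z hz c
    exact hN t ht z (le_trans (hM t ht) hz) c
  let n : ℕ := M + 2
  have h3 : (pw n u l, (1 : FreeGroup (V × V))) ∈ Subgroup.closure T := by
    rw [hT]
    change piH Γ (pw n u l) = piH Γ 1
    rw [map_one]
    apply Subtype.ext
    rw [← prj_jj]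
    have h4 := Th_fst (b := b) u (jj V (pw n u l)) (gen Γ u ^ n, c)
    rw [path hb u n (by omega) l u hl c, hloop] at h4
    have h5 : gen Γ u ^ n = prj Γ (jj V (pw n u l)) * gen Γ u ^ n := h4
    exact (mul_eq_right.1 h5.symm)
  have h4 := hTW h3 (gen Γ u ^ n) (by rw [ht_pow, ht_gen]; push_cast; omega) c
  simp only at h4
  rw [path hb u n (by omega) l u hl c, map_one, map_one, hloop] at h4
  exact hc (congrArg Prod.snd h4)

end hol

end Pool.Agent.X261.BB
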