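import Pool.Agent.X261.BB.Slab
import Pool.Agent.X261.BB.Hol

/-!
# Finiteness properties of the kernel of the height
-/

set_option autoImplicit false
set_option linter.unusedSectionVars false

namespace Pool.Agent.X261.BB

open Pool.Agent.W386 Function

section three

variable {R C T : Type} [Ring R] [AddCommGroup C] [Module R C] [AddCommGroup T] [Module R T]

/-- a resolution of length two by submodules -/
theorem fps_three (D : C →ₗ[R] C) (au : C →ₗ[R] T) (M0 M1 M2 : Submodule R C) {n : ℕ}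
    (h0 : FPs R n M0) (h1 : FPs R n M1) (h2 : FPs R n M2)
    (ha : ∀ x, ∃ y ∈ M0, au y = x)
    (hb : ∀ y ∈ M1, D y ∈ M0 ∧ au (D y) = 0)
    (hb' : ∀ x ∈ M0, au x = 0 → ∃ y ∈ M1, D y = x)
    (hc : ∀ y ∈ M2, D y ∈ M1 ∧ D (D y) = 0)
    (hc' : ∀ x ∈ M1, D x = 0 → ∃ y ∈ M2, D y = x)
    (hd : ∀ x ∈ M2, D x = 0 → x = 0) : FPs R n T := by
  cases n with
  | zero => trivial
  | succ n =>
    let p : M0 →ₗ[R] T := au.domRestrict M0
    have hp : Surjective p := by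
      intro x
      obtain ⟨y, hy, rfl⟩ := ha x
      exact ⟨⟨y, hy⟩, rfl⟩
    refine FPs.quot p hp ?_ h0
    let q : M1 →ₗ[R] LinearMap.ker p :=
      ((D.domRestrict M1).codRestrict M0 (fun y => (hb y y.2).1)).codRestrict (LinearMap.ker p)
        (fun y => LinearMap.mem_ker.2 (hb y y.2).2)
    have hq : Surjective q := by
      rintro ⟨⟨x, hx⟩, hx'⟩
      obtain ⟨y, hy, rfl⟩ := hb' x hx (LinearMap.mem_ker.1 hx')
      exact ⟨⟨y, hy⟩, rfl⟩
    have hqk : ∀ y : M1, y ∈ LinearMap.ker q ↔ D y = 0 := by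
      intro y
      rw [LinearMap.mem_ker]
      constructor
      · intro h
        exact congrArg (fun z => ((z : M0) : C)) (congrArg Subtype.val h)
      · intro h
        apply Subtype.ext
        apply Subtype.ext
        exact h
    have h3 : FPs R (n + 1) (LinearMap.ker q) := by
      let r : M2 →ₗ[R] LinearMap.ker q :=
        ((D.domRestrict M2).codRestrict M1 (fun y => (hc y y.2).1)).codRestrict (LinearMap.ker q)
          (fun y => (hqk _).2 (hc y y.2).2)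
      refine FPs.equiv (LinearEquiv.ofBijective r ⟨?_, ?_⟩) h2
      · rw [← LinearMap.ker_eq_bot, LinearMap.ker_eq_bot']
        rintro ⟨x, hx⟩ h
        have h4 : D x = 0 := congrArg (fun z => ((z : M1) : C)) (congrArg Subtype.val h)
        exact Subtype.ext (hd x hx h4)
      · rintro ⟨⟨x, hx⟩, hx'⟩
        obtain ⟨y, hy, rfl⟩ := hc' x hx ((hqk _).1 hx')
        exact ⟨⟨y, hy⟩, rfl⟩
    have h4 : FPs R (n + 1) (LinearMap.ker p) := FPs.quot q hq h3.mono h1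
    exact h4.mono

end three

noncomputable section hfp

variable {V : Type} [LinearOrder V] [Fintype V] {Γ : SimpleGraph V} [DecidableRel Γ.Adj]

/-- projection to a degree -/
def pr (k : ℕ) : Ch Γ →ₗ[ℤ] Ch Γ := cl (fun g σ => if σ.card = k then ce g σ else 0)

theorem pr_dd' (k : ℕ) (z : Ch Γ) : pr k (dd' z) = dd' (pr (k + 1) z) := by
  have h1 := sp_ext (f := pr k ∘ₗ dd') (f' := dd' ∘ₗ pr (k + 1)) (P := fun _ _ => True) (by
    intro g σ _
    rw [LinearMap.comp_apply, LinearMap.comp_apply]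
    unfold pr
    rw [cl_ce]
    split_ifs with h
    · rw [dd'_ce, map_sum]
      refine Finset.sum_congr rfl fun v hv => ?_
      have h2 : (σ.erase v).card = k := by
        rw [Finset.card_erase_of_mem hv, h, Nat.add_sub_cancel]
      rw [map_smul, map_sub, cl_ce, cl_ce, if_pos h2, if_pos h2]
    · rw [map_zero, dd'_ce, map_sum]
      refine Finset.sum_eq_zero fun v hv => ?_
      have h2 : (σ.erase v).card ≠ k := by
        intro h3
        apply h
        rw [← h3, Finset.card_erase_add_one hv]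
      rw [map_smul, map_sub, cl_ce, cl_ce, if_neg h2, if_neg h2, sub_zero, smul_zero])
    (sp_top z)
  rwa [LinearMap.comp_apply, LinearMap.comp_apply] at h1

/-- cells of degree `k` in the slab -/
def Qk (Γ : SimpleGraph V) (k : ℕ) (g : RA Γ) (σ : Finset V) : Prop := QQ Γ 0 2 g σ ∧ σ.card = k

theorem pr_mem {k : ℕ} {z : Ch Γ} (hz : z ∈ Sp Γ (QQ Γ 0 2)) : pr k z ∈ Sp Γ (Qk Γ k) := by
  refine sp_map (f := pr k) ?_ hz
  intro g σ h
  unfold pr
  rw [cl_ce]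
  split_ifs with h2
  · exact ce_mem ⟨h, h2⟩
  · exact Submodule.zero_mem _

theorem pr_eq {k : ℕ} {z : Ch Γ} (hz : z ∈ Sp Γ (Qk Γ k)) : pr k z = z := by
  have h1 := sp_ext (f := pr k) (f' := LinearMap.id) (P := Qk Γ k) (by
    rintro g σ ⟨_, h⟩
    unfold pr
    rw [cl_ce, if_pos h, LinearMap.id_apply]) hz
  rwa [LinearMap.id_apply] at h1

variable {s : (Finset V →₀ ℤ) →ₗ[ℤ] (Finset V →₀ ℤ)}

theorem deg_lift (hs : Contr Γ s) {k : ℕ} {x : Ch Γ} (hx : x ∈ Sp Γ (Qk Γ k)) {w : Ch Γ}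
    (hw : w ∈ Sp Γ (fun _ σ => Cq Γ σ)) (hdw : dd' w = x) :
    ∃ w' ∈ Sp Γ (Qk Γ (k + 1)), dd' w' = x := by
  obtain ⟨w', hw', hdw'⟩ := push hs hw (by
    rw [hdw]
    exact sp_mono (fun g σ h => h.1) hx)
  refine ⟨pr (k + 1) w', pr_mem hw', ?_⟩
  rw [← pr_dd', hdw', hdw, pr_eq hx]

theorem exact_pos (hs : Contr Γ s) {k : ℕ} {x : Ch Γ} (hx : x ∈ Sp Γ (Qk Γ (k + 1)))
    (hdx : dd' x = 0) : ∃ w ∈ Sp Γ (Qk Γ (k + 2)), dd' w = x := by
  obtain ⟨w, hw, hdw⟩ := exact_main (Γ := Γ) Finset.univ x (sp_mono (fun g σ h =>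
    ⟨Finset.subset_univ _, h.1.1, Finset.card_pos.1 (by rw [h.2]; omega)⟩) hx) hdx
  exact deg_lift hs hx (sp_mono (fun g σ h => h.2.1) hw) hdw

theorem inj_two (hs : Contr Γ s) {x : Ch Γ} (hx : x ∈ Sp Γ (Qk Γ 2)) (hdx : dd' x = 0) :
    x = 0 := by
  obtain ⟨w, hw, rfl⟩ := exact_pos hs hx hdx
  have h1 : w = 0 := by
    have := sp_zero (LinearMap.id) (P := Qk Γ 3) (by
      rintro g σ ⟨⟨_, h2, h3⟩, h4⟩
      rw [h4] at h3
      push_cast at h3
      omega) hw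
    rwa [LinearMap.id_apply] at this
  rw [h1, map_zero]

/-- the augmentation -/
def augC : Ch Γ →ₗ[ℤ] ℤ := cl (fun _ σ => if σ.card = 0 then 1 else 0)

theorem AK_univ (g : RA Γ) : g ∈ AK Γ ((Finset.univ : Finset V) : Set V) := by
  refine ra_ind (p := fun g => g ∈ AK Γ ((Finset.univ : Finset V) : Set V)) ?_ ?_ ?_ g
  · exact Subgroup.one_mem _
  · intro v z hz
    exact Subgroup.mul_mem _ (gen_mem_AK Γ (by simp)) hz
  · intro v z hz
    exact Subgroup.mul_mem _ (Subgroup.inv_mem _ (gen_mem_AK Γ (by simp))) hz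

theorem exact_zero (hs : Contr Γ s) {x : Ch Γ} (hx : x ∈ Sp Γ (Qk Γ 0)) (hax : augC x = 0) :
    ∃ w ∈ Sp Γ (Qk Γ 1), dd' w = x := by
  have h1 : e0 (P0 x) = x := by
    have h2 := sp_ext (f := e0 ∘ₗ P0) (f' := LinearMap.id) (P := Qk Γ 0) (by
      rintro g σ ⟨_, h⟩
      rw [Finset.card_eq_zero] at h
      subst h
      rw [LinearMap.comp_apply, LinearMap.id_apply]
      unfold P0
      rw [cl_ce, if_pos rfl, e0_single]) hx
    rwa [LinearMap.comp_apply, LinearMap.id_apply] at h2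
  have h2 : qK (((Finset.univ : Finset V) : Set V)) (P0 x) =
      (LinearMap.toSpanSingleton ℤ _
        (Finsupp.single (QuotientGroup.mk (1 : RA Γ)) (1 : ℤ) :
          (RA Γ ⧸ AK Γ ((Finset.univ : Finset V) : Set V)) →₀ ℤ)) (augC x) := by
    have h3 := sp_ext (f := qK (((Finset.univ : Finset V) : Set V)) ∘ₗ P0)
      (f' := (LinearMap.toSpanSingleton ℤ _
        (Finsupp.single (QuotientGroup.mk (1 : RA Γ)) (1 : ℤ) :
          (RA Γ ⧸ AK Γ ((Finset.univ : Finset V) : Set V)) →₀ ℤ)) ∘ₗ augC) (P := Qk Γ 0) (by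
      rintro g σ ⟨_, h⟩
      rw [Finset.card_eq_zero] at h
      subst h
      rw [LinearMap.comp_apply, LinearMap.comp_apply]
      unfold P0 augC
      rw [cl_ce, cl_ce, if_pos rfl, if_pos Finset.card_empty, qK_single,
        LinearMap.toSpanSingleton_apply, one_smul]
      congr 1
      rw [QuotientGroup.eq]
      exact AK_univ _) hx
    rwa [LinearMap.comp_apply, LinearMap.comp_apply] at h3
  rw [hax, map_zero] at h2
  obtain ⟨w, hw, hdw⟩ := claim0 Finset.univ (P0 x) h2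
  refine deg_lift hs hx (sp_mono ?_ hw) (hdw.trans h1)
  rintro g σ ⟨_, h3⟩
  obtain ⟨a, rfl⟩ := Finset.card_eq_one.1 h3
  intro u hu v hv huv
  rw [Finset.mem_singleton] at hu hv
  exact absurd (hu.trans hv.symm) huv

/-- the cells -/
def YC (Γ : SimpleGraph V) : Type := RA Γ × Finset V

instance : MulAction (HH Γ) (YC Γ) := prodAct (HH Γ) (RA Γ) (Finset V)

theorem yc_smul (h : HH Γ) (g : RA Γ) (σ : Finset V) :
    h • (show YC Γ from (g, σ)) = (show YC Γ from ((h : RA Γ) * g, σ)) := rfl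

theorem act_ce (h : HH Γ) (g : RA Γ) (σ : Finset V) :
    act h (show PM (HH Γ) (YC Γ) from ce g σ) =
      (show PM (HH Γ) (YC Γ) from ce ((h : RA Γ) * g) σ) :=
  act_sg h (show YC Γ from (g, σ)) 1

/-- the action on chains -/
def actC (h : HH Γ) : Ch Γ →ₗ[ℤ] Ch Γ := cl (fun g σ => ce ((h : RA Γ) * g) σ)

theorem act_eq (h : HH Γ) (z : Ch Γ) : act h (show PM (HH Γ) (YC Γ) from z) =
    (show PM (HH Γ) (YC Γ) from actC h z) := by
  have h1 : (actHom h : PM (HH Γ) (YC Γ) →+ PM (HH Γ) (YC Γ)) =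
      ((actC h).toAddMonoidHom : PM (HH Γ) (YC Γ) →+ PM (HH Γ) (YC Γ)) := by
    refine pm_ext (G := HH Γ) (Y := YC Γ) ?_
    rintro ⟨g, σ⟩ n
    have h2 : actC h (Finsupp.single ((g, σ) : RA Γ × Finset V) n) =
        Finsupp.single (((h : RA Γ) * g, σ) : RA Γ × Finset V) n := by
      unfold actC cl ce
      rw [Finsupp.linearCombination_single, Finsupp.smul_single, smul_eq_mul, mul_one]
    exact (act_sg h (show YC Γ from (g, σ)) n).trans h2.symm
  exact DFunLike.congr_fun h1 z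

/-- the boundary over the group ring -/
def DH (Γ : SimpleGraph V) [DecidableRel Γ.Adj] :
    PM (HH Γ) (YC Γ) →ₗ[ZG (HH Γ)] PM (HH Γ) (YC Γ) :=
  mkLin ((dd' : Ch Γ →ₗ[ℤ] Ch Γ).toAddMonoidHom : PM (HH Γ) (YC Γ) →+ PM (HH Γ) (YC Γ)) (by
    intro h z
    have h1 := sp_ext (Γ := Γ) (f := dd' ∘ₗ actC h) (f' := actC h ∘ₗ dd')
      (P := fun _ _ => True) (by
      intro g σ _
      have h2 : ∀ (g : RA Γ) (σ : Finset V), actC h (ce g σ) = ce ((h : RA Γ) * g) σ := by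
        intro g σ
        unfold actC
        rw [cl_ce]
      rw [LinearMap.comp_apply, LinearMap.comp_apply, h2, dd'_ce, dd'_ce, map_sum]
      refine Finset.sum_congr rfl fun v hv => ?_
      rw [map_smul, map_sub, h2, h2, mul_assoc]) (sp_top z)
    have h3 := act_eq h z
    have h4 := act_eq h (dd' (show Ch Γ from z))
    exact ((congrArg (fun x : Ch Γ => dd' x) h3).trans h1).trans h4.symm)

theorem DH_apply (z : Ch Γ) : DH Γ (show PM (HH Γ) (YC Γ) from z) =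
    (show PM (HH Γ) (YC Γ) from dd' z) := rfl

/-- index set of orbits of cells -/
def Ik (Γ : SimpleGraph V) (k : ℕ) : Type :=
  {p : Fin 3 × Finset V // p.2.card = k ∧ Cq Γ p.2 ∧ (p.1 : ℕ) + k ≤ 2}

instance (k : ℕ) : Finite (Ik Γ k) := by
  unfold Ik
  infer_instance

/-- free orbits -/
def Zk (Γ : SimpleGraph V) (k : ℕ) : Type := HH Γ × Ik Γ k

instance (k : ℕ) : MulAction (HH Γ) (Zk Γ k) := prodAct (HH Γ) (HH Γ) (Ik Γ k)

/-- the inclusion of the orbits -/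
def phk (t : V) (k : ℕ) (z : Zk Γ k) : YC Γ :=
  (show RA Γ × Finset V from
    (((id z : HH Γ × Ik Γ k).1 : RA Γ) * gen Γ t ^ ((id z : HH Γ × Ik Γ k).2.1.1 : ℕ),
      (id z : HH Γ × Ik Γ k).2.1.2))

theorem phk_equi (t : V) (k : ℕ) (h : HH Γ) (z : Zk Γ k) : phk t k (h • z) = h • phk t k z := by
  obtain ⟨a, i⟩ := z
  refine Prod.ext ?_ rfl
  exact mul_assoc (h : RA Γ) (a : RA Γ) _

theorem phk_inj (t : V) (k : ℕ) : Injective (phk (Γ := Γ) t k) := by
  rintro ⟨a, ⟨⟨j, σ⟩, h1⟩⟩ ⟨b, ⟨⟨j', σ'⟩, h1'⟩⟩ h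
  have h2 : (a : RA Γ) * gen Γ t ^ (j : ℕ) = (b : RA Γ) * gen Γ t ^ (j' : ℕ) :=
    congrArg (fun z => (id z : RA Γ × Finset V).1) h
  have h3 : σ = σ' := congrArg (fun z => (id z : RA Γ × Finset V).2) h
  have h4 : (j : ℕ) = (j' : ℕ) := by
    have h5 := congrArg ht h2
    rw [ht_mul, ht_mul, ht_pow, ht_pow, ht_gen, (mem_ker_iff.1 a.2), (mem_ker_iff.1 b.2)] at h5
    omega
  have h5 : j = j' := Fin.ext h4
  subst h3 h5
  have h6 : a = b := Subtype.ext (mul_right_cancel h2)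
  subst h6
  rfl

/-- cells of degree `k` -/
def Mk (Γ : SimpleGraph V) [DecidableRel Γ.Adj] (t : V) (k : ℕ) :
    Submodule (ZG (HH Γ)) (PM (HH Γ) (YC Γ)) :=
  LinearMap.range (pmMap (phk (Γ := Γ) t k) (phk_equi t k))

theorem pmMap_inj {G Y Z : Type} [Group G] [MulAction G Y] [MulAction G Z] (f : Y → Z)
    (h : ∀ (g : G) (y : Y), f (g • y) = g • f y) (hf : Injective f) :
    Injective (pmMap f h) := by
  have h1 : (pmMap f h).toAddMonoidHom = (Finsupp.lmapDomain ℤ ℤ f).toAddMonoidHom := by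
    refine pm_ext (G := G) (Y := Y) (A := Z →₀ ℤ) (f := (pmMap f h).toAddMonoidHom)
      (g := (Finsupp.lmapDomain ℤ ℤ f).toAddMonoidHom) ?_
    intro y n
    have h2 : (Finsupp.lmapDomain ℤ ℤ f) (Finsupp.single y n) = Finsupp.single (f y) n :=
      Finsupp.mapDomain_single
    exact (pmMap_sg f h y n).trans h2.symm
  intro a b hab
  have h3 : ∀ a, pmMap f h a = Finsupp.mapDomain f (show Y →₀ ℤ from a) := fun a =>
    DFunLike.congr_fun h1 a
  rw [h3, h3] at hab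
  exact Finsupp.mapDomain_injective hf hab

theorem fps_Mk (t : V) (k n : ℕ) : FPs (ZG (HH Γ)) n (Mk Γ t k) := by
  refine FPs.equiv (LinearEquiv.ofInjective _ (pmMap_inj _ _ (phk_inj t k))) ?_
  exact fps_prod (G := HH Γ) (Y := HH Γ) (ι := Ik Γ k) (fps_reg n)

theorem mem_Mk (t : V) (k : ℕ) (z : Ch Γ) :
    (show PM (HH Γ) (YC Γ) from z) ∈ Mk Γ t k ↔ z ∈ Sp Γ (Qk Γ k) := by
  constructor
  · rintro ⟨a, ha⟩
    have h1 : a ∈ (Sp Γ (Qk Γ k)).toAddSubgroup.comap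
        ((pmMap (phk (Γ := Γ) t k) (phk_equi t k)).toAddMonoidHom : PM (HH Γ) (Zk Γ k) →+ Ch Γ) := by
      refine pm_ind _ ?_ a
      rintro ⟨h, ⟨⟨j, σ⟩, h1, h2, h3⟩⟩ n
      have h4 : pmMap (phk (Γ := Γ) t k) (phk_equi t k)
          (sg (HH Γ) (show Zk Γ k from ((h, ⟨(j, σ), h1, h2, h3⟩) : HH Γ × Ik Γ k)) n) =
          Finsupp.single (((h : RA Γ) * gen Γ t ^ (j : ℕ), σ) : RA Γ × Finset V) n :=
        pmMap_sg _ _ _ _
      refine AddSubgroup.mem_comap.2 ?_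
      change pmMap (phk (Γ := Γ) t k) (phk_equi t k)
          (sg (HH Γ) (show Zk Γ k from ((h, ⟨(j, σ), h1, h2, h3⟩) : HH Γ × Ik Γ k)) n) ∈
            (Sp Γ (Qk Γ k))
      rw [h4]
      refine Finsupp.single_mem_supported ℤ _ ?_
      have h5 : ht ((h : RA Γ) * gen Γ t ^ (j : ℕ)) = (j : ℕ) := by
        rw [ht_mul, ht_pow, ht_gen, mem_ker_iff.1 h.2]
        ring
      simp only at h1 h2 h3
      refine ⟨⟨h2, ?_, ?_⟩, h1⟩
      · rw [h5]
        omega
      · rw [h5, h1]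
        omega
    have h2 := AddSubgroup.mem_comap.1 h1
    exact ha ▸ h2
  · intro hz
    have h1 := sp_ind (Γ := Γ) (P := Qk Γ k)
      (AddSubgroup.toIntSubmodule ((Mk Γ t k).toAddSubgroup : AddSubgroup (Ch Γ))) (by
      rintro g σ ⟨⟨h1, h2, h3⟩, h4⟩
      have h5 : (ht g).toNat < 3 := by omega
      have h6 : ((ht g).toNat : ℤ) = ht g := Int.toNat_of_nonneg h2
      have h7 : g * (gen Γ t ^ (ht g).toNat)⁻¹ ∈ (chi Γ).ker := by
        rw [mem_ker_iff, ht_mul, ht_inv, ht_pow, ht_gen, h6]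
        ring
      refine ⟨sg (HH Γ) (show Zk Γ k from ((⟨_, h7⟩, ⟨(⟨(ht g).toNat, h5⟩, σ), h4, h1, by
        simp only
        omega⟩) : HH Γ × Ik Γ k)) 1, ?_⟩
      refine (pmMap_sg _ _ _ _).trans ?_
      refine congrArg (fun z : RA Γ × Finset V => (Finsupp.single z (1 : ℤ) : Ch Γ)) ?_
      refine Prod.ext ?_ rfl
      change g * (gen Γ t ^ (ht g).toNat)⁻¹ * gen Γ t ^ (ht g).toNat = g
      rw [inv_mul_cancel_right]) hz
    exact h1

/-- **The kernel of the height has all finiteness properties.** -/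
theorem fps_HH (hs : Contr Γ s) (t : V) (n : ℕ) : FPs (ZG (HH Γ)) n (Triv (HH Γ)) := by
  let au : PM (HH Γ) (YC Γ) →ₗ[ZG (HH Γ)] Triv (HH Γ) :=
    mkLin ((augC : Ch Γ →ₗ[ℤ] ℤ).toAddMonoidHom : PM (HH Γ) (YC Γ) →+ Triv (HH Γ)) (by
      intro h z
      rw [act_triv]
      have h1 := sp_ext (Γ := Γ) (f := augC ∘ₗ actC h) (f' := augC) (P := fun _ _ => True) (by
        intro g σ _
        rw [LinearMap.comp_apply]
        unfold augC actC
        rw [cl_ce, cl_ce, cl_ce]) (sp_top z)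
      exact (congrArg (fun x : Ch Γ => augC x) (act_eq h z)).trans h1)
  have hau : ∀ z : Ch Γ, au (show PM (HH Γ) (YC Γ) from z) = (show Triv (HH Γ) from augC z) :=
    fun z => rfl
  have hd : ∀ k, ∀ y ∈ Mk Γ t (k + 1), DH Γ y ∈ Mk Γ t k := by
    intro k y hy
    have h1 := (mem_Mk t (k + 1) (show Ch Γ from y)).1 hy
    refine (mem_Mk t k (dd' (show Ch Γ from y))).2 ?_
    refine dd'_mem ?_ h1
    rintro g σ ⟨⟨h1, h2, h3⟩, h4⟩ u hu
    have h5 : (σ.erase u).card = k := by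
      rw [Finset.card_erase_of_mem hu, h4, Nat.add_sub_cancel]
    refine ⟨⟨⟨h1.sub (Finset.erase_subset _ _), ?_, ?_⟩, h5⟩,
      ⟨⟨h1.sub (Finset.erase_subset _ _), h2, ?_⟩, h5⟩⟩
    · rw [ht_mul, ht_gen]
      omega
    · rw [ht_mul, ht_gen, h5]
      rw [h4] at h3
      push_cast at h3
      omega
    · rw [h5]
      rw [h4] at h3
      push_cast at h3
      omega
  refine fps_three (DH Γ) au (Mk Γ t 0) (Mk Γ t 1) (Mk Γ t 2) (fps_Mk t 0 n) (fps_Mk t 1 n)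
    (fps_Mk t 2 n) ?_ ?_ ?_ ?_ ?_ ?_
  · intro x
    have h1 : ce (Γ := Γ) 1 ∅ ∈ Sp Γ (Qk Γ 0) := ce_mem ⟨⟨fun u hu => absurd hu (Finset.notMem_empty u),
      by rw [ht_one], by rw [ht_one]; simp⟩, Finset.card_empty⟩
    refine ⟨(show PM (HH Γ) (YC Γ) from ((show ℤ from x) • ce (Γ := Γ) 1 ∅ : Ch Γ)), ?_, ?_⟩
    · refine (mem_Mk t 0 _).2 ?_
      exact Submodule.smul_mem _ _ h1
    · rw [hau]
      have : augC ((show ℤ from x) • ce (Γ := Γ) 1 ∅) = (show ℤ from x) := by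
        rw [map_smul]
        unfold augC
        rw [cl_ce, if_pos Finset.card_empty, smul_eq_mul, mul_one]
      exact this
  · intro y hy
    refine ⟨hd 0 y hy, ?_⟩
    have h1 := (mem_Mk t 1 (show Ch Γ from y)).1 hy
    have h2 := sp_zero (augC ∘ₗ dd') (P := Qk Γ 1) (by
      rintro g σ ⟨_, h⟩
      rw [LinearMap.comp_apply, dd'_ce, map_sum]
      refine Finset.sum_eq_zero fun v hv => ?_
      unfold augC
      rw [map_smul, map_sub, cl_ce, cl_ce, sub_self, smul_zero]) h1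
    rw [LinearMap.comp_apply] at h2
    exact h2
  · intro x hx hax
    obtain ⟨w, hw, hdw⟩ := exact_zero hs ((mem_Mk t 0 (show Ch Γ from x)).1 hx) hax
    exact ⟨w, (mem_Mk t 1 w).2 hw, hdw⟩
  · intro y hy
    refine ⟨hd 1 y hy, ?_⟩
    have h1 := (mem_Mk t 2 (show Ch Γ from y)).1 hy
    exact dd'_sq (sp_mono (fun g σ h => h.1.1) h1)
  · intro x hx hdx
    obtain ⟨w, hw, hdw⟩ := exact_pos hs ((mem_Mk t 1 (show Ch Γ from x)).1 hx) hdx
    exact ⟨w, (mem_Mk t 2 w).2 hw, hdw⟩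
  · intro x hx hdx
    exact inj_two hs ((mem_Mk t 2 (show Ch Γ from x)).1 hx) hdx

end hfp

end Pool.Agent.X261.BB
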