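import Pool.Agent.X261.BB.Bridge

/-!
# Permutation modules
-/

set_option autoImplicit false

namespace Pool.Agent.X261.BB

open Pool.Agent.W386 Function

section defs

variable (G Y : Type) [Group G] [MulAction G Y]

/-- the permutation module `ℤ[Y]` -/
def PM (G Y : Type) [Group G] [MulAction G Y] : Type := Y →₀ ℤ

noncomputable instance : AddCommGroup (PM G Y) := inferInstanceAs (AddCommGroup (Y →₀ ℤ))

/-- the permutation representation -/
noncomputable def pmRep : G →* Module.End ℤ (Y →₀ ℤ) where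
  toFun g := Finsupp.lmapDomain ℤ ℤ (fun y => g • y)
  map_one' := by
    ext y z
    simp
  map_mul' g h := by
    ext y z
    simp [mul_smul]

noncomputable instance : Module (ZG G) (PM G Y) :=
  Module.compHom (Y →₀ ℤ) ((MonoidAlgebra.lift ℤ (Module.End ℤ (Y →₀ ℤ)) G) (pmRep G Y) :
    ZG G →ₐ[ℤ] Module.End ℤ (Y →₀ ℤ)).toRingHom

end defs

variable {G Y Z : Type} [Group G] [MulAction G Y] [MulAction G Z]

/-- a basis element times an integer -/
noncomputable def sg (G : Type) {Y : Type} [Group G] [MulAction G Y] (y : Y) : ℤ →+ PM G Y :=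
  (Finsupp.singleAddHom y : ℤ →+ (Y →₀ ℤ))

theorem act_sg (g : G) (y : Y) (n : ℤ) : act g (sg G y n) = sg G (g • y) n := by
  have h : ((MonoidAlgebra.lift ℤ (Module.End ℤ (Y →₀ ℤ)) G) (pmRep G Y) :
    ZG G →ₐ[ℤ] Module.End ℤ (Y →₀ ℤ)) (MonoidAlgebra.of ℤ G g) = pmRep G Y g := by
    rw [MonoidAlgebra.lift_of]
  change ((MonoidAlgebra.lift ℤ (Module.End ℤ (Y →₀ ℤ)) G) (pmRep G Y) :
    ZG G →ₐ[ℤ] Module.End ℤ (Y →₀ ℤ)) (MonoidAlgebra.of ℤ G g) (Finsupp.single y n) = _
  rw [h]
  exact Finsupp.mapDomain_single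

theorem pm_ext {A : Type} [AddCommGroup A] {f g : PM G Y →+ A}
    (h : ∀ y n, f (sg G y n) = g (sg G y n)) : f = g := by
  exact Finsupp.addHom_ext (f := (f : (Y →₀ ℤ) →+ A)) (g := (g : (Y →₀ ℤ) →+ A)) h

theorem pm_ind (S : AddSubgroup (PM G Y)) (h : ∀ y n, sg G y n ∈ S) (a : PM G Y) : a ∈ S := by
  induction a using Finsupp.induction_linear with
  | zero => exact S.zero_mem
  | add f g hf hg => exact S.add_mem hf hg
  | single y n => exact h y n

/-- additive maps out of a permutation module -/
noncomputable def pmLift {A : Type} [AddCommGroup A] (f : Y → A) : PM G Y →+ A :=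
  (Finsupp.liftAddHom (fun y => zmultiplesHom A (f y)) : (Y →₀ ℤ) →+ A)

theorem pmLift_sg {A : Type} [AddCommGroup A] (f : Y → A) (y : Y) (n : ℤ) :
    pmLift (G := G) f (sg G y n) = n • f y := by
  have : (Finsupp.liftAddHom (fun y => zmultiplesHom A (f y)) : (Y →₀ ℤ) →+ A)
      (Finsupp.single y n) = zmultiplesHom A (f y) n := Finsupp.liftAddHom_apply_single _ _ _
  exact this

/-- a map commuting with the group action is linear over the group ring -/
def mkLin {A B : Type} [AddCommGroup A] [Module (ZG G) A] [AddCommGroup B] [Module (ZG G) B]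
    (f : A →+ B) (h : ∀ (g : G) (a : A), f (act g a) = act g (f a)) : A →ₗ[ZG G] B where
  toFun := f
  map_add' := f.map_add
  map_smul' := smul_of_act h

@[simp] theorem mkLin_apply {A B : Type} [AddCommGroup A] [Module (ZG G) A] [AddCommGroup B]
    [Module (ZG G) B] (f : A →+ B) (h : ∀ (g : G) (a : A), f (act g a) = act g (f a)) (a : A) :
    mkLin f h a = f a := rfl

theorem act_zsmul {A : Type} [AddCommGroup A] [Module (ZG G) A] (g : G) (n : ℤ) (a : A) :
    act g (n • a) = n • act g a := by
  have := map_zsmul (actHom (A := A) g) n a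
  exact this

/-- linear maps out of a permutation module -/
noncomputable def pmLin {A : Type} [AddCommGroup A] [Module (ZG G) A] (f : Y → A)
    (h : ∀ (g : G) (y : Y), f (g • y) = act g (f y)) : PM G Y →ₗ[ZG G] A :=
  mkLin (pmLift f) (by
    intro g a
    have : ((pmLift f).comp (actHom g) : PM G Y →+ A) = (actHom g).comp (pmLift f) := by
      apply pm_ext
      intro y n
      simp only [AddMonoidHom.comp_apply, actHom_apply]
      rw [act_sg, pmLift_sg, pmLift_sg, h, act_zsmul]
    exact DFunLike.congr_fun this a)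

@[simp] theorem pmLin_sg {A : Type} [AddCommGroup A] [Module (ZG G) A] (f : Y → A)
    (h : ∀ (g : G) (y : Y), f (g • y) = act g (f y)) (y : Y) (n : ℤ) :
    pmLin f h (sg G y n) = n • f y := pmLift_sg f y n

theorem pmLin_one {A : Type} [AddCommGroup A] [Module (ZG G) A] (f : Y → A)
    (h : ∀ (g : G) (y : Y), f (g • y) = act g (f y)) (y : Y) :
    pmLin f h (sg G y 1) = f y := by rw [pmLin_sg, one_zsmul]

/-- the augmentation -/
noncomputable def pmAug (G Y : Type) [Group G] [MulAction G Y] : PM G Y →ₗ[ZG G] Triv G :=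
  pmLin (fun _ => (show Triv G from (1 : ℤ))) (by
    intro g _
    rw [act_triv])

theorem pmAug_sg (y : Y) (n : ℤ) : pmAug G Y (sg G y n) = (show Triv G from n) := by
  unfold pmAug
  rw [pmLin_sg]
  change n • (1 : ℤ) = n
  simp

theorem pmAug_surj [Nonempty Y] : Surjective (pmAug G Y) := by
  intro n
  obtain ⟨y⟩ := ‹Nonempty Y›
  exact ⟨sg G y n, pmAug_sg y n⟩

theorem sg_zsmul (y : Y) (n : ℤ) : sg G y n = n • sg G y 1 := by
  rw [← map_zsmul]
  simp

/-- the map of permutation modules given by an equivariant map -/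
noncomputable def pmMap (f : Y → Z) (h : ∀ (g : G) (y : Y), f (g • y) = g • f y) :
    PM G Y →ₗ[ZG G] PM G Z :=
  pmLin (fun y => sg G (f y) 1) (by intro g y; rw [act_sg, h])

@[simp] theorem pmMap_sg (f : Y → Z) (h : ∀ (g : G) (y : Y), f (g • y) = g • f y) (y : Y)
    (n : ℤ) : pmMap f h (sg G y n) = sg G (f y) n := by
  unfold pmMap
  rw [pmLin_sg, ← sg_zsmul]

theorem lin_ext {A : Type} [AddCommGroup A] [Module (ZG G) A] {f g : PM G Y →ₗ[ZG G] A}
    (h : ∀ y, f (sg G y 1) = g (sg G y 1)) (a : PM G Y) : f a = g a := by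
  have : (f.toAddMonoidHom : PM G Y →+ A) = g.toAddMonoidHom := by
    apply pm_ext
    intro y n
    have h1 : f (sg G y n) = g (sg G y n) := by
      rw [sg_zsmul, map_zsmul, map_zsmul, h]
    exact h1
  exact DFunLike.congr_fun this a

theorem symm_equi (e : Y ≃ Z) (h : ∀ (g : G) (y : Y), e (g • y) = g • e y) (g : G) (z : Z) :
    e.symm (g • z) = g • e.symm z := by
  rw [Equiv.symm_apply_eq, h, Equiv.apply_symm_apply]

/-- equivariant bijections -/
noncomputable def pmEquiv (e : Y ≃ Z) (h : ∀ (g : G) (y : Y), e (g • y) = g • e y) :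
    PM G Y ≃ₗ[ZG G] PM G Z where
  toLinearMap := pmMap e h
  invFun := pmMap e.symm (symm_equi e h)
  left_inv := by
    intro a
    refine lin_ext (f := (pmMap e.symm (symm_equi e h)).comp (pmMap e h)) (g := LinearMap.id) ?_ a
    intro y
    rw [LinearMap.comp_apply, pmMap_sg, pmMap_sg, Equiv.symm_apply_apply]
    rfl
  right_inv := by
    intro a
    refine lin_ext (f := (pmMap e h).comp (pmMap e.symm (symm_equi e h))) (g := LinearMap.id) ?_ a
    intro y
    rw [LinearMap.comp_apply, pmMap_sg, pmMap_sg, Equiv.apply_symm_apply]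
    rfl

/-- the base point of an induced permutation module -/
noncomputable def sgT (N : Type) [Group N] (y : Y) : Triv N →+ PM G Y where
  toFun m := sg G y (show ℤ from m)
  map_zero' := (sg G y).map_zero
  map_add' := (sg G y).map_add

theorem sgT_apply {N : Type} [Group N] (y : Y) (m : Triv N) :
    sgT (G := G) N y m = sg G y (show ℤ from m) := rfl

/-- a transitive permutation module is induced from the stabiliser -/
theorem isInd_pm {N : Type} [Group N] (j : N →* G) (y₀ : Y)
    (hst : ∀ g : G, g • y₀ = y₀ ↔ g ∈ j.range) (htr : ∀ y : Y, ∃ g : G, g • y₀ = y) :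
    IsInd j (sgT (G := G) N y₀) := by
  refine ⟨?_, ?_, ?_⟩
  · intro n m
    rw [act_triv, sgT_apply, act_sg, (hst (j n)).2 ⟨n, rfl⟩]
  · intro S hS a
    refine pm_ind S ?_ a
    intro y n
    obtain ⟨g, rfl⟩ := htr y
    have := hS g (show Triv N from n)
    rwa [sgT_apply, act_sg] at this
  · classical
    refine ⟨(Finsupp.applyAddHom y₀ : (Y →₀ ℤ) →+ ℤ), ?_, ?_⟩
    · intro m
      exact Finsupp.single_eq_same
    · intro p hp m
      rw [sgT_apply, act_sg]
      exact Finsupp.single_eq_of_ne (fun h => hp ((hst p).1 h.symm))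

theorem fps_pm {N : Type} [Group N] (j : N →* G) (hj : Injective j) (y₀ : Y)
    (hst : ∀ g : G, g • y₀ = y₀ ↔ g ∈ j.range) (htr : ∀ y : Y, ∃ g : G, g • y₀ = y) {m : ℕ}
    (h : FPs (ZG N) m (Triv N)) : FPs (ZG G) m (PM G Y) :=
  FPs.ind hj m (isInd_pm j y₀ hst htr) h

/-- the regular module -/
noncomputable def regEquiv (G : Type) [Group G] : PM G G ≃ₗ[ZG G] ZG G where
  toLinearMap := pmLin (fun g => MonoidAlgebra.of ℤ G g) (by
    intro g h
    rw [smul_eq_mul, map_mul]
    rfl)
  invFun r := r • sg G (1 : G) 1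
  left_inv := by
    intro a
    let f : PM G G →ₗ[ZG G] ZG G := pmLin (fun g => MonoidAlgebra.of ℤ G g) (by
      intro g h
      rw [smul_eq_mul, map_mul]
      rfl)
    refine lin_ext (f := (LinearMap.toSpanSingleton (ZG G) (PM G G) (sg G (1 : G) 1)).comp f)
      (g := LinearMap.id) ?_ a
    intro g
    rw [LinearMap.comp_apply, pmLin_one, LinearMap.toSpanSingleton_apply]
    change act g (sg G (1 : G) 1) = sg G g 1
    rw [act_sg, smul_eq_mul, mul_one]
  right_inv := by
    intro r
    have h : ∀ r : ZG G, pmLin (G := G) (Y := G) (fun g => MonoidAlgebra.of ℤ G g) (by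
        intro g h
        rw [smul_eq_mul, map_mul]
        rfl) (r • sg G (1 : G) 1) = r := by
      intro r
      rw [map_smul, pmLin_one, map_one, smul_eq_mul, mul_one]
    exact h r

theorem fps_reg (m : ℕ) : FPs (ZG G) m (PM G G) :=
  FPs.equiv (regEquiv G).symm (FPs.of_fgf FGF.self m)

/-- a copy of a set without action -/
@[reducible] def prodAct (G Y ι : Type) [Group G] [MulAction G Y] : MulAction G (Y × ι) where
  smul g p := (g • p.1, p.2)
  one_smul p := by
    change ((1 : G) • p.1, p.2) = p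
    rw [one_smul]
  mul_smul g h p := by
    change ((g * h) • p.1, p.2) = (g • h • p.1, p.2)
    rw [mul_smul]

theorem fps_prod {ι : Type} [Finite ι] {m : ℕ} (h : FPs (ZG G) m (PM G Y)) :
    letI := prodAct G Y ι
    FPs (ZG G) m (PM G (Y × ι)) := by
  classical
  let _ := prodAct G Y ι
  have := Fintype.ofFinite ι
  have hs : ∀ (g : G) (p : Y × ι), g • p = (g • p.1, p.2) := fun _ _ => rfl
  let f : PM G (Y × ι) →ₗ[ZG G] (ι → PM G Y) :=
    pmLin (fun p => Pi.single (M := fun _ => PM G Y) p.2 (sg G p.1 1)) (by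
      intro g p
      rw [hs]
      funext i
      change Pi.single (M := fun _ => PM G Y) p.2 (sg G (g • p.1) 1) i =
        act g (Pi.single (M := fun _ => PM G Y) p.2 (sg G p.1 1) i)
      by_cases hi : i = p.2
      · subst hi
        rw [Pi.single_eq_same, Pi.single_eq_same, act_sg]
      · rw [Pi.single_eq_of_ne hi, Pi.single_eq_of_ne hi, act_zero])
  let gi : ι → PM G Y →ₗ[ZG G] PM G (Y × ι) := fun i =>
    pmMap (fun y => (y, i)) (fun g y => (hs g (y, i)).symm)
  let k : (ι → PM G Y) →ₗ[ZG G] PM G (Y × ι) := ∑ i, (gi i).comp (LinearMap.proj i)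
  refine FPs.equiv (LinearEquiv.ofBijective k ⟨?_, ?_⟩) (FPs.pi h)
  · have hl : ∀ a, f (k a) = a := by
      intro a
      have h1 : k a = ∑ i, gi i (a i) := by
        simp [k]
      have h2 : ∀ i (b : PM G Y), f (gi i b) = Pi.single i b := by
        intro i b
        refine lin_ext (f := f.comp (gi i)) (g := LinearMap.single (ZG G) (fun _ => PM G Y) i) ?_ b
        intro y
        rw [LinearMap.comp_apply, pmMap_sg, pmLin_one]
        rfl
      rw [h1, map_sum]
      simp only [h2]
      exact Finset.univ_sum_single a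
    intro a b hab
    rw [← hl a, ← hl b, hab]
  · have hr : ∀ a, k (f a) = a := by
      intro a
      refine lin_ext (f := k.comp f) (g := LinearMap.id) ?_ a
      rintro ⟨y, i⟩
      rw [LinearMap.comp_apply, pmLin_one]
      have h1 : ∀ a, k a = ∑ i, gi i (a i) := by
        intro a
        simp [k]
      rw [h1, Finset.sum_eq_single i]
      · simp only [Pi.single_eq_same]
        rw [pmMap_sg]
        rfl
      · intro j _ hj
        simp only [Pi.single_eq_of_ne hj]
        rw [map_zero]
      · intro h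
        exact absurd (Finset.mem_univ _) h
    intro a
    exact ⟨f a, hr a⟩

end Pool.Agent.X261.BB
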