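import Pool.Agent.X261.BB.Cub

/-!
# Parabolic subgroups and crossed homomorphisms
-/

set_option autoImplicit false
set_option linter.unusedSectionVars false

namespace Pool.Agent.X261.BB

open Pool.Agent.W386

noncomputable section par

variable {V : Type} (Γ : SimpleGraph V)

/-- the subgroup generated by a set of vertices -/
def AK (K : Set V) : Subgroup (RA Γ) := Subgroup.closure (gen Γ '' K)

theorem gen_mem_AK {K : Set V} {v : V} (h : v ∈ K) : gen Γ v ∈ AK Γ K :=
  Subgroup.subset_closure ⟨v, h, rfl⟩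

open Classical in
/-- the retraction onto the subgroup generated by a set of vertices -/
def ret (K : Set V) : RA Γ →* RA Γ :=
  rlift (fun v => if v ∈ K then gen Γ v else 1) (by
    intro u v huv
    split_ifs
    · exact gen_comm huv
    · simp
    · simp
    · simp)

theorem ret_gen_mem {K : Set V} {v : V} (h : v ∈ K) : ret Γ K (gen Γ v) = gen Γ v := by
  unfold ret
  rw [rlift_gen, if_pos h]

theorem ret_gen_not {K : Set V} {v : V} (h : v ∉ K) : ret Γ K (gen Γ v) = 1 := by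
  unfold ret
  rw [rlift_gen, if_neg h]

theorem ret_eq {K : Set V} {x : RA Γ} (h : x ∈ AK Γ K) : ret Γ K x = x := by
  refine Subgroup.closure_induction ?_ ?_ ?_ ?_ h
  · rintro _ ⟨v, hv, rfl⟩
    exact ret_gen_mem Γ hv
  · exact map_one _
  · intro x y _ _ hx hy
    rw [map_mul, hx, hy]
  · intro x _ hx
    rw [map_inv, hx]

theorem ret_mem {K M : Set V} {x : RA Γ} (h : x ∈ AK Γ M) : ret Γ K x ∈ AK Γ (M ∩ K) := by
  refine Subgroup.closure_induction ?_ ?_ ?_ ?_ h
  · rintro _ ⟨v, hv, rfl⟩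
    by_cases h : v ∈ K
    · rw [ret_gen_mem Γ h]
      exact gen_mem_AK Γ ⟨hv, h⟩
    · rw [ret_gen_not Γ h]
      exact Subgroup.one_mem _
  · rw [map_one]
    exact Subgroup.one_mem _
  · intro x y _ _ hx hy
    rw [map_mul]
    exact Subgroup.mul_mem _ hx hy
  · intro x _ hx
    rw [map_inv]
    exact Subgroup.inv_mem _ hx

theorem AK_inter {K M : Set V} {x : RA Γ} (hK : x ∈ AK Γ K) (hM : x ∈ AK Γ M) :
    x ∈ AK Γ (M ∩ K) := by
  rw [← ret_eq Γ hK]
  exact ret_mem Γ hM

/-- the subgroup generated by the neighbours of a vertex -/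
abbrev ALk (v : V) : Subgroup (RA Γ) := AK Γ {u | Γ.Adj v u}

theorem exists_der (v : V) [DecidableEq V] :
    ∃ D : RA Γ → PM (RA Γ) (RA Γ ⧸ ALk Γ v), D 1 = 0 ∧
      (∀ a b, D (a * b) = D a + act a (D b)) ∧ D (gen Γ v) = sg (RA Γ) (QuotientGroup.mk 1) 1 ∧
      ∀ u, u ≠ v → D (gen Γ u) = 0 := by
  let δ : V → PM (RA Γ) (RA Γ ⧸ ALk Γ v) := fun u =>
    if u = v then sg (RA Γ) (QuotientGroup.mk 1) 1 else 0
  have hfix : ∀ u, Γ.Adj v u → act (gen Γ u) (sg (RA Γ)
      (QuotientGroup.mk 1 : RA Γ ⧸ ALk Γ v) 1) = sg (RA Γ) (QuotientGroup.mk 1) 1 := by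
    intro u hu
    rw [act_sg]
    congr 2
    change (QuotientGroup.mk (gen Γ u * 1) : RA Γ ⧸ ALk Γ v) = QuotientGroup.mk 1
    rw [QuotientGroup.eq, mul_one, mul_one]
    exact Subgroup.inv_mem _ (gen_mem_AK Γ hu)
  let φ : RA Γ →* Sd (RA Γ) (PM (RA Γ) (RA Γ ⧸ ALk Γ v)) :=
    rlift (fun u => ⟨δ u, gen Γ u⟩) (by
      intro a b hab
      apply Sd.ext
      · change δ a + act (gen Γ a) (δ b) = δ b + act (gen Γ b) (δ a)
        by_cases ha : a = v
        · subst ha
          have hb : b ≠ a := fun h => Γ.loopless.irrefl a (h ▸ hab)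
          simp only [δ, if_true, if_neg hb]
          rw [act_zero, add_zero, zero_add, hfix b hab]
        · by_cases hb : b = v
          · subst hb
            simp only [δ, if_true, if_neg ha]
            rw [act_zero, add_zero, zero_add, hfix a hab.symm]
          · simp only [δ, if_neg ha, if_neg hb]
            rw [act_zero, act_zero]
      · exact gen_comm hab)
  have h : ∀ g, (φ g).g = g := by
    intro g
    have : Sd.pr.comp φ = MonoidHom.id _ := by
      apply ra_ext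
      intro u
      simp only [MonoidHom.comp_apply, MonoidHom.id_apply, φ, rlift_gen]
      rfl
    exact DFunLike.congr_fun this g
  obtain ⟨h1, h2⟩ := der_of_hom φ h
  refine ⟨fun g => (φ g).m, h1, h2, ?_, ?_⟩
  · simp only [φ, rlift_gen, δ, if_true]
  · intro u hu
    simp only [φ, rlift_gen, δ, if_neg hu]

/-- **The tree argument.** -/
theorem kill [DecidableEq V] {v : V} {K : Set V} (hv : v ∉ K) (y : RA Γ →₀ ℤ)
    (h : Finsupp.mapDomain (QuotientGroup.mk : RA Γ → RA Γ ⧸ AK Γ K)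
      (Finsupp.mapDomain (fun g => g * gen Γ v) y) =
        Finsupp.mapDomain (QuotientGroup.mk : RA Γ → RA Γ ⧸ AK Γ K) y) :
    Finsupp.mapDomain (QuotientGroup.mk : RA Γ → RA Γ ⧸ AK Γ ({u | Γ.Adj v u} ∩ K)) y = 0 := by
  obtain ⟨D, hD1, hD2, hD3, hD4⟩ := exists_der Γ v
  let KK := AK Γ (insert v K)
  let T : (RA Γ ⧸ KK) → PM (RA Γ) (RA Γ ⧸ ALk Γ v) →+ (((RA Γ ⧸ ALk Γ v) × (RA Γ ⧸ KK)) →₀ ℤ) := fun c =>
    (Finsupp.mapDomain.addMonoidHom (fun a : RA Γ ⧸ ALk Γ v => (a, c)) :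
      ((RA Γ ⧸ ALk Γ v) →₀ ℤ) →+ (((RA Γ ⧸ ALk Γ v) × (RA Γ ⧸ KK)) →₀ ℤ))
  have hTs : ∀ c a, T c (sg (RA Γ) a 1) = Finsupp.single (a, c) 1 := by
    intro c a
    exact Finsupp.mapDomain_single
  let E : RA Γ → (((RA Γ ⧸ ALk Γ v) × (RA Γ ⧸ KK)) →₀ ℤ) := fun x => T (QuotientGroup.mk x) (D x)
  have hDK : ∀ k ∈ AK Γ K, D k = 0 := by
    intro k hk
    refine Subgroup.closure_induction ?_ hD1 ?_ ?_ hk
    · rintro _ ⟨u, hu, rfl⟩
      exact hD4 u (fun h => hv (h ▸ hu))
    · intro x y _ _ hx hy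
      rw [hD2, hx, hy, act_zero, add_zero]
    · intro x _ hx
      have h1 := hD2 x⁻¹ x
      rw [inv_mul_cancel, hD1, hx, act_zero, add_zero] at h1
      exact h1.symm
  have hE1 : ∀ g, ∀ k ∈ AK Γ K, E (g * k) = E g := by
    intro g k hk
    have h1 : (QuotientGroup.mk (g * k) : RA Γ ⧸ KK) = QuotientGroup.mk g := by
      apply QuotientGroup.mk_mul_of_mem
      exact Subgroup.closure_mono (Set.image_mono (Set.subset_insert v K)) hk
    simp only [E]
    rw [h1, hD2, hDK k hk, act_zero, add_zero]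
  have hE2 : ∀ g, E (g * gen Γ v) = E g + Finsupp.single (QuotientGroup.mk g, QuotientGroup.mk g) 1 := by
    intro g
    have h1 : (QuotientGroup.mk (g * gen Γ v) : RA Γ ⧸ KK) = QuotientGroup.mk g :=
      QuotientGroup.mk_mul_of_mem _ (gen_mem_AK Γ (Set.mem_insert v K))
    simp only [E]
    rw [h1, hD2, hD3, act_sg, map_add, hTs]
    congr 3
    change (QuotientGroup.mk (g * 1) : RA Γ ⧸ ALk Γ v) = _
    rw [mul_one]
  let L : ((RA Γ ⧸ AK Γ K) →₀ ℤ) →ₗ[ℤ] (((RA Γ ⧸ ALk Γ v) × (RA Γ ⧸ KK)) →₀ ℤ) :=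
    Finsupp.linearCombination ℤ (fun z => E (Quotient.out z))
  let Y : (RA Γ →₀ ℤ) →ₗ[ℤ] (((RA Γ ⧸ ALk Γ v) × (RA Γ ⧸ KK)) →₀ ℤ) :=
    Finsupp.linearCombination ℤ E
  have hLY : ∀ x, L (Finsupp.mapDomain QuotientGroup.mk x) = Y x := by
    intro x
    rw [Finsupp.linearCombination_mapDomain]
    congr 2
    funext g
    simp only [Function.comp_apply]
    obtain ⟨k, hk⟩ := QuotientGroup.mk_out_eq_mul (AK Γ K) g
    rw [hk, hE1 g k k.2]
  have h1 : Y (Finsupp.mapDomain (fun g => g * gen Γ v) y) = Y y := by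
    rw [← hLY, ← hLY, h]
  have h2 : Y (Finsupp.mapDomain (fun g => g * gen Γ v) y) = Y y +
      Finsupp.mapDomain (fun g => ((QuotientGroup.mk g : RA Γ ⧸ ALk Γ v),
        (QuotientGroup.mk g : RA Γ ⧸ KK))) y := by
    rw [Finsupp.linearCombination_mapDomain]
    have h3 : (Finsupp.linearCombination ℤ (E ∘ fun g => g * gen Γ v)) =
        Y + Finsupp.lmapDomain ℤ ℤ (fun g => ((QuotientGroup.mk g : RA Γ ⧸ ALk Γ v),
          (QuotientGroup.mk g : RA Γ ⧸ KK))) := by
      apply Finsupp.lhom_ext'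
      intro g
      apply LinearMap.ext_ring
      simp only [LinearMap.coe_comp, Function.comp_apply, Finsupp.lsingle_apply,
        Finsupp.linearCombination_single, one_smul, LinearMap.add_apply, Finsupp.lmapDomain_apply,
        Finsupp.mapDomain_single, Y]
      exact hE2 g
    rw [h3]
    rfl
  rw [h1] at h2
  have h3 : Finsupp.mapDomain (fun g => ((QuotientGroup.mk g : RA Γ ⧸ ALk Γ v),
        (QuotientGroup.mk g : RA Γ ⧸ KK))) y = 0 := by
    have := h2.symm
    rwa [add_eq_left] at this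
  let ι : RA Γ ⧸ AK Γ ({u | Γ.Adj v u} ∩ K) → (RA Γ ⧸ ALk Γ v) × (RA Γ ⧸ KK) := fun z =>
    (Subgroup.quotientMapOfLE (Subgroup.closure_mono (Set.image_mono Set.inter_subset_left)) z,
      Subgroup.quotientMapOfLE (Subgroup.closure_mono (Set.image_mono
        (Set.inter_subset_right.trans (Set.subset_insert v K)))) z)
  have hι : Function.Injective ι := by
    intro a b
    induction a using QuotientGroup.induction_on with
    | H a =>
      induction b using QuotientGroup.induction_on with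
      | H b =>
        intro hab
        have h4 : (QuotientGroup.mk a : RA Γ ⧸ ALk Γ v) = QuotientGroup.mk b := congrArg Prod.fst hab
        have h5 : (QuotientGroup.mk a : RA Γ ⧸ KK) = QuotientGroup.mk b := congrArg Prod.snd hab
        rw [QuotientGroup.eq] at h4 h5 ⊢
        have h6 := AK_inter Γ h5 h4
        have h7 : ({u | Γ.Adj v u} ∩ insert v K : Set V) = {u | Γ.Adj v u} ∩ K := by
          ext u
          simp only [Set.mem_inter_iff, Set.mem_ofPred_eq, Set.mem_insert_iff]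
          constructor
          · rintro ⟨h8, rfl | h9⟩
            · exact absurd h8 (Γ.loopless.irrefl _)
            · exact ⟨h8, h9⟩
          · rintro ⟨h8, h9⟩
            exact ⟨h8, Or.inr h9⟩
        rwa [h7] at h6
  apply Finsupp.mapDomain_injective hι
  rw [← Finsupp.mapDomain_comp, Finsupp.mapDomain_zero]
  exact h3

end par

end Pool.Agent.X261.BB
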