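import Pool.Agent.X261.BB.Exact

/-!
# Pushing chains into a slab
-/

set_option autoImplicit false
set_option linter.unusedSectionVars false

namespace Pool.Agent.X261.BB

open Finset

/-- the simplicial boundary -/
noncomputable def dL {V : Type} [LinearOrder V] : (Finset V →₀ ℤ) →ₗ[ℤ] (Finset V →₀ ℤ) :=
  Finsupp.linearCombination ℤ
    (fun σ : Finset V => ∑ v ∈ σ, sgn v σ • Finsupp.single (σ.erase v) (1 : ℤ))

/-- A contraction of the augmented chain complex of the flag complex. -/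
structure Contr {V : Type} [LinearOrder V] (Γ : SimpleGraph V)
    (s : (Finset V →₀ ℤ) →ₗ[ℤ] (Finset V →₀ ℤ)) : Prop where
  deg : ∀ σ, Cq Γ σ → s (Finsupp.single σ 1) ∈
    Finsupp.supported ℤ ℤ {τ : Finset V | Cq Γ τ ∧ τ.card = σ.card + 1}
  eq : ∀ σ, Cq Γ σ →
    dL (s (Finsupp.single σ 1)) + s (dL (Finsupp.single σ 1)) = Finsupp.single σ 1
  dim : ∀ σ, Cq Γ σ → σ.card ≤ 3

noncomputable section slab

variable {V : Type} [LinearOrder V] {Γ : SimpleGraph V} [DecidableRel Γ.Adj]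

open Classical in
/-- the product of the vertices of a clique -/
def vp (Γ : SimpleGraph V) (σ : Finset V) : RA Γ :=
  if h : Cq Γ σ then
    σ.noncommProd (gen Γ) (fun u hu v hv huv => gen_comm (h u hu v hv huv)) else 1

theorem vp_erase {σ : Finset V} (h : Cq Γ σ) {v : V} (hv : v ∈ σ) :
    gen Γ v * vp Γ (σ.erase v) = vp Γ σ := by
  unfold vp
  rw [dif_pos h, dif_pos (h.sub (erase_subset v σ))]
  exact Finset.mul_noncommProd_erase σ hv (gen Γ) _ _

theorem vp_empty : vp Γ (∅ : Finset V) = 1 := by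
  unfold vp
  split_ifs with h
  · exact Finset.noncommProd_empty _ _
  · rfl

theorem ht_vp (σ : Finset V) : Cq Γ σ → ht (vp Γ σ) = σ.card := by
  induction σ using Finset.strongInduction with
  | H σ ih =>
    intro h
    rcases σ.eq_empty_or_nonempty with hσ | ⟨v, hv⟩
    · subst hσ
      rw [vp_empty, ht_one]
      rfl
    · rw [← vp_erase h hv, ht_mul, ht_gen, ih _ (erase_ssubset hv) (h.sub (erase_subset v σ)),
        card_erase_of_mem hv]
      have : 0 < σ.card := card_pos.2 ⟨v, hv⟩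
      omega

/-- the part of the boundary containing the bottom vertex -/
def dB : Ch Γ →ₗ[ℤ] Ch Γ := cl (fun g σ => ∑ v ∈ σ, sgn v σ • ce g (σ.erase v))

/-- the part of the boundary containing the top vertex -/
def dT : Ch Γ →ₗ[ℤ] Ch Γ := cl (fun g σ => ∑ v ∈ σ, sgn v σ • ce (g * gen Γ v) (σ.erase v))

theorem dd'_eq (z : Ch Γ) : dd' z = dT z - dB z := by
  have h1 := sp_ext (f := dd') (f' := dT - dB) (P := fun _ _ => True) (by
    intro g σ _
    rw [dd'_ce, LinearMap.sub_apply]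
    unfold dT dB
    rw [cl_ce, cl_ce, ← sum_sub_distrib]
    exact sum_congr rfl fun v _ => smul_sub _ _ _) (sp_top z)
  rwa [LinearMap.sub_apply] at h1

/-- a simplicial chain placed at a vertex -/
def at_ (g : RA Γ) : (Finset V →₀ ℤ) →ₗ[ℤ] Ch Γ := Finsupp.lmapDomain ℤ ℤ (fun σ => (g, σ))

theorem at_single (g : RA Γ) (σ : Finset V) : at_ g (Finsupp.single σ (1 : ℤ)) = ce g σ :=
  Finsupp.mapDomain_single

theorem dB_at (g : RA Γ) (x : Finset V →₀ ℤ) : dB (at_ g x) = at_ g (dL x) := by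
  have : dB ∘ₗ at_ g = at_ g ∘ₗ dL := by
    apply Finsupp.lhom_ext'
    intro σ
    apply LinearMap.ext_ring
    rw [LinearMap.comp_apply, LinearMap.comp_apply, LinearMap.comp_apply, LinearMap.comp_apply,
      Finsupp.lsingle_apply, at_single]
    unfold dB dL
    rw [cl_ce, Finsupp.linearCombination_single, one_smul, map_sum]
    refine sum_congr rfl fun v _ => ?_
    rw [map_smul, at_single]
  rw [← LinearMap.comp_apply, this, LinearMap.comp_apply]

variable (s : (Finset V →₀ ℤ) →ₗ[ℤ] (Finset V →₀ ℤ))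

/-- the contraction in bottom coordinates -/
def sB : Ch Γ →ₗ[ℤ] Ch Γ := cl (fun g σ => at_ g (s (Finsupp.single σ 1)))

theorem sB_at (g : RA Γ) (x : Finset V →₀ ℤ) : sB s (at_ g x) = at_ g (s x) := by
  have : sB s ∘ₗ at_ g = at_ g ∘ₗ s := by
    apply Finsupp.lhom_ext'
    intro σ
    apply LinearMap.ext_ring
    rw [LinearMap.comp_apply, LinearMap.comp_apply, LinearMap.comp_apply, LinearMap.comp_apply,
      Finsupp.lsingle_apply, at_single]
    unfold sB
    rw [cl_ce]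
  rw [← LinearMap.comp_apply, this, LinearMap.comp_apply]

variable {s}

theorem at_mem {g : RA Γ} {Q : Finset V → Prop} {P : RA Γ → Finset V → Prop}
    (h : ∀ τ, Q τ → P g τ) {x : Finset V →₀ ℤ} (hx : x ∈ Finsupp.supported ℤ ℤ {τ | Q τ}) :
    at_ g x ∈ Sp Γ P := by
  rw [Finsupp.supported_eq_span_single] at hx
  refine Submodule.span_induction ?_ ?_ ?_ ?_ hx
  · rintro _ ⟨τ, hτ, rfl⟩
    simp only
    rw [at_single]
    exact ce_mem (h τ hτ)
  · rw [map_zero]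
    exact Submodule.zero_mem _
  · intro a b _ _ ha hb
    rw [map_add]
    exact Submodule.add_mem _ ha hb
  · intro n a _ ha
    rw [map_smul]
    exact Submodule.smul_mem _ _ ha

/-- the homotopy formula in bottom coordinates -/
theorem homB (hs : Contr Γ s) {g : RA Γ} {σ : Finset V} (hσ : Cq Γ σ) :
    dB (sB s (ce g σ)) + sB s (dB (ce g σ)) = ce g σ := by
  rw [← at_single, dB_at, sB_at, sB_at, dB_at, ← map_add, hs.eq σ hσ]

/-- the shear -/
def th : Ch Γ →ₗ[ℤ] Ch Γ := cl (fun g σ => ce (g * vp Γ σ) σ)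

/-- the inverse shear -/
def th' : Ch Γ →ₗ[ℤ] Ch Γ := cl (fun g σ => ce (g * (vp Γ σ)⁻¹) σ)

theorem th_th' (z : Ch Γ) : th (th' z) = z := by
  have h1 := sp_ext (f := th ∘ₗ th') (f' := LinearMap.id) (P := fun _ _ => True) (by
    intro g σ _
    rw [LinearMap.comp_apply, LinearMap.id_apply]
    unfold th th'
    rw [cl_ce, cl_ce, inv_mul_cancel_right]) (sp_top z)
  rwa [LinearMap.comp_apply, LinearMap.id_apply] at h1

theorem th'_th (z : Ch Γ) : th' (th z) = z := by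
  have h1 := sp_ext (f := th' ∘ₗ th) (f' := LinearMap.id) (P := fun _ _ => True) (by
    intro g σ _
    rw [LinearMap.comp_apply, LinearMap.id_apply]
    unfold th th'
    rw [cl_ce, cl_ce, mul_inv_cancel_right]) (sp_top z)
  rwa [LinearMap.comp_apply, LinearMap.id_apply] at h1

theorem th_dT {z : Ch Γ} (hz : z ∈ Sp Γ (fun _ σ => Cq Γ σ)) : th (dT z) = dB (th z) := by
  have h1 := sp_ext (f := th ∘ₗ dT) (f' := dB ∘ₗ th) (P := fun _ σ => Cq Γ σ) (by
    intro g σ hσ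
    rw [LinearMap.comp_apply, LinearMap.comp_apply]
    unfold th dT dB
    rw [cl_ce, cl_ce, cl_ce, map_sum]
    refine sum_congr rfl fun v hv => ?_
    rw [map_smul, cl_ce, mul_assoc, vp_erase hσ hv]) hz
  rwa [LinearMap.comp_apply, LinearMap.comp_apply] at h1

variable (s) in
/-- the contraction in top coordinates -/
def sT : Ch Γ →ₗ[ℤ] Ch Γ := th' ∘ₗ sB s ∘ₗ th

theorem sT_ce (g : RA Γ) (σ : Finset V) :
    sT s (ce g σ) = th' (at_ (g * vp Γ σ) (s (Finsupp.single σ 1))) := by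
  unfold sT
  rw [LinearMap.comp_apply, LinearMap.comp_apply]
  unfold th
  rw [cl_ce, ← at_single, sB_at]

theorem sB_ce_mem (hs : Contr Γ s) {g : RA Γ} {σ : Finset V} (hσ : Cq Γ σ) :
    sB s (ce g σ) ∈ Sp Γ (fun g' τ => Cq Γ τ ∧ g' = g ∧ τ.card = σ.card + 1) := by
  unfold sB
  rw [cl_ce]
  exact at_mem (fun τ hτ => ⟨hτ.1, rfl, hτ.2⟩) (hs.deg σ hσ)

theorem sT_ce_mem (hs : Contr Γ s) {g : RA Γ} {σ : Finset V} (hσ : Cq Γ σ) :
    sT s (ce g σ) ∈ Sp Γ (fun g' τ => Cq Γ τ ∧ ht g' + τ.card = ht g + σ.card ∧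
      τ.card = σ.card + 1) := by
  rw [sT_ce]
  have h1 := at_mem (Γ := Γ) (g := g * vp Γ σ) (P := fun g' τ => Cq Γ τ ∧ g' = g * vp Γ σ ∧
    τ.card = σ.card + 1) (fun τ hτ => ⟨hτ.1, rfl, hτ.2⟩) (hs.deg σ hσ)
  refine sp_map (f := th') ?_ h1
  rintro g' τ ⟨h2, rfl, h3⟩
  unfold th'
  rw [cl_ce]
  refine ce_mem ⟨h2, ?_, h3⟩
  rw [ht_mul, ht_mul, ht_inv, ht_vp σ hσ, ht_vp τ h2]
  ring

theorem th_cq {z : Ch Γ} (hz : z ∈ Sp Γ (fun _ σ => Cq Γ σ)) : th z ∈ Sp Γ (fun _ σ => Cq Γ σ) := by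
  refine sp_map (f := th) ?_ hz
  intro g σ hσ
  unfold th
  rw [cl_ce]
  exact ce_mem hσ

theorem th'_cq {z : Ch Γ} (hz : z ∈ Sp Γ (fun _ σ => Cq Γ σ)) :
    th' z ∈ Sp Γ (fun _ σ => Cq Γ σ) := by
  refine sp_map (f := th') ?_ hz
  intro g σ hσ
  unfold th'
  rw [cl_ce]
  exact ce_mem hσ

/-- the homotopy formula in top coordinates -/
theorem homT (hs : Contr Γ s) {g : RA Γ} {σ : Finset V} (hσ : Cq Γ σ) :
    dT (sT s (ce g σ)) + sT s (dT (ce g σ)) = ce g σ := by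
  have hce : ce g σ ∈ Sp Γ (fun _ σ => Cq Γ σ) := ce_mem hσ
  have hsT : sT s (ce g σ) ∈ Sp Γ (fun _ σ => Cq Γ σ) := sp_mono (fun _ _ h => h.1) (sT_ce_mem hs hσ)
  have h0 : th (ce g σ) = ce (g * vp Γ σ) σ := by
    unfold th
    rw [cl_ce]
  have h1 : th (dT (sT s (ce g σ))) = dB (sB s (th (ce g σ))) := by
    rw [th_dT hsT]
    unfold sT
    rw [LinearMap.comp_apply, LinearMap.comp_apply, th_th']
  have h2 : th (sT s (dT (ce g σ))) = sB s (dB (th (ce g σ))) := by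
    unfold sT
    rw [LinearMap.comp_apply, LinearMap.comp_apply, th_th', th_dT hce]
  have h3 : th (dT (sT s (ce g σ)) + sT s (dT (ce g σ))) = th (ce g σ) := by
    rw [map_add, h1, h2, h0]
    exact homB hs hσ
  have h4 := congrArg th' h3
  rwa [th'_th, th'_th] at h4

/-- cells in a slab -/
def QQ (Γ : SimpleGraph V) (a b : ℤ) (g : RA Γ) (σ : Finset V) : Prop :=
  Cq Γ σ ∧ a ≤ ht g ∧ ht g + σ.card ≤ b

variable (s) in
open Classical in
/-- the homotopy on the top level -/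
def Sb (b : ℤ) : Ch Γ →ₗ[ℤ] Ch Γ :=
  cl (fun g σ => if ht g + σ.card = b then sT s (ce g σ) else 0)

variable (s) in
open Classical in
/-- the homotopy on the bottom level -/
def Sa (a : ℤ) : Ch Γ →ₗ[ℤ] Ch Γ :=
  cl (fun g σ => if ht g = a then - sB s (ce g σ) else 0)

theorem Sb_zero (b : ℤ) {z : Ch Γ} {P : RA Γ → Finset V → Prop}
    (h : ∀ g σ, P g σ → ht g + σ.card ≠ b) (hz : z ∈ Sp Γ P) : Sb s b z = 0 :=
  sp_zero (Sb s b) (fun g σ hP => by
    unfold Sb
    rw [cl_ce, if_neg (h g σ hP)]) hz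

theorem Sb_eq (b : ℤ) {z : Ch Γ} {P : RA Γ → Finset V → Prop}
    (h : ∀ g σ, P g σ → ht g + σ.card = b) (hz : z ∈ Sp Γ P) : Sb s b z = sT s z :=
  sp_ext (f := Sb s b) (f' := sT s) (fun g σ hP => by
    unfold Sb
    rw [cl_ce, if_pos (h g σ hP)]) hz

theorem Sa_zero (a : ℤ) {z : Ch Γ} {P : RA Γ → Finset V → Prop}
    (h : ∀ g σ, P g σ → ht g ≠ a) (hz : z ∈ Sp Γ P) : Sa s a z = 0 :=
  sp_zero (Sa s a) (fun g σ hP => by
    unfold Sa
    rw [cl_ce, if_neg (h g σ hP)]) hz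

theorem Sa_eq (a : ℤ) {z : Ch Γ} {P : RA Γ → Finset V → Prop}
    (h : ∀ g σ, P g σ → ht g = a) (hz : z ∈ Sp Γ P) : Sa s a z = - sB s z := by
  have h1 := sp_ext (f := Sa s a) (f' := - sB s) (fun g σ hP => by
    unfold Sa
    rw [cl_ce, if_pos (h g σ hP), LinearMap.neg_apply]) hz
  rwa [LinearMap.neg_apply] at h1

theorem dT_ce_mem {g : RA Γ} {σ : Finset V} (hσ : Cq Γ σ) : dT (ce g σ) ∈ Sp Γ (fun g' τ =>
    Cq Γ τ ∧ ht g' = ht g + 1 ∧ τ.card + 1 = σ.card) := by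
  unfold dT
  rw [cl_ce]
  refine Submodule.sum_mem _ fun v hv => Submodule.smul_mem _ _ (ce_mem ⟨hσ.sub (erase_subset _ _),
    by rw [ht_mul, ht_gen], card_erase_add_one hv⟩)

theorem dB_ce_mem {g : RA Γ} {σ : Finset V} (hσ : Cq Γ σ) : dB (ce g σ) ∈ Sp Γ (fun g' τ =>
    Cq Γ τ ∧ ht g' = ht g ∧ τ.card + 1 = σ.card) := by
  unfold dB
  rw [cl_ce]
  refine Submodule.sum_mem _ fun v hv => Submodule.smul_mem _ _ (ce_mem ⟨hσ.sub (erase_subset _ _),
    rfl, card_erase_add_one hv⟩)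

/-- **Pushing down.** -/
theorem push_down (hs : Contr Γ s) {a b : ℤ} (hab : a + 3 ≤ b) {w : Ch Γ}
    (hw : w ∈ Sp Γ (QQ Γ a b)) (hdw : dd' w ∈ Sp Γ (QQ Γ a (b - 1))) :
    ∃ w' ∈ Sp Γ (QQ Γ a (b - 1)), dd' w' = dd' w := by
  have key : w - dd' (Sb s b w) - Sb s b (dd' w) ∈ Sp Γ (QQ Γ a (b - 1)) := by
    have h1 := sp_map (f := LinearMap.id - dd' ∘ₗ Sb s b - Sb s b ∘ₗ dd') (P := QQ Γ a b)
      (P' := QQ Γ a (b - 1)) (by
      rintro g σ ⟨h1, h2, h3⟩
      rw [LinearMap.sub_apply, LinearMap.sub_apply, LinearMap.comp_apply, LinearMap.comp_apply,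
        LinearMap.id_apply]
      have hT := dT_ce_mem (g := g) h1
      have hB := dB_ce_mem (g := g) h1
      by_cases htop : ht g + σ.card = b
      · have e1 : Sb s b (ce g σ) = sT s (ce g σ) := by
          unfold Sb
          rw [cl_ce, if_pos htop]
        have e2 : Sb s b (dT (ce g σ)) = sT s (dT (ce g σ)) :=
          Sb_eq b (fun g' τ h => by omega) hT
        have e3 : Sb s b (dB (ce g σ)) = 0 := Sb_zero b (fun g' τ h => by omega) hB
        rw [e1, dd'_eq (ce g σ), map_sub, e2, e3, dd'_eq (sT s (ce g σ)), sub_zero]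
        have e4 : ce g σ - (dT (sT s (ce g σ)) - dB (sT s (ce g σ))) - sT s (dT (ce g σ)) =
            dB (sT s (ce g σ)) := by
          have := homT hs (g := g) h1
          nth_rewrite 1 [← this]
          abel
        rw [e4]
        refine sp_map (f := dB) ?_ (sT_ce_mem hs h1)
        rintro g' τ ⟨h4, h5, h6⟩
        refine sp_mono ?_ (dB_ce_mem h4)
        rintro g'' ρ ⟨h7, h8, h9⟩
        have := hs.dim τ h4
        exact ⟨h7, by omega, by omega⟩
      · have e1 : Sb s b (ce g σ) = 0 := by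
          unfold Sb
          rw [cl_ce, if_neg htop]
        have e2 : Sb s b (dT (ce g σ)) = 0 := Sb_zero b (fun g' τ h => by omega) hT
        have e3 : Sb s b (dB (ce g σ)) = 0 := Sb_zero b (fun g' τ h => by omega) hB
        rw [e1, dd'_eq (ce g σ), map_sub, e2, e3, map_zero, sub_zero, sub_zero, sub_zero]
        exact ce_mem ⟨h1, h2, by omega⟩) hw
    rwa [LinearMap.sub_apply, LinearMap.sub_apply, LinearMap.comp_apply, LinearMap.comp_apply,
        LinearMap.id_apply] at h1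
  have h0 : Sb s b (dd' w) = 0 := Sb_zero b (fun g' τ h => by have := h.2.2; omega) hdw
  rw [h0, sub_zero] at key
  refine ⟨_, key, ?_⟩
  have h1 : Sb s b w ∈ Sp Γ (fun _ σ => Cq Γ σ) := by
    refine sp_map (f := Sb s b) ?_ hw
    rintro g σ ⟨h1, _, _⟩
    unfold Sb
    rw [cl_ce]
    split_ifs
    · exact sp_mono (fun _ _ h => h.1) (sT_ce_mem hs h1)
    · exact Submodule.zero_mem _
  rw [map_sub, dd'_sq h1, sub_zero]

/-- **Pushing up.** -/
theorem push_up (hs : Contr Γ s) {a b : ℤ} (hab : a + 3 ≤ b) {w : Ch Γ}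
    (hw : w ∈ Sp Γ (QQ Γ a b)) (hdw : dd' w ∈ Sp Γ (QQ Γ (a + 1) b)) :
    ∃ w' ∈ Sp Γ (QQ Γ (a + 1) b), dd' w' = dd' w := by
  have key : w - dd' (Sa s a w) - Sa s a (dd' w) ∈ Sp Γ (QQ Γ (a + 1) b) := by
    have h1 := sp_map (f := LinearMap.id - dd' ∘ₗ Sa s a - Sa s a ∘ₗ dd') (P := QQ Γ a b)
      (P' := QQ Γ (a + 1) b) (by
      rintro g σ ⟨h1, h2, h3⟩
      rw [LinearMap.sub_apply, LinearMap.sub_apply, LinearMap.comp_apply, LinearMap.comp_apply,
        LinearMap.id_apply]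
      have hT := dT_ce_mem (g := g) h1
      have hB := dB_ce_mem (g := g) h1
      by_cases htop : ht g = a
      · have e1 : Sa s a (ce g σ) = - sB s (ce g σ) := by
          unfold Sa
          rw [cl_ce, if_pos htop]
        have e2 : Sa s a (dB (ce g σ)) = - sB s (dB (ce g σ)) :=
          Sa_eq a (fun g' τ h => by omega) hB
        have e3 : Sa s a (dT (ce g σ)) = 0 := Sa_zero a (fun g' τ h => by omega) hT
        rw [e1, dd'_eq (ce g σ), map_sub, e2, e3, map_neg, dd'_eq (sB s (ce g σ))]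
        have e4 : ce g σ - -(dT (sB s (ce g σ)) - dB (sB s (ce g σ))) -
            (0 - - sB s (dB (ce g σ))) = dT (sB s (ce g σ)) := by
          have := homB hs (g := g) h1
          nth_rewrite 1 [← this]
          abel
        rw [e4]
        refine sp_map (f := dT) ?_ (sB_ce_mem hs h1)
        rintro g' τ ⟨h4, h5, h6⟩
        refine sp_mono ?_ (dT_ce_mem h4)
        rintro g'' ρ ⟨h7, h8, h9⟩
        have := hs.dim τ h4
        subst h5
        exact ⟨h7, by omega, by omega⟩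
      · have e1 : Sa s a (ce g σ) = 0 := by
          unfold Sa
          rw [cl_ce, if_neg htop]
        have e2 : Sa s a (dT (ce g σ)) = 0 := Sa_zero a (fun g' τ h => by omega) hT
        have e3 : Sa s a (dB (ce g σ)) = 0 := Sa_zero a (fun g' τ h => by omega) hB
        rw [e1, dd'_eq (ce g σ), map_sub, e2, e3, map_zero, sub_zero, sub_zero, sub_zero]
        exact ce_mem ⟨h1, by omega, h3⟩) hw
    rwa [LinearMap.sub_apply, LinearMap.sub_apply, LinearMap.comp_apply, LinearMap.comp_apply,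
        LinearMap.id_apply] at h1
  have h0 : Sa s a (dd' w) = 0 := Sa_zero a (fun g' τ h => by have := h.2.1; omega) hdw
  rw [h0, sub_zero] at key
  refine ⟨_, key, ?_⟩
  have h1 : Sa s a w ∈ Sp Γ (fun _ σ => Cq Γ σ) := by
    refine sp_map (f := Sa s a) ?_ hw
    rintro g σ ⟨h1, _, _⟩
    unfold Sa
    rw [cl_ce]
    split_ifs
    · exact Submodule.neg_mem _ (sp_mono (fun _ _ h => h.1) (sB_ce_mem hs h1))
    · exact Submodule.zero_mem _
  rw [map_sub, dd'_sq h1, sub_zero]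

/-- **Pushing into the slab `[0, 2]`.** -/
theorem push (hs : Contr Γ s) {w : Ch Γ} (hw : w ∈ Sp Γ (fun _ σ => Cq Γ σ))
    (hdw : dd' w ∈ Sp Γ (QQ Γ 0 2)) : ∃ w' ∈ Sp Γ (QQ Γ 0 2), dd' w' = dd' w := by
  -- bounds
  obtain ⟨N, hN⟩ : ∃ N : ℕ, w ∈ Sp Γ (QQ Γ (-(N : ℤ)) (2 + N)) := by
    obtain ⟨N, hN⟩ : ∃ N : ℕ, ∀ c ∈ w.support, (-(N : ℤ)) ≤ ht c.1 ∧ ht c.1 + c.2.card ≤ 2 + N := by
      let f : RA Γ × Finset V → ℕ := fun c => (ht c.1).natAbs + c.2.card
      refine ⟨w.support.sup f, fun c hc => ?_⟩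
      have h1 : f c ≤ w.support.sup f := le_sup hc
      simp only [f] at h1 ⊢
      omega
    refine ⟨N, ?_⟩
    rw [Finsupp.mem_supported] at hw ⊢
    intro c hc
    exact ⟨hw hc, (hN c hc).1, (hN c hc).2⟩
  -- down
  have hdown : ∀ M : ℕ, ∀ w : Ch Γ, w ∈ Sp Γ (QQ Γ (-(N : ℤ)) (2 + M)) → dd' w ∈ Sp Γ (QQ Γ 0 2) →
      ∃ w' ∈ Sp Γ (QQ Γ (-(N : ℤ)) 2), dd' w' = dd' w := by
    intro M
    induction M with
    | zero => intro w hw _; exact ⟨w, by simpa using hw, rfl⟩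
    | succ M ih =>
      intro w hw hdw
      obtain ⟨w', hw', hdw'⟩ := push_down hs (a := -(N : ℤ)) (b := 2 + (M + 1 : ℕ)) (by push_cast; omega)
        hw (sp_mono (fun g σ h => ⟨h.1, by have := h.2.1; omega, by
          have := h.2.2
          push_cast
          omega⟩) hdw)
      have h1 : w' ∈ Sp Γ (QQ Γ (-(N : ℤ)) (2 + M)) := by
        refine sp_mono (fun g σ h => ⟨h.1, h.2.1, ?_⟩) hw'
        have := h.2.2
        push_cast at this
        omega
      obtain ⟨w'', hw'', hdw''⟩ := ih w' h1 (by rw [hdw']; exact hdw)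
      exact ⟨w'', hw'', hdw''.trans hdw'⟩
  obtain ⟨w1, hw1, hdw1⟩ := hdown N w hN hdw
  -- up
  have hup : ∀ M : ℕ, ∀ w : Ch Γ, w ∈ Sp Γ (QQ Γ (-(M : ℤ)) 2) → dd' w ∈ Sp Γ (QQ Γ 0 2) →
      ∃ w' ∈ Sp Γ (QQ Γ 0 2), dd' w' = dd' w := by
    intro M
    induction M with
    | zero => intro w hw _; exact ⟨w, by simpa using hw, rfl⟩
    | succ M ih =>
      intro w hw hdw
      obtain ⟨w', hw', hdw'⟩ := push_up hs (a := -((M + 1 : ℕ) : ℤ)) (b := 2) (by push_cast; omega)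
        hw (sp_mono (fun g σ h => ⟨h.1, by
          have := h.2.1
          push_cast
          omega, h.2.2⟩) hdw)
      have h1 : w' ∈ Sp Γ (QQ Γ (-(M : ℤ)) 2) := by
        refine sp_mono (fun g σ h => ⟨h.1, ?_, h.2.2⟩) hw'
        have := h.2.1
        push_cast at this
        omega
      obtain ⟨w'', hw'', hdw''⟩ := ih w' h1 (by rw [hdw']; exact hdw)
      exact ⟨w'', hw'', hdw''.trans hdw'⟩
  obtain ⟨w2, hw2, hdw2⟩ := hup N w1 hw1 (by rw [hdw1]; exact hdw)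
  exact ⟨w2, hw2, hdw2.trans hdw1⟩

end slab

end Pool.Agent.X261.BB
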