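import Pool.Agent.X261.BB.Slab

/-!
# Boundaries of small simplices and formal sums
-/

set_option autoImplicit false
set_option linter.unusedSectionVars false

namespace Pool.Agent.X261.BB

open Finset

section small

variable {V : Type} [LinearOrder V]

theorem dL_single (σ : Finset V) : dL (Finsupp.single σ (1 : ℤ)) =
    ∑ v ∈ σ, sgn v σ • Finsupp.single (σ.erase v) (1 : ℤ) := by
  unfold dL
  rw [Finsupp.linearCombination_single, one_smul]

theorem dL_zero : dL (Finsupp.single (∅ : Finset V) (1 : ℤ)) = 0 := by
  rw [dL_single, sum_empty]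

theorem dL_one (a : V) : dL (Finsupp.single ({a} : Finset V) (1 : ℤ)) = Finsupp.single ∅ 1 := by
  rw [dL_single, sum_singleton]
  have h5 : sgn a {a} = 1 := by
    unfold sgn
    rw [filter_singleton, if_neg (lt_irrefl a), card_empty, pow_zero]
  rw [h5, one_smul, ← insert_empty_eq a, erase_insert (notMem_empty a)]

theorem dL_two {a b : V} (h : a < b) : dL (Finsupp.single ({a, b} : Finset V) (1 : ℤ)) =
    Finsupp.single {b} 1 - Finsupp.single {a} 1 := by
  rw [dL_single, sum_pair h.ne]
  have h1 : sgn a {a, b} = 1 := by
    unfold sgn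
    rw [filter_insert, if_neg (lt_irrefl a), filter_singleton, if_neg (not_lt.2 h.le), card_empty,
      pow_zero]
  have h2 : sgn b {a, b} = -1 := by
    unfold sgn
    rw [filter_insert, if_pos h, filter_singleton, if_neg (lt_irrefl b), insert_empty_eq,
      card_singleton, pow_one]
  have h3 : ({a, b} : Finset V).erase a = {b} := by
    rw [erase_insert (by simp [h.ne])]
  have h4 : ({a, b} : Finset V).erase b = {a} := by
    rw [pair_comm, erase_insert (by simp [h.ne'])]
  rw [h1, h2, h3, h4, one_smul, neg_smul, one_smul, sub_eq_add_neg]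

theorem dL_three {a b c : V} (h : a < b) (h' : b < c) :
    dL (Finsupp.single ({a, b, c} : Finset V) (1 : ℤ)) =
    Finsupp.single {b, c} 1 - Finsupp.single {a, c} 1 + Finsupp.single {a, b} 1 := by
  have hac := h.trans h'
  rw [dL_single, sum_insert (by simp [h.ne, hac.ne]), sum_pair h'.ne]
  have h1 : sgn a {a, b, c} = 1 := by
    unfold sgn
    rw [filter_insert, if_neg (lt_irrefl a), filter_insert, if_neg (not_lt.2 h.le),
      filter_singleton, if_neg (not_lt.2 hac.le), card_empty, pow_zero]
  have h2 : sgn b {a, b, c} = -1 := by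
    unfold sgn
    rw [filter_insert, if_pos h, filter_insert, if_neg (lt_irrefl b), filter_singleton,
      if_neg (not_lt.2 h'.le), insert_empty_eq, card_singleton, pow_one]
  have h3 : sgn c {a, b, c} = 1 := by
    unfold sgn
    rw [filter_insert, if_pos hac, filter_insert, if_pos h', filter_singleton,
      if_neg (lt_irrefl c), insert_empty_eq, card_pair h.ne]
    norm_num
  have h4 : ({a, b, c} : Finset V).erase a = {b, c} := by
    rw [erase_insert (by simp [h.ne, hac.ne])]
  have h5 : ({a, b, c} : Finset V).erase b = {a, c} := by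
    rw [insert_comm, erase_insert (by simp [h.ne', h'.ne])]
  have h6 : ({a, b, c} : Finset V).erase c = {a, b} := by
    rw [pair_comm b c, insert_comm, erase_insert (by simp [hac.ne', h'.ne'])]
  rw [h1, h2, h3, h4, h5, h6, one_smul, neg_smul, one_smul, one_smul]
  abel

end small

section ev

variable {V : Type}

/-- the chain of a formal sum -/
noncomputable def ev (key : ℕ → Finset V) (l : List (ℤ × ℕ)) : Finset V →₀ ℤ :=
  (l.map (fun p => Finsupp.single (key p.2) p.1)).sum

theorem ev_nil (key : ℕ → Finset V) : ev key [] = 0 := rfl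

theorem ev_cons (key : ℕ → Finset V) (p : ℤ × ℕ) (l : List (ℤ × ℕ)) :
    ev key (p :: l) = Finsupp.single (key p.2) p.1 + ev key l := by
  unfold ev
  rw [List.map_cons, List.sum_cons]

theorem ev_append (key : ℕ → Finset V) (l l' : List (ℤ × ℕ)) :
    ev key (l ++ l') = ev key l + ev key l' := by
  unfold ev
  rw [List.map_append, List.sum_append]

/-- the opposite formal sum -/
def ng (l : List (ℤ × ℕ)) : List (ℤ × ℕ) := l.map (fun p => (-p.1, p.2))

theorem ev_ng (key : ℕ → Finset V) (l : List (ℤ × ℕ)) : ev key (ng l) = - ev key l := by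
  induction l with
  | nil => simp [ng, ev]
  | cons p l ih =>
    have : ng (p :: l) = (-p.1, p.2) :: ng l := rfl
    rw [this, ev_cons, ev_cons, ih, neg_add, Finsupp.single_neg]

/-- test whether a formal sum vanishes -/
def isZ : ℕ → List (ℤ × ℕ) → Bool
  | _, [] => true
  | 0, _ :: _ => false
  | n + 1, p :: l => (p.1 + ((l.filter (fun q => Nat.beq q.2 p.2)).map Prod.fst).sum == 0) &&
      isZ n (l.filter (fun q => !(Nat.beq q.2 p.2)))

theorem ev_filter (key : ℕ → Finset V) (k : ℕ) (l : List (ℤ × ℕ)) :
    ev key l = Finsupp.single (key k) ((l.filter (fun q => Nat.beq q.2 k)).map Prod.fst).sum +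
      ev key (l.filter (fun q => !(Nat.beq q.2 k))) := by
  induction l with
  | nil => simp [ev]
  | cons p l ih =>
    rw [ev_cons, ih]
    cases h : Nat.beq p.2 k with
    | true =>
      have h1 : p.2 = k := Nat.eq_of_beq_eq_true h
      rw [List.filter_cons_of_pos (by simpa using h), List.filter_cons_of_neg (by simp [h]),
        List.map_cons, List.sum_cons, Finsupp.single_add, h1, add_assoc]
    | false =>
      rw [List.filter_cons_of_neg (by simp [h]), List.filter_cons_of_pos (by simp [h]), ev_cons]
      abel

theorem ev_isZ (key : ℕ → Finset V) (n : ℕ) : ∀ l, isZ n l = true → ev key l = 0 := by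
  induction n with
  | zero =>
    intro l h
    cases l with
    | nil => rfl
    | cons p l => simp [isZ] at h
  | succ n ih =>
    intro l h
    cases l with
    | nil => rfl
    | cons p l =>
      rw [isZ, Bool.and_eq_true] at h
      obtain ⟨h1, h2⟩ := h
      rw [ev_cons, ev_filter key p.2 l, ih _ h2, add_zero, ← Finsupp.single_add]
      have h3 := eq_of_beq h1
      rw [h3, Finsupp.single_zero]

theorem ev_mem (key : ℕ → Finset V) (A : Set (Finset V)) (l : List (ℤ × ℕ))
    (h : ∀ p ∈ l, key p.2 ∈ A) : ev key l ∈ Finsupp.supported ℤ ℤ A := by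
  induction l with
  | nil => exact Submodule.zero_mem _
  | cons p l ih =>
    rw [ev_cons]
    exact Submodule.add_mem _ (Finsupp.single_mem_supported ℤ _ (h p (by simp)))
      (ih fun q hq => h q (by simp [hq]))

theorem ev_map {M : Type} [AddCommGroup M] (key : ℕ → Finset V) (f : (Finset V →₀ ℤ) →ₗ[ℤ] M)
    (l : List (ℤ × ℕ)) :
    f (ev key l) = (l.map (fun p => p.1 • f (Finsupp.single (key p.2) 1))).sum := by
  induction l with
  | nil => simp [ev]
  | cons p l ih =>
    rw [ev_cons, map_add, ih, List.map_cons, List.sum_cons]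
    congr 1
    rw [← map_smul, Finsupp.smul_single, smul_eq_mul, mul_one]

end ev

end Pool.Agent.X261.BB
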