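import Pool.Agent.X261.BB.Data

/-!
# The contraction of the augmented chain complex of the spine
-/

set_option autoImplicit false
set_option linter.unusedSectionVars false

namespace Pool.Agent.X261.BB

open Finset

/-- edges `u * 21 + v` -/
def edg : List ℕ := [
  5, 6, 7, 8, 15, 16, 17, 18, 19, 20, 26, 30, 31, 32, 36, 37, 38, 39, 40, 41, 48, 51, 54, 55,
  57, 58, 59, 60, 61, 62, 70, 73, 75, 77, 78, 79, 80, 81, 82, 83, 92, 95, 97, 98, 99, 100, 101,
  102, 103, 104, 120, 121, 122, 142, 144, 145, 164, 165, 167, 183, 187, 188, 204, 207, 209,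
  226, 229, 230, 248, 249, 250, 267, 269, 271, 289, 290, 293, 309, 310, 312]

/-- triangles `(u * 21 + v) * 21 + w` -/
def tri : List ℕ := [
  120, 121, 122, 142, 144, 145, 164, 165, 167, 183, 187, 188, 561, 562, 563, 645, 648, 650,
  667, 670, 671, 689, 690, 691, 1024, 1026, 1027, 1086, 1089, 1091, 1149, 1151, 1153, 1171,
  1172, 1175, 1487, 1488, 1490, 1549, 1552, 1553, 1590, 1592, 1594, 1632, 1633, 1635, 1947,
  1951, 1952, 2012, 2013, 2014, 2053, 2054, 2057, 2073, 2074, 2076]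

/-- indices of the three sides `(x * 80 + y) * 80 + z` -/
def tbi : List ℕ := [
  320320, 326800, 333280, 339601, 346161, 352641, 358882, 365362, 371922, 377923, 384643,
  391123, 321130, 327610, 334090, 397931, 404571, 411131, 417212, 423852, 430332, 436493,
  442973, 449453, 341220, 347780, 354260, 398741, 405381, 411941, 456342, 462902, 469462,
  475623, 482103, 488743, 361310, 367790, 374350, 418831, 425471, 431951, 457152, 463712,
  470272, 495553, 502033, 508593, 381160, 387880, 394360, 438921, 445401, 451881, 477242,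
  483722, 490362, 496363, 502843, 509403]

/-- paths to the base vertex -/
def t1 : List (List ℕ) := [
  [], [0, 21], [2, 41], [4, 61], [6, 81], [0], [2], [4], [6], [18, 129], [18, 135], [12, 137],
  [12, 145], [18, 153], [10, 157], [8], [10], [12], [14], [16], [18]]

/-- fillings of the edges -/
def t2 : List (List ℕ) := [
  [], [], [], [], [], [], [], [], [], [], [], [0, 8, 11, 15, 16, 19, 20, 25, 30, 33, 34, 38, 41,
  44, 47, 51, 52, 55, 56, 60, 65, 74, 77, 81, 82, 85, 88, 90, 95, 96, 99, 105, 106, 115, 118],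
  [0, 8, 11, 15, 16, 19, 20, 25, 30, 33, 38, 44, 47, 51, 52, 55, 56, 60, 65, 74, 77, 81, 82, 85,
  88, 90, 95, 96, 99, 105, 106, 115, 118], [4, 29, 42], [0, 25], [2, 27], [4, 29], [4, 8, 11, 13,
  16, 20, 23, 29, 33, 34, 38, 41, 42, 47, 51, 52, 56, 59, 62, 65, 69, 70, 72, 77, 81, 82, 87, 88,
  99, 100, 103, 106, 110, 113], [2, 7, 8, 15, 16, 20, 23, 27, 33, 34, 36, 41, 44, 47, 48, 51, 56,
  59, 67, 70, 74, 77, 79, 82, 92, 95, 99, 100, 105, 106, 108, 113, 117, 118], [0, 8, 11, 15, 16,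
  19, 20, 25, 30, 33, 38, 41, 44, 47, 51, 52, 55, 56, 60, 65, 74, 77, 81, 82, 85, 88, 90, 95, 96,
  99, 105, 106, 115, 118], [], [0, 5, 8, 12, 15, 19, 22, 25, 28, 30, 33, 43, 44, 51, 55, 56, 58,
  60, 63, 68, 71, 73, 74, 85, 86, 90, 95, 96, 101, 102, 105, 111, 112, 115, 118], [0, 3, 6, 12,
  17, 19, 22, 25, 26, 30, 35, 37, 40, 49, 55, 58, 60, 66, 71, 73, 76, 78, 83, 85, 86, 90, 93, 96,
  101, 109, 112, 115, 116], [0, 5, 8, 12, 15, 19, 22, 25, 28, 30, 33, 43, 44, 51, 55, 56, 60, 63,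
  68, 73, 74, 85, 86, 90, 95, 96, 101, 102, 105, 111, 112, 115, 118], [0, 5, 10, 12, 17, 21, 22,
  25, 28, 30, 35, 39, 40, 43, 46, 53, 55, 58, 63, 64, 68, 71, 73, 76, 80, 83, 86, 89, 98, 101,
  102, 107, 111, 112], [6, 49], [0, 3, 6, 12, 17, 19, 22, 25, 26, 30, 35, 37, 40, 49, 55, 58, 60,
  63, 66, 71, 73, 76, 78, 83, 85, 86, 90, 93, 96, 101, 109, 112, 115, 116], [8, 51], [10, 53],
  [0, 5, 8, 12, 15, 19, 22, 25, 28, 30, 33, 43, 44, 51, 55, 56, 60, 63, 68, 71, 73, 74, 85, 86,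
  90, 95, 96, 101, 102, 105, 111, 112, 115, 118], [], [16, 77, 82], [12, 73, 86], [1, 2, 9, 10,
  14, 18, 21, 24, 27, 31, 32, 36, 39, 45, 46, 50, 53, 54, 57, 61, 64, 75, 79, 80, 84, 89, 91, 92,
  94, 97, 98, 104, 107, 114, 119], [2, 5, 7, 10, 12, 18, 21, 27, 28, 36, 39, 43, 46, 48, 53, 63,
  64, 67, 68, 73, 79, 80, 86, 89, 91, 92, 97, 98, 102, 107, 108, 111, 114, 117], [1, 2, 9, 10,
  14, 18, 21, 24, 27, 31, 32, 36, 39, 45, 46, 50, 53, 54, 57, 61, 64, 75, 79, 80, 84, 89, 91, 94,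
  97, 98, 104, 107, 114, 119], [12, 73], [14, 75], [1, 2, 7, 10, 16, 18, 23, 24, 27, 31, 34, 36,
  41, 48, 53, 54, 59, 61, 64, 67, 70, 77, 79, 82, 84, 89, 91, 92, 97, 100, 108, 113, 114, 117],
  [16, 77], [], [3, 4, 6, 9, 14, 17, 22, 26, 29, 32, 35, 37, 40, 42, 45, 49, 50, 57, 58, 66, 71,
  75, 76, 78, 83, 93, 94, 101, 104, 109, 112, 116, 119], [22, 101, 112], [1, 4, 6, 9, 13, 14, 18,
  24, 29, 31, 32, 42, 45, 49, 50, 54, 57, 61, 62, 66, 69, 72, 75, 84, 87, 91, 94, 97, 103, 104,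
  109, 110, 114, 116, 119], [18, 97], [1, 4, 6, 9, 13, 14, 18, 24, 29, 31, 32, 42, 45, 49, 50,
  54, 57, 61, 62, 66, 69, 72, 75, 84, 87, 91, 94, 97, 103, 104, 109, 110, 114, 119], [3, 4, 6, 9,
  14, 17, 22, 26, 29, 32, 35, 37, 40, 42, 45, 49, 50, 57, 58, 66, 71, 75, 76, 78, 83, 93, 94,
  101, 103, 104, 109, 112, 116, 119], [3, 4, 6, 11, 13, 14, 20, 26, 29, 37, 38, 42, 47, 49, 52,
  62, 65, 66, 69, 72, 75, 78, 81, 87, 88, 93, 94, 99, 103, 106, 109, 110, 116, 119], [20, 99],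
  [22, 101], [0], [2], [4], [6], [8], [10], [12], [14], [16], [18], [20], [22], [9, 10, 14, 17,
  18, 21, 32, 35, 39, 40, 45, 46, 50, 53, 54, 57, 61, 64, 75, 76, 80, 83, 84, 89, 91, 94, 97, 98,
  104, 107, 114, 119], [1, 4, 13, 14, 18, 23, 24, 29, 31, 32, 42, 45, 54, 59, 61, 62, 69, 70, 72,
  75, 84, 87, 91, 94, 97, 100, 103, 104, 110, 113, 114, 119], [], [1, 2, 9, 10, 14, 17, 18, 21,
  24, 27, 31, 32, 36, 39, 45, 46, 50, 53, 54, 57, 61, 64, 75, 76, 80, 83, 84, 89, 91, 94, 97, 98,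
  104, 107, 114, 119], [1, 2, 7, 10, 18, 23, 24, 27, 31, 34, 36, 41, 48, 53, 54, 59, 61, 64, 67,
  70, 79, 80, 84, 89, 91, 92, 97, 100, 108, 113, 114, 117], [], [], [8, 11, 13, 16, 20, 23, 33,
  34, 38, 41, 44, 47, 51, 52, 56, 59, 62, 65, 69, 70, 72, 77, 81, 82, 87, 88, 99, 100, 103, 106,
  110, 113], [2, 5, 7, 8, 15, 16, 20, 23, 27, 28, 33, 34, 36, 41, 43, 44, 48, 51, 56, 59, 67, 70,
  74, 77, 79, 82, 92, 95, 99, 100, 105, 106, 108, 113, 117, 118], [2, 5, 7, 10, 18, 21, 27, 28,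
  36, 39, 43, 46, 48, 53, 63, 64, 67, 68, 79, 80, 84, 89, 91, 92, 97, 98, 102, 107, 108, 111,
  114, 117], [], [1, 2, 7, 10, 13, 16, 18, 23, 24, 27, 31, 34, 36, 41, 48, 53, 54, 59, 61, 64,
  67, 70, 72, 77, 79, 82, 84, 87, 91, 92, 97, 100, 108, 113, 114, 117], [1, 4, 6, 9, 13, 14, 18,
  23, 24, 29, 31, 32, 42, 45, 49, 50, 54, 57, 61, 62, 66, 69, 72, 75, 84, 87, 91, 94, 97, 100,
  103, 104, 110, 113, 114, 119], [3, 4, 6, 9, 14, 17, 26, 29, 32, 35, 37, 40, 42, 45, 49, 50, 57,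
  58, 66, 71, 75, 76, 78, 83, 93, 94, 103, 104, 109, 110, 116, 119], [], [0, 5, 7, 8, 12, 15, 25,
  28, 30, 33, 43, 44, 48, 51, 55, 56, 60, 63, 67, 68, 73, 74, 85, 86, 90, 95, 102, 105, 108, 111,
  117, 118], [], [0, 3, 8, 11, 19, 20, 25, 26, 30, 33, 37, 38, 44, 47, 51, 52, 55, 56, 60, 65,
  78, 81, 85, 88, 90, 93, 96, 99, 105, 106, 115, 118]]

/-- decoding -/
def dc (n : ℕ) : ℤ × ℕ := (cond (Nat.beq (n % 2) 0) 1 (-1), n / 2)

/-- paths -/
def T1 (v : ℕ) : List (ℤ × ℕ) := (t1.getD v []).map dc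

/-- fillings -/
def T2 (i : ℕ) : List (ℤ × ℕ) := (t2.getD i []).map dc

/-- boundary of a formal sum of triangles -/
def bdT (l : List (ℤ × ℕ)) : List (ℤ × ℕ) :=
  l.flatMap (fun p => [(p.1, tbi.getD p.2 0 / 6400), (-p.1, tbi.getD p.2 0 / 80 % 80),
    (p.1, tbi.getD p.2 0 % 80)])

/-- boundary of a formal sum of edges -/
def bdE (l : List (ℤ × ℕ)) : List (ℤ × ℕ) :=
  l.flatMap (fun p => [(p.1, edg.getD p.2 0 % 21), (-p.1, edg.getD p.2 0 / 21)])

theorem chk1 : ∀ v : Fin 21, isZ 60 (bdE (T1 v.val) ++ [(1, 0), (-1, v.val)]) = true := by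
  decide +kernel

theorem chk2 : ∀ i : Fin 80, isZ 200 (bdT (T2 i.val) ++ (T1 (edg.getD i.val 0 % 21) ++
    (ng (T1 (edg.getD i.val 0 / 21)) ++ [(-1, i.val)]))) = true := by decide +kernel

theorem chk3 : ∀ i : Fin 60, isZ 200 (T2 (tbi.getD i.val 0 / 6400) ++
    (ng (T2 (tbi.getD i.val 0 / 80 % 80)) ++ (T2 (tbi.getD i.val 0 % 80) ++
      [(-1, i.val)]))) = true := by decide +kernel

theorem chk4 : ∀ v : Fin 21, (T1 v.val).all (fun p => Nat.blt p.2 80) = true := by decide +kernel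

theorem chk5 : ∀ i : Fin 80, (T2 i.val).all (fun p => Nat.blt p.2 60) = true := by decide +kernel

/-- the ends of the edges -/
def ea (i : ℕ) : Fin 21 := Fin.ofNat 21 (edg.getD i 0 / 21)

/-- the ends of the edges -/
def eb (i : ℕ) : Fin 21 := Fin.ofNat 21 (edg.getD i 0 % 21)

/-- the corners of the triangles -/
def ta (i : ℕ) : Fin 21 := Fin.ofNat 21 (tri.getD i 0 / 441)

/-- the corners of the triangles -/
def tb (i : ℕ) : Fin 21 := Fin.ofNat 21 (tri.getD i 0 / 21 % 21)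

/-- the corners of the triangles -/
def tc (i : ℕ) : Fin 21 := Fin.ofNat 21 (tri.getD i 0 % 21)

theorem chk6 : ∀ i : Fin 80, ea i.val < eb i.val ∧ adjB (ea i.val) (eb i.val) = true ∧
    (ea i.val).val = edg.getD i.val 0 / 21 ∧ (eb i.val).val = edg.getD i.val 0 % 21 := by
  decide +kernel

theorem chk7 : ∀ i : Fin 60, ta i.val < tb i.val ∧ tb i.val < tc i.val ∧
    adjB (ta i.val) (tb i.val) = true ∧ adjB (tb i.val) (tc i.val) = true ∧
    adjB (ta i.val) (tc i.val) = true ∧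
    (tbi.getD i.val 0 / 6400 < 80 ∧ ea (tbi.getD i.val 0 / 6400) = tb i.val ∧
      eb (tbi.getD i.val 0 / 6400) = tc i.val) ∧
    (tbi.getD i.val 0 / 80 % 80 < 80 ∧ ea (tbi.getD i.val 0 / 80 % 80) = ta i.val ∧
      eb (tbi.getD i.val 0 / 80 % 80) = tc i.val) ∧
    (tbi.getD i.val 0 % 80 < 80 ∧ ea (tbi.getD i.val 0 % 80) = ta i.val ∧
      eb (tbi.getD i.val 0 % 80) = tb i.val) := by
  decide +kernel

/-- the index of an edge -/
def ie (a b : Fin 21) : ℕ := edg.findIdx (fun n => Nat.beq n (a.val * 21 + b.val))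

/-- the index of a triangle -/
def it (a b c : Fin 21) : ℕ :=
  tri.findIdx (fun n => Nat.beq n ((a.val * 21 + b.val) * 21 + c.val))

theorem chk8 : ∀ a b : Fin 21, a < b → adjB a b = true →
    ie a b < 80 ∧ ea (ie a b) = a ∧ eb (ie a b) = b := by
  decide +kernel

theorem chk9 : ∀ a b : Fin 21, a < b → adjB a b = true → ∀ c : Fin 21, b < c → adjB b c = true →
    adjB a c = true → it a b c < 60 ∧ ta (it a b c) = a ∧ tb (it a b c) = b ∧
      tc (it a b c) = c := by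
  decide +kernel

theorem chk10 : ∀ i : Fin 60, ie (tb i.val) (tc i.val) = tbi.getD i.val 0 / 6400 ∧
    ie (ta i.val) (tc i.val) = tbi.getD i.val 0 / 80 % 80 ∧
    ie (ta i.val) (tb i.val) = tbi.getD i.val 0 % 80 := by
  decide +kernel

theorem chk11 : ∀ i : Fin 80, ie (ea i.val) (eb i.val) = i.val := by decide +kernel

/-- the rank of a vertex -/
def rk (v : Fin 21) : Fin 3 := if v.val < 5 then 0 else if v.val < 15 then 1 else 2

theorem chk12 : ∀ u v : Fin 21, adjB u v = true → rk u ≠ rk v := by decide +kernel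

end Pool.Agent.X261.BB
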