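import Mathlib

/-!
# Reduced words in right-angled Artin groups
-/

set_option autoImplicit false
set_option linter.unusedSectionVars false

namespace Pool.Agent.X261.BB

section words

variable {V : Type} [DecidableEq V] (Γ : SimpleGraph V) [DecidableRel Γ.Adj]

/-- inverse letter -/
def li (s : V × Bool) : V × Bool := (s.1, !s.2)

@[simp] theorem li_li (s : V × Bool) : li (li s) = s := by
  unfold li
  simp

@[simp] theorem li_fst (s : V × Bool) : (li s).1 = s.1 := rfl

/-- equality up to commutations -/
inductive Eqv : List (V × Bool) → List (V × Bool) → Prop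
  | refl (w : List (V × Bool)) : Eqv w w
  | swap (a b : V × Bool) (w : List (V × Bool)) : Γ.Adj a.1 b.1 → Eqv (a :: b :: w) (b :: a :: w)
  | cons (a : V × Bool) {w w' : List (V × Bool)} : Eqv w w' → Eqv (a :: w) (a :: w')
  | trans {u v w : List (V × Bool)} : Eqv u v → Eqv v w → Eqv u w

theorem Eqv.symm {w w' : List (V × Bool)} (h : Eqv Γ w w') : Eqv Γ w' w := by
  induction h with
  | refl w => exact Eqv.refl w
  | swap a b w h => exact Eqv.swap b a w h.symm
  | cons a _ ih => exact Eqv.cons a ih
  | trans _ _ ih1 ih2 => exact Eqv.trans ih2 ih1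

/-- delete a letter that can be moved to the front -/
def del (s : V × Bool) : List (V × Bool) → Option (List (V × Bool))
  | [] => none
  | t :: w => if t = s then some w else if Γ.Adj s.1 t.1 then (del s w).map (t :: ·) else none

theorem del_self (s : V × Bool) (w : List (V × Bool)) : del Γ s (s :: w) = some w := by
  simp [del]

theorem ne_of_adj {a b : V × Bool} (h : Γ.Adj a.1 b.1) : a ≠ b := by
  rintro rfl
  exact Γ.loopless.irrefl _ h

theorem del_adj {s t : V × Bool} (h : Γ.Adj s.1 t.1) (w : List (V × Bool)) :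
    del Γ s (t :: w) = (del Γ s w).map (t :: ·) := by
  have h1 : t ≠ s := (ne_of_adj Γ h).symm
  simp [del, h1, h]

theorem del_none {s t : V × Bool} (h : ¬ Γ.Adj s.1 t.1) (h' : t ≠ s) (w : List (V × Bool)) :
    del Γ s (t :: w) = none := by
  simp [del, h', h]

/-- relation on options -/
def OE (x y : Option (List (V × Bool))) : Prop :=
  (x = none ∧ y = none) ∨ ∃ a b, x = some a ∧ y = some b ∧ Eqv Γ a b

theorem OE.refl (x : Option (List (V × Bool))) : OE Γ x x := by
  cases x with
  | none => exact Or.inl ⟨rfl, rfl⟩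
  | some a => exact Or.inr ⟨a, a, rfl, rfl, Eqv.refl a⟩

theorem OE.trans {x y z : Option (List (V × Bool))} (h : OE Γ x y) (h' : OE Γ y z) :
    OE Γ x z := by
  rcases h with ⟨rfl, rfl⟩ | ⟨a, b, rfl, rfl, hab⟩
  · rcases h' with ⟨_, rfl⟩ | ⟨c, d, h1, _, _⟩
    · exact Or.inl ⟨rfl, rfl⟩
    · exact absurd h1 (by simp)
  · rcases h' with ⟨h1, _⟩ | ⟨c, d, h1, rfl, hcd⟩
    · exact absurd h1 (by simp)
    · rw [Option.some.injEq] at h1
      subst h1
      exact Or.inr ⟨a, d, rfl, rfl, hab.trans hcd⟩

theorem OE.map {x y : Option (List (V × Bool))} (h : OE Γ x y) (t : V × Bool) :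
    OE Γ (x.map (t :: ·)) (y.map (t :: ·)) := by
  rcases h with ⟨rfl, rfl⟩ | ⟨a, b, rfl, rfl, hab⟩
  · exact Or.inl ⟨rfl, rfl⟩
  · exact Or.inr ⟨t :: a, t :: b, rfl, rfl, Eqv.cons t hab⟩

theorem del_eqv (s : V × Bool) {w w' : List (V × Bool)} (h : Eqv Γ w w') :
    OE Γ (del Γ s w) (del Γ s w') := by
  induction h with
  | refl w => exact OE.refl Γ _
  | swap a b w hab =>
    by_cases ha : a = s
    · subst ha
      rw [del_self, del_adj Γ hab, del_self]
      exact OE.refl Γ _
    · by_cases hb : b = s
      · subst hb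
        rw [del_self, del_adj Γ hab.symm, del_self]
        exact OE.refl Γ _
      · by_cases ha' : Γ.Adj s.1 a.1
        · rw [del_adj Γ ha']
          by_cases hb' : Γ.Adj s.1 b.1
          · rw [del_adj Γ hb', del_adj Γ hb', del_adj Γ ha']
            cases del Γ s w with
            | none => exact OE.refl Γ _
            | some u => exact Or.inr ⟨_, _, rfl, rfl, Eqv.swap a b u hab⟩
          · rw [del_none Γ hb' hb, del_none Γ hb' hb]
            exact OE.refl Γ _
        · rw [del_none Γ ha' ha]
          by_cases hb' : Γ.Adj s.1 b.1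
          · rw [del_adj Γ hb', del_none Γ ha' ha]
            exact OE.refl Γ _
          · rw [del_none Γ hb' hb]
            exact OE.refl Γ _
  | cons a h ih =>
    rename_i w w'
    by_cases ha : a = s
    · subst ha
      rw [del_self, del_self]
      exact Or.inr ⟨_, _, rfl, rfl, h⟩
    · by_cases ha' : Γ.Adj s.1 a.1
      · rw [del_adj Γ ha', del_adj Γ ha']
        exact ih.map Γ a
      · rw [del_none Γ ha' ha, del_none Γ ha' ha]
        exact OE.refl Γ _
  | trans _ _ ih1 ih2 => exact ih1.trans Γ ih2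

theorem eqv_of_del {s : V × Bool} : ∀ {w u : List (V × Bool)}, del Γ s w = some u →
    Eqv Γ w (s :: u) := by
  intro w
  induction w with
  | nil => intro u h; simp [del] at h
  | cons t w ih =>
    intro u h
    by_cases ht : t = s
    · subst ht
      rw [del_self, Option.some.injEq] at h
      subst h
      exact Eqv.refl _
    · by_cases ht' : Γ.Adj s.1 t.1
      · rw [del_adj Γ ht'] at h
        cases hd : del Γ s w with
        | none => rw [hd] at h; simp at h
        | some v =>
          rw [hd, Option.map_some, Option.some.injEq] at h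
          subst h
          exact (Eqv.cons t (ih hd)).trans (Eqv.swap t s v ht'.symm)
      · rw [del_none Γ ht' ht] at h
        simp at h

theorem del_some_of_eqv {s : V × Bool} {w w' u : List (V × Bool)} (h : Eqv Γ w w')
    (hd : del Γ s w = some u) : ∃ u', del Γ s w' = some u' ∧ Eqv Γ u u' := by
  rcases del_eqv Γ s h with ⟨h1, _⟩ | ⟨a, b, h1, h2, h3⟩
  · rw [hd] at h1
    simp at h1
  · rw [hd, Option.some.injEq] at h1
    subst h1
    exact ⟨b, h2, h3⟩

theorem del_none_of_eqv {s : V × Bool} {w w' : List (V × Bool)} (h : Eqv Γ w w')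
    (hd : del Γ s w = none) : del Γ s w' = none := by
  rcases del_eqv Γ s h with ⟨_, h1⟩ | ⟨a, b, h1, _, _⟩
  · exact h1
  · rw [hd] at h1
    simp at h1

/-- cancellation -/
theorem cons_cancel {s : V × Bool} {w w' : List (V × Bool)} (h : Eqv Γ (s :: w) (s :: w')) :
    Eqv Γ w w' := by
  obtain ⟨u, hu, hu'⟩ := del_some_of_eqv Γ h (del_self Γ s w)
  rw [del_self, Option.some.injEq] at hu
  subst hu
  exact hu'

theorem adj_of_del {s t : V × Bool} (hst : s ≠ t) {w u v : List (V × Bool)}
    (hs : del Γ s w = some u) (ht : del Γ t w = some v) :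
    Γ.Adj s.1 t.1 ∧ ∃ x y, del Γ t u = some x ∧ del Γ s v = some y ∧ Eqv Γ x y := by
  obtain ⟨v', hv', hvv⟩ := del_some_of_eqv Γ (eqv_of_del Γ hs) ht
  by_cases h : Γ.Adj t.1 s.1
  · refine ⟨h.symm, ?_⟩
    rw [del_adj Γ h] at hv'
    cases hd : del Γ t u with
    | none => rw [hd] at hv'; simp at hv'
    | some x =>
      rw [hd, Option.map_some, Option.some.injEq] at hv'
      subst hv'
      obtain ⟨y, hy, hxy⟩ := del_some_of_eqv Γ hvv.symm (del_self Γ s x)
      exact ⟨x, y, rfl, hy, hxy⟩
  · rw [del_none Γ h hst] at hv'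
    simp at hv'

/-- reduced words -/
def Red : List (V × Bool) → Prop
  | [] => True
  | s :: w => Red w ∧ del Γ (li s) w = none

theorem red_cons (s : V × Bool) (w : List (V × Bool)) :
    Red Γ (s :: w) ↔ Red Γ w ∧ del Γ (li s) w = none := Iff.rfl

theorem map_none {x : Option (List (V × Bool))} {t : V × Bool} (h : x.map (t :: ·) = none) :
    x = none := by
  cases x with
  | none => rfl
  | some a => simp at h

theorem Red.eqv {w w' : List (V × Bool)} (h : Eqv Γ w w') : Red Γ w → Red Γ w' := by
  induction h with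
  | refl w => exact id
  | swap a b w hab =>
    rintro ⟨⟨h1, h2⟩, h3⟩
    have h4 : Γ.Adj (li a).1 b.1 := hab
    have h5 : Γ.Adj (li b).1 a.1 := hab.symm
    rw [del_adj Γ h4] at h3
    refine ⟨⟨h1, map_none h3⟩, ?_⟩
    rw [del_adj Γ h5, h2]
    rfl
  | cons a h ih =>
    rintro ⟨h1, h2⟩
    exact ⟨ih h1, del_none_of_eqv Γ h h2⟩
  | trans _ _ ih1 ih2 => exact fun h => ih2 (ih1 h)

/-- the action of a letter -/
def actL (s : V × Bool) (w : List (V × Bool)) : List (V × Bool) :=
  match del Γ (li s) w with
  | some u => u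
  | none => s :: w

theorem actL_some {s : V × Bool} {w u : List (V × Bool)} (h : del Γ (li s) w = some u) :
    actL Γ s w = u := by
  unfold actL
  rw [h]

theorem actL_none {s : V × Bool} {w : List (V × Bool)} (h : del Γ (li s) w = none) :
    actL Γ s w = s :: w := by
  unfold actL
  rw [h]

theorem actL_eqv (s : V × Bool) {w w' : List (V × Bool)} (h : Eqv Γ w w') :
    Eqv Γ (actL Γ s w) (actL Γ s w') := by
  rcases del_eqv Γ (li s) h with ⟨h1, h2⟩ | ⟨a, b, h1, h2, h3⟩
  · rw [actL_none Γ h1, actL_none Γ h2]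
    exact Eqv.cons s h
  · rw [actL_some Γ h1, actL_some Γ h2]
    exact h3

theorem Red.act (s : V × Bool) {w : List (V × Bool)} (h : Red Γ w) : Red Γ (actL Γ s w) := by
  cases hd : del Γ (li s) w with
  | none =>
    rw [actL_none Γ hd]
    exact ⟨h, hd⟩
  | some u =>
    rw [actL_some Γ hd]
    exact (Red.eqv Γ (eqv_of_del Γ hd) h).1

theorem actL_inv (s : V × Bool) {w : List (V × Bool)} (h : Red Γ w) :
    Eqv Γ (actL Γ (li s) (actL Γ s w)) w := by
  cases hd : del Γ (li s) w with
  | none =>
    rw [actL_none Γ hd, actL_some Γ (u := w)]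
    · exact Eqv.refl _
    · rw [li_li, del_self]
  | some u =>
    rw [actL_some Γ hd]
    have h1 := Red.eqv Γ (eqv_of_del Γ hd) h
    rw [actL_none Γ h1.2]
    exact (eqv_of_del Γ hd).symm

theorem actL_comm {s t : V × Bool} (hst : Γ.Adj s.1 t.1) (w : List (V × Bool)) :
    Eqv Γ (actL Γ s (actL Γ t w)) (actL Γ t (actL Γ s w)) := by
  have h1 : Γ.Adj (li s).1 t.1 := hst
  have h2 : Γ.Adj (li t).1 s.1 := hst.symm
  have h3 : li s ≠ li t := ne_of_adj Γ (by exact hst)
  have h4 : Γ.Adj (li s).1 (li t).1 := hst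
  have h5 : Γ.Adj (li t).1 (li s).1 := hst.symm
  cases hs : del Γ (li s) w with
  | none =>
    cases ht : del Γ (li t) w with
    | none =>
      rw [actL_none Γ hs, actL_none Γ ht, actL_none Γ, actL_none Γ]
      · exact Eqv.swap s t w hst
      · rw [del_adj Γ h2, ht]; rfl
      · rw [del_adj Γ h1, hs]; rfl
    | some v =>
      rw [actL_none Γ hs, actL_some Γ ht, actL_none Γ, actL_some Γ (u := s :: v)]
      · exact Eqv.refl _
      · rw [del_adj Γ h2, ht]; rfl
      · have h6 := del_none_of_eqv Γ (eqv_of_del Γ ht) hs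
        rw [del_adj Γ h4] at h6
        exact map_none h6
  | some u =>
    cases ht : del Γ (li t) w with
    | none =>
      rw [actL_some Γ hs, actL_none Γ ht, actL_some Γ (u := t :: u), actL_none Γ]
      · exact Eqv.refl _
      · have h6 := del_none_of_eqv Γ (eqv_of_del Γ hs) ht
        rw [del_adj Γ h5] at h6
        exact map_none h6
      · rw [del_adj Γ h1, hs]; rfl
    | some v =>
      obtain ⟨-, x, y, hx, hy, hxy⟩ := adj_of_del Γ h3 hs ht
      rw [actL_some Γ hs, actL_some Γ ht, actL_some Γ hx, actL_some Γ hy]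
      exact hxy.symm

/-- end letters -/
def En (w : List (V × Bool)) (s : V × Bool) : Prop := ∃ u, del Γ s w.reverse = some u

theorem Eqv.append_right {w w' : List (V × Bool)} (h : Eqv Γ w w') (x : List (V × Bool)) :
    Eqv Γ (w ++ x) (w' ++ x) := by
  induction h with
  | refl w => exact Eqv.refl _
  | swap a b w h => exact Eqv.swap a b (w ++ x) h
  | cons a _ ih => exact Eqv.cons a ih
  | trans _ _ ih1 ih2 => exact ih1.trans ih2

theorem Eqv.append_left {w w' : List (V × Bool)} (h : Eqv Γ w w') (x : List (V × Bool)) :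
    Eqv Γ (x ++ w) (x ++ w') := by
  induction x with
  | nil => exact h
  | cons a x ih => exact Eqv.cons a ih

theorem Eqv.reverse {w w' : List (V × Bool)} (h : Eqv Γ w w') :
    Eqv Γ w.reverse w'.reverse := by
  induction h with
  | refl w => exact Eqv.refl _
  | swap a b w h =>
    simp only [List.reverse_cons, List.append_assoc]
    exact Eqv.append_left Γ (Eqv.swap b a [] h.symm) _
  | cons a _ ih =>
    simp only [List.reverse_cons]
    exact Eqv.append_right Γ ih _
  | trans _ _ ih1 ih2 => exact ih1.trans ih2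

theorem En.eqv {w w' : List (V × Bool)} (h : Eqv Γ w w') {s : V × Bool} (hs : En Γ w s) :
    En Γ w' s := by
  obtain ⟨u, hu⟩ := hs
  obtain ⟨u', hu', _⟩ := del_some_of_eqv Γ h.reverse hu
  exact ⟨u', hu'⟩

theorem En.adj {w : List (V × Bool)} {s t : V × Bool} (hs : En Γ w s) (ht : En Γ w t)
    (hst : s ≠ t) : Γ.Adj s.1 t.1 := by
  obtain ⟨u, hu⟩ := hs
  obtain ⟨v, hv⟩ := ht
  exact (adj_of_del Γ hst hu hv).1

theorem del_append {s : V × Bool} {w u : List (V × Bool)} (x : List (V × Bool)) :
    del Γ s w = some u → del Γ s (w ++ x) = some (u ++ x) := by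
  induction w generalizing u with
  | nil => intro h; simp [del] at h
  | cons t w ih =>
    intro h
    by_cases ht : t = s
    · subst ht
      rw [del_self, Option.some.injEq] at h
      subst h
      exact del_self Γ _ _
    · by_cases ht' : Γ.Adj s.1 t.1
      · rw [del_adj Γ ht'] at h
        cases hd : del Γ s w with
        | none => rw [hd] at h; simp at h
        | some v =>
          rw [hd, Option.map_some, Option.some.injEq] at h
          subst h
          rw [List.cons_append, del_adj Γ ht', ih hd]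
          rfl
      · rw [del_none Γ ht' ht] at h
        simp at h

theorem En.cons {w : List (V × Bool)} {s : V × Bool} (hs : En Γ w s) (a : V × Bool) :
    En Γ (a :: w) s := by
  obtain ⟨u, hu⟩ := hs
  refine ⟨u ++ [a], ?_⟩
  rw [List.reverse_cons]
  exact del_append Γ [a] hu

theorem exists_en {w : List (V × Bool)} (hw : w ≠ []) : ∃ s, En Γ w s := by
  cases hr : w.reverse with
  | nil => exact absurd (List.reverse_eq_nil_iff.1 hr) hw
  | cons t u => exact ⟨t, u, by rw [hr, del_self]⟩

theorem mem_of_del {s : V × Bool} {w u : List (V × Bool)} : del Γ s w = some u → s ∈ w := by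
  induction w generalizing u with
  | nil => intro h; simp [del] at h
  | cons t w ih =>
    intro h
    by_cases ht : t = s
    · subst ht; simp
    · by_cases ht' : Γ.Adj s.1 t.1
      · rw [del_adj Γ ht'] at h
        cases hd : del Γ s w with
        | none => rw [hd] at h; simp at h
        | some v => exact List.mem_cons_of_mem _ (ih hd)
      · rw [del_none Γ ht' ht] at h
        simp at h

theorem En.mem {w : List (V × Bool)} {s : V × Bool} (hs : En Γ w s) : s ∈ w := by
  obtain ⟨u, hu⟩ := hs
  exact List.mem_reverse.1 (mem_of_del Γ hu)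

/-- the four corners of a square are below a common word -/
theorem square {s t : V × Bool} (hst : Γ.Adj s.1 t.1) (w : List (V × Bool)) :
    ∃ x, (∀ a, En Γ w a → En Γ x a) ∧ (∀ a, En Γ (actL Γ s w) a → En Γ x a) ∧
      (∀ a, En Γ (actL Γ t w) a → En Γ x a) ∧
      (∀ a, En Γ (actL Γ s (actL Γ t w)) a → En Γ x a) := by
  have h1 : Γ.Adj (li s).1 t.1 := hst
  have h2 : Γ.Adj (li t).1 s.1 := hst.symm
  have h3 : li s ≠ li t := ne_of_adj Γ (by exact hst)
  have h4 : Γ.Adj (li s).1 (li t).1 := hst
  have h5 : Γ.Adj (li t).1 (li s).1 := hst.symm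
  cases hs : del Γ (li s) w with
  | none =>
    cases ht : del Γ (li t) w with
    | none =>
      refine ⟨s :: t :: w, ?_, ?_, ?_, ?_⟩
      · exact fun a h => (h.cons Γ t).cons Γ s
      · rw [actL_none Γ hs]
        exact fun a h => (h.cons Γ t).eqv Γ (Eqv.swap t s w hst.symm)
      · rw [actL_none Γ ht]
        exact fun a h => h.cons Γ s
      · rw [actL_none Γ ht, actL_none Γ]
        · exact fun a h => h
        · rw [del_adj Γ h1, hs]; rfl
    | some v =>
      have hw := eqv_of_del Γ ht
      refine ⟨s :: w, ?_, ?_, ?_, ?_⟩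
      · exact fun a h => h.cons Γ s
      · rw [actL_none Γ hs]
        exact fun a h => h
      · rw [actL_some Γ ht]
        exact fun a h => ((h.cons Γ (li t)).eqv Γ hw.symm).cons Γ s
      · rw [actL_some Γ ht, actL_none Γ]
        · exact fun a h => ((h.cons Γ (li t)).eqv Γ (Eqv.swap (li t) s v h2)).eqv Γ
            (Eqv.cons s hw.symm)
        · have h6 := del_none_of_eqv Γ (eqv_of_del Γ ht) hs
          rw [del_adj Γ h4] at h6
          exact map_none h6
  | some u =>
    have hwu := eqv_of_del Γ hs
    cases ht : del Γ (li t) w with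
    | none =>
      refine ⟨t :: w, ?_, ?_, ?_, ?_⟩
      · exact fun a h => h.cons Γ t
      · rw [actL_some Γ hs]
        exact fun a h => ((h.cons Γ (li s)).eqv Γ hwu.symm).cons Γ t
      · rw [actL_none Γ ht]
        exact fun a h => h
      · rw [actL_none Γ ht, actL_some Γ (u := t :: u)]
        · exact fun a h => ((h.cons Γ (li s)).eqv Γ (Eqv.swap (li s) t u h1)).eqv Γ
            (Eqv.cons t hwu.symm)
        · rw [del_adj Γ h1, hs]; rfl
    | some v =>
      have hwv := eqv_of_del Γ ht
      obtain ⟨-, x, y, hx, hy, hxy⟩ := adj_of_del Γ h3 hs ht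
      refine ⟨w, fun a h => h, ?_, ?_, ?_⟩
      · rw [actL_some Γ hs]
        exact fun a h => (h.cons Γ (li s)).eqv Γ hwu.symm
      · rw [actL_some Γ ht]
        exact fun a h => (h.cons Γ (li t)).eqv Γ hwv.symm
      · rw [actL_some Γ ht, actL_some Γ hy]
        exact fun a h => ((h.cons Γ (li s)).eqv Γ (eqv_of_del Γ hy).symm |>.cons Γ (li t)).eqv Γ
          hwv.symm

end words

end Pool.Agent.X261.BB
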